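import Pool.Agent.MP_6674cc_al.Mg.Rem
import Pool.Agent.MP_6674cc_al.PF

-- part MP_6674cc_al.Count
section

/-! Normal forms of far away points of a suitable branch leave a long segment late. -/

namespace Pool.Agent.MP_6674cc_al

namespace Str

variable {Γ : Type} [Group Γ] {Z : Subgroup Γ} (s : Str Γ Z) (S : Setup Γ)

theorem ft_tl {F : Set Γ} (hF : F.Finite) : ∃ K : ℕ, ∀ γ ∈ F, ∀ u ∈ s.M.accepts, ∀ v ∈ s.M.accepts, ∀ z ∈ Z,
    ev s.lab u * γ = z * ev s.lab v → ∀ n, S.TL K ((ev s.lab (u.take n))⁻¹ * (z * ev s.lab (v.take n))) := by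
  choose D hD hD' using s.ft
  obtain ⟨K, hK⟩ := Setup.exists_tl_of_finite (S := S) (hF.biUnion fun γ _ => hD γ)
  refine ⟨K, fun γ hγ u hu v hv z hz h n => hK _ ?_⟩
  rw [← mul_assoc]
  exact Set.mem_biUnion hγ (hD' γ u hu v hv z hz h n)

theorem take_split {X : Type} (w : List X) {a b : ℕ} (h : a ≤ b) : ∃ c, w.take b = w.take a ++ c := by
  obtain ⟨c, hc⟩ : w.take a <+: w.take b := List.take_prefix_take_left h
  exact ⟨c, hc.symm⟩

/-- a bounded jump starting at a point with velocity `Ω` -/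
def Hop (K : ℕ) (Ω : S.V) (α β : Γ) : Prop :=
  (∃ z ∈ Z, S.TL K (α⁻¹ * (z * β))) ∧ ∃ p, s.Est S (s.st p) ∧ s.av S p = Ω ∧ ev s.lab p = α

theorem hop_chain (hg : S.Good s.lab) (hZ : Z ≤ S.L.normalCore) {F : Set Γ} (hF : F.Finite) :
    ∃ K : ℕ, ∀ m l : ℕ, ∃ l' : ℕ, ∀ gs : List Γ, gs.length ≤ m → (∀ a ∈ gs, a ∈ F) →
      ∀ u ∈ s.M.accepts, ∀ v ∈ s.M.accepts, ∀ z ∈ Z, ev s.lab u * gs.prod = z * ev s.lab v → ∀ a b Ω, a + l' ≤ b →
        s.Win S u a b Ω → ∃ a', a ≤ a' ∧ a' + l ≤ b ∧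
          Relation.ReflTransGen (s.Hop S K Ω) (ev s.lab (u.take a)) (ev s.lab (v.take a')) := by
  obtain ⟨C, hC⟩ := s.est_tl S hg
  obtain ⟨K, hK⟩ := s.ft_tl S hF
  refine ⟨C + K, fun m l => ?_⟩
  have base : ∀ u ∈ s.M.accepts, ∀ v ∈ s.M.accepts, ∀ z ∈ Z, ev s.lab u * ([] : List Γ).prod = z * ev s.lab v →
      u = v := fun u hu v hv z hz h => (s.uniq v hv u hu z hz (by simpa using h)).symm
  induction m with
  | zero =>
    refine ⟨l, fun gs h1 _ u hu v hv z hz h a b Ω hab _ => ?_⟩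
    obtain rfl : gs = [] := List.length_eq_zero_iff.1 (by omega)
    obtain rfl := base u hu v hv z hz h
    exact ⟨a, le_rfl, hab, Relation.ReflTransGen.refl⟩
  | succ m ih =>
    obtain ⟨l₁, h₁⟩ := ih
    choose f hf using fun γ => s.win_transfer S hg hZ γ l₁
    obtain ⟨l₂, h₂⟩ := (hF.image f).bddAbove
    refine ⟨l + l₂, fun gs h1 h2 u hu v hv z hz h a b Ω hab hw => ?_⟩
    cases gs with
    | nil =>
      obtain rfl := base u hu v hv z hz h
      exact ⟨a, le_rfl, by omega, Relation.ReflTransGen.refl⟩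
    | cons γ gs =>
      have hγ : γ ∈ F := h2 γ List.mem_cons_self
      have hle : f γ ≤ l₂ := h₂ ⟨γ, hγ, rfl⟩
      obtain ⟨u₁, hu₁, z₁, hz₁, he⟩ := s.onto (ev s.lab u * γ)
      have he' : ev s.lab u * γ = z₁⁻¹ * ev s.lab u₁ := by rw [he]; group
      obtain ⟨a₁, ha₁, hb₁, hw₁⟩ := hf γ u hu u₁ hu₁ _ (Z.inv_mem hz₁) he' a b Ω (by omega) hw
      obtain ⟨a', h3, h4, h5⟩ := h₁ gs (by simpa using h1) (fun a ha => h2 a (List.mem_cons_of_mem _ ha)) u₁ hu₁ v hv
        (z₁ * z) (Z.mul_mem hz₁ hz) (by rw [he, mul_assoc, mul_assoc, mul_assoc, ← h, List.prod_cons]) a₁ _ Ω le_rfl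
        hw₁
      refine ⟨a', by omega, by omega, Relation.ReflTransGen.head ⟨⟨z₁⁻¹, Z.inv_mem hz₁, ?_⟩, ?_⟩ h5⟩
      · obtain ⟨c, hc⟩ := take_split u ha₁
        have h6 := (hw.2.2 a₁ ha₁ (by omega)).2.1
        rw [hc, s.st_append] at h6
        have h7 := (hC _ c (hw.2.2 a le_rfl hw.1).1 h6).mul (hK γ hγ u hu u₁ hu₁ _ (Z.inv_mem hz₁) he' a₁)
        rw [hc, ev_append] at h7
        refine (congrArg _ ?_).mp h7
        group
      · exact ⟨u.take a, (hw.2.2 a le_rfl hw.1).1, (hw.2.2 a le_rfl hw.1).2.2, rfl⟩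

theorem hop_enter (hZ : Z ≤ S.L.normalCore) {K : ℕ} {Ω : S.V} {α β k : Γ}
    (h : Relation.ReflTransGen (s.Hop S K Ω) α β) (h1 : ¬S.Λ k <:+ S.Λ α) (h2 : S.Λ k <:+ S.Λ β) :
    ∃ p, s.Est S (s.st p) ∧ s.av S p = Ω ∧ |S.e k - S.e (ev s.lab p)| ≤ K := by
  induction h with
  | refl => exact absurd h2 h1
  | @tail b c _ hbc ih =>
    by_cases hb : S.Λ k <:+ S.Λ b
    · exact ih hb
    obtain ⟨⟨z, hz, h3⟩, p, h4, h5, rfl⟩ := hbc
    have h6 := (h3.enter (by rw [S.Λ_core (hZ hz)]; exact h2) hb).1.e_le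
    rw [S.e_mul, S.e_inv] at h6
    exact ⟨p, h4, h5, by rwa [sub_eq_neg_add]⟩

end Str

namespace Setup

variable {Γ : Type} [Group Γ] (S : Setup Γ)

theorem avoid_branch {x₀ : Γ} (hx : x₀ ∈ S.L) (hx' : S.t⁻¹ * x₀ * S.t ∉ S.L) {g : Γ} (hg : S.Up (S.Λ g))
    (y : List S.β) : ∃ x, (x = 1 ∨ x = x₀) ∧ ¬S.Λ (g * x * S.t) <:+ y := by
  by_contra hc
  push Not at hc
  have h1 := hc 1 (Or.inl rfl)
  have h2 := hc x₀ (Or.inr rfl)
  obtain ⟨c, hc1⟩ := (S.up_step g hg).1
  obtain ⟨c', hc2⟩ := (S.up_step (g * x₀) (by rwa [S.Λ_mul_L g hx])).1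
  rw [mul_one] at h1
  have h3 : S.Λ (g * S.t) = S.Λ (g * x₀ * S.t) :=
    (List.suffix_of_suffix_length_le h1 h2 (by rw [hc1, hc2, S.Λ_mul_L g hx]; simp)).eq_of_length
      (by rw [hc1, hc2, S.Λ_mul_L g hx]; simp)
  refine hx' ((congrArg (· ∈ S.L) ?_).mp ((S.Λ_eq _ _).1 h3))
  group

theorem suffix_t_pow {g : Γ} (hg : S.Up (S.Λ g)) (J : ℕ) : S.Λ (g * S.t) <:+ S.Λ (g * S.t ^ (J + 1)) := by
  obtain ⟨-, b, -, hb⟩ := (asc_t_pow (S := S) J).up (S.up_step g hg).2
  rw [pow_succ', ← mul_assoc, hb]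
  exact List.suffix_append _ _

end Setup

namespace Str

variable {Γ : Type} [Group Γ] {Z : Subgroup Γ} (s : Str Γ Z) (S : Setup Γ)

theorem escape (hZ : Z ≤ S.L.normalCore) (hg : S.Good s.lab) (hper : ∀ q, s.Est S q → ¬S.Per (s.vel S q))
    {x₀ : Γ} (hx : x₀ ∈ S.L) (hx' : S.t⁻¹ * x₀ * S.t ∉ S.L) (B : ℕ) :
    ∃ J : ℕ, B ≤ J ∧ ∀ F : Set Γ, F.Finite → ∃ l : ℕ, ∀ p v, p ++ v ∈ s.M.accepts → S.Up (S.Λ (ev s.lab p)) →
      ∀ a₀, a₀ + l ≤ p.length → ∃ x, (x = 1 ∨ x = x₀) ∧ ∀ γ ∈ F, ∀ w ∈ s.M.accepts, ∀ z ∈ Z,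
        ev s.lab (p ++ v) * γ = z * ev s.lab w →
          ∃ n, a₀ ≤ n ∧ ¬S.Λ (ev s.lab p * x * S.t ^ J) <:+ S.Λ (ev s.lab (w.take n)) := by
  obtain ⟨C, hC⟩ := s.exp_rigid S hper
  obtain ⟨S₀, hS₀, hgen⟩ := S.gen_finite
  obtain ⟨K, hK⟩ := s.hop_chain S hg hZ hS₀
  refine ⟨(B + C + 2 * K + 1) + 1, by omega, fun F hF => ?_⟩
  generalize hJ : B + C + 2 * K + 1 = J
  choose gs hgs hgs' using hgen
  obtain ⟨m, hm⟩ := (hF.image fun γ => (gs γ).length).bddAbove
  obtain ⟨K', hK'⟩ := s.ft_tl S hF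
  obtain ⟨l₁, hl₁⟩ := hK m 0
  obtain ⟨l, hl⟩ := s.win_of_bounded S hg ((K' + (J + 1)) + (K' + (J + 1))) l₁
  refine ⟨l, fun p v hpv hup a₀ ha₀ => ?_⟩
  have hxL : ∀ x, (x = 1 ∨ x = x₀) → x ∈ S.L := by
    rintro x (rfl | rfl)
    exacts [S.L.one_mem, hx]
  have hsuf : ∀ x, (x = 1 ∨ x = x₀) →
      S.Λ (ev s.lab p * x * S.t) <:+ S.Λ (ev s.lab p * x * S.t ^ (J + 1)) := fun x h =>
    S.suffix_t_pow (by rwa [S.Λ_mul_L _ (hxL x h)]) J
  by_cases hd : ∀ n, a₀ ≤ n → n ≤ p.length →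
      S.TL (K' + (J + 1)) ((ev s.lab ((p ++ v).take n))⁻¹ * ev s.lab p)
  · obtain ⟨a', Ω, h1, h2, hw⟩ := hl _ hpv a₀ p.length ha₀ (by simp) fun n n' h1 h2 h3 => by
      refine (congrArg _ ?_).mp ((hd n h1 (by omega)).mul (hd n' (by omega) h3).inv)
      group
    obtain ⟨x, h3, h4⟩ := S.avoid_branch hx hx' hup (S.Λ (ev s.lab ((p ++ v).take a')))
    refine ⟨x, h3, fun γ hγ w hw' z hz he => ?_⟩
    obtain ⟨n, h5, -, h6⟩ := hl₁ (gs γ) (hm ⟨γ, hγ, rfl⟩) (hgs γ) _ hpv w hw' z hz (by rw [hgs', he]) a' _ Ω le_rfl hw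
    refine ⟨n, by omega, fun h7 => ?_⟩
    obtain ⟨p₁, e₁, v₁, b₁⟩ := s.hop_enter S hZ h6 h4 ((hsuf x h3).trans h7)
    obtain ⟨p₂, e₂, v₂, b₂⟩ := s.hop_enter S hZ h6 (fun h => h4 ((hsuf x h3).trans h)) h7
    have h8 := hC p₁ p₂ e₁ e₂ (v₁.trans v₂.symm)
    rw [S.e_mul, S.e_t] at b₁
    rw [S.e_mul, S.e_pow, S.e_t] at b₂
    rw [abs_le] at h8 b₁ b₂
    push_cast at b₂
    omega
  · push Not at hd
    obtain ⟨n, h1, -, h2⟩ := hd
    obtain ⟨x, h3, h4⟩ := S.avoid_branch hx hx' hup (S.Λ (ev s.lab ((p ++ v).take n)))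
    refine ⟨x, h3, fun γ hγ w hw' z hz he => ⟨n, h1, fun h7 => h2 ?_⟩⟩
    have h5 := ((hK' γ hγ _ hpv w hw' z hz he n).enter (by rw [S.Λ_core (hZ hz)]; exact h7)
      fun h => h4 ((hsuf x h3).trans h)).1
    have h6 := h5.mul ((Setup.TL.of_L (hxL x h3) 0).mul (Setup.asc_t_pow (S := S) (J + 1)).tl).inv
    rw [Nat.zero_add] at h6
    refine (congrArg _ ?_).mp h6
    group

end Str

end Pool.Agent.MP_6674cc_al

/-! Regions in which all normal forms climb the tree in bounded steps. -/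

namespace Pool.Agent.MP_6674cc_al

theorem exists_last_long {X : Type} (M : ℕ) (us : List (List X)) (h : ∃ u ∈ us, M < u.length) :
    ∃ us₁ u us₂, us = us₁ ++ u :: us₂ ∧ M < u.length ∧ us₂.flatten.length ≤ us.length * M := by
  have key : ∀ vs : List (List X), (∀ u ∈ vs, u.length ≤ M) → vs.flatten.length ≤ vs.length * M := by
    intro vs
    induction vs with
    | nil => simp
    | cons a vs ih =>
      intro h
      have h1 := h a List.mem_cons_self
      have h2 := ih fun u hu => h u (List.mem_cons_of_mem _ hu)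
      rw [List.flatten_cons, List.length_append, List.length_cons, Nat.succ_mul]
      omega
  induction us with
  | nil => simp at h
  | cons a us ih =>
    by_cases h1 : ∃ u ∈ us, M < u.length
    · obtain ⟨us₁, u, us₂, h2, h3, h4⟩ := ih h1
      refine ⟨a :: us₁, u, us₂, by rw [h2]; rfl, h3, ?_⟩
      rw [List.length_cons, Nat.succ_mul]
      omega
    · push Not at h1
      obtain ⟨u, hu, h2⟩ := h
      rcases List.mem_cons.1 hu with rfl | hu
      · refine ⟨[], u, us, rfl, h2, ?_⟩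
        have := key us h1
        rw [List.length_cons, Nat.succ_mul]
        omega
      · exact absurd h2 (not_lt.2 (h1 u hu))

namespace Setup

variable {Γ : Type} [Group Γ] {S : Setup Γ}

/-- after the last visit of `y` the path stays strictly above `y` -/
theorem Good.after_last {X : Type} {lab : X → Γ} (h : S.Good lab) {a b : List X} {y : List S.β}
    (ha : S.Λ (ev lab a) = y) (hb : ∀ p, p ≠ [] → p <+: b → S.Λ (ev lab (a ++ p)) ≠ y)
    (hy : y <:+ S.Λ (ev lab (a ++ b))) (n : ℕ) (hn : a.length ≤ n) :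
    y <:+ S.Λ (ev lab ((a ++ b).take n)) ∧ (S.Λ (ev lab ((a ++ b).take n)) = y → n = a.length ∨ b = []) := by
  subst ha
  rw [List.take_append, List.take_of_length_le hn]
  refine ⟨?_, fun he => ?_⟩
  · rw [ev_append]
    exact h.stay (fun p h1 h2 => by simpa using hb p h1 h2) (by simpa using hy) _ (List.take_prefix _ _)
  · by_contra hc
    push Not at hc
    refine hb _ ?_ (List.take_prefix _ _) he
    rw [Ne, List.take_eq_nil_iff]
    push Not
    exact ⟨by omega, hc.2⟩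

end Setup

variable {Γ : Type} [Group Γ] (S : Setup Γ) {Z : Subgroup Γ} (s : Str Γ Z)

theorem rank_drop (hg : S.Good s.lab) : ∃ C : ℕ, ∀ D, C < D → ∃ M : ℕ, ∀ a b c y, a ++ b ++ c ∈ s.M.accepts →
    S.Λ (ev s.lab (a ++ b)) = y ++ S.Λ (ev s.lab a) → y.length = D → M ≤ b.length →
      s.rank (s.st (a ++ b)) < s.rank (s.st a) := by
  obtain ⟨C, hC⟩ := s.est_tl S hg
  refine ⟨C, fun D hD => ?_⟩
  obtain ⟨M, hM⟩ := s.loop_bound S hg D
  refine ⟨M, fun a b c y h1 h2 h3 h4 => ?_⟩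
  rw [s.st_append]
  refine lt_of_le_of_ne (s.rank_le _ _) fun he => ?_
  have h5 : S.TL D (ev s.lab b) := by
    have := Setup.tl_of_stack (a := []) (g := ev s.lab a) rfl h2
    simpa [h3] using this
  have h6 := hM _ b ⟨a, rfl⟩ ⟨c, by rw [← s.st_append]; exact s.append_mem_acc.1 h1⟩ he h5 h4
  have h7 : S.TL C ((ev s.lab a)⁻¹ * ev s.lab (a ++ b)) := by simpa using hC _ b h6 he
  have h8 := h7.length_le
  rw [h2, List.length_append] at h8
  omega

/-- normal forms that leave the vertex of `g` for the last time in a state of rank at least `N` -/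
def Leave (N : ℕ) (g a : Γ) : Prop :=
  ∃ w₀ w₁, w₀ ++ w₁ ∈ s.M.accepts ∧ (∃ z ∈ Z, ev s.lab (w₀ ++ w₁) = z * (g * a)) ∧ S.Λ (ev s.lab w₀) = S.Λ g ∧
    (∀ p, p ≠ [] → p <+: w₁ → S.Λ (ev s.lab (w₀ ++ p)) ≠ S.Λ g) ∧ N ≤ s.rank (s.st w₀)

theorem climb_step (hZ : Z ≤ S.L.normalCore) (hg : S.Good s.lab) (hbr : S.Branch)
    (hper : ∀ q, s.Est S q → ¬S.Per (s.vel S q))
    (hno : ∀ M : ℕ, ∃ K : Set Γ, K.Finite ∧ (∀ k ∈ K, ∃ j, S.Asc j k) ∧
      ∀ g, S.Up (S.Λ g) → ∃ k ∈ K, ¬s.Bd S M g (g * k)) {N : ℕ} {A : Set Γ} (hA : A.Finite)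
    (hA' : ∀ a ∈ A, ∃ j, S.Asc j a) (hN : ∀ g, S.Up (S.Λ g) → ∃ a ∈ A, Leave S s N g a) :
    ∃ A' : Set Γ, A'.Finite ∧ (∀ a ∈ A', ∃ j, S.Asc j a) ∧
      ∀ g, S.Up (S.Λ g) → ∃ a ∈ A', Leave S s (N + 1) g a := by
  obtain ⟨x₀, hx, hx'⟩ := hbr
  obtain ⟨n, -, hn⟩ := s.short_paths
  obtain ⟨C, hC⟩ := rank_drop S s hg
  obtain ⟨J, hJ, hesc⟩ := s.escape S hZ hg hper hx hx' C
  have hW := finite_ev_le s.lab
  have hX : ({1, x₀} : Set Γ).Finite := Set.toFinite _
  have hF := ((hW n).prod (hX.prod hA)).image fun r => r.1⁻¹ * r.2.1 * S.t ^ J * r.2.2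
  obtain ⟨l, hl⟩ := hesc _ hF
  obtain ⟨K', hK'⟩ := s.ft_tl S hF
  obtain ⟨MA, hMA⟩ := hC (J + 1 + (n + K')) (by omega)
  obtain ⟨K, hK, hK1, hK2⟩ := hno (MA + l)
  obtain ⟨jm, hjm⟩ := (hK.image fun k => (S.e k).toNat).bddAbove
  have hA2 := ((hK.prod ((hW (jm * (MA + l))).prod (hX.prod hA))).image
    fun r => S.t ^ (n + K') * r.1 * r.2.1⁻¹ * r.2.2.1 * S.t ^ J * r.2.2.2).inter_of_left {a | ∃ j, S.Asc j a}
  refine ⟨_, hA2, fun a ha => ha.2, fun g hup => ?_⟩
  clear hA2
  obtain ⟨hup₁, b₀, hb₀, hb₀'⟩ := (Setup.asc_t_pow (S := S) (n + K')).up hup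
  obtain ⟨k, hk, hnb⟩ := hK2 _ hup₁
  obtain ⟨j, hj⟩ := hK1 k hk
  obtain ⟨w, hw, z, hz, hwe⟩ := s.onto (g * S.t ^ (n + K') * k)
  have hc := S.Λ_core (hZ hz)
  obtain ⟨w', us, rfl, hus, hw', hseg⟩ := hg.seg_exists (g := z * (g * S.t ^ (n + K'))) (by rwa [hc]) hj
    (hwe.trans (mul_assoc _ _ _).symm)
  obtain ⟨us₁, u, us₂, rfl, hu, hlen⟩ := exists_last_long (MA + l) us (by
    by_contra hcon
    push Not at hcon
    exact hnb ⟨w', us, hw, ⟨z, hz, hwe⟩, hw'.trans (hc _), fun u hu => ⟨hseg u hu, hcon u hu⟩⟩)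
  have hjle : j ≤ jm := by simpa [hj.e_eq] using hjm ⟨k, hk, rfl⟩
  have hlen' : us₂.flatten.length ≤ jm * (MA + l) := hlen.trans (Nat.mul_le_mul_right _ (hus ▸ hjle))
  have hsu : S.Seg s.lab u := hseg u (by simp)
  have ha₁ := Setup.asc_flatten (lab := s.lab) (us := us₁) fun v hv => hseg v (by simp [hv])
  have hL₁ := (S.Λ_eq _ _).1 hw'.symm
  rw [hc] at hw'
  obtain ⟨hup₂, b₁, -, hb₁⟩ := ha₁.up (g := ev s.lab w') (by rwa [hw'])
  rw [← ev_append] at hup₂ hb₁
  rw [List.flatten_append, List.flatten_cons, ← List.append_assoc, ← List.append_assoc] at hw hwe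
  have hasc : S.Asc (0 + us₁.length) ((z * (g * S.t ^ (n + K')))⁻¹ * ev s.lab (w' ++ us₁.flatten)) := by
    rw [ev_append, ← mul_assoc]
    exact (Setup.Asc.base hL₁).mul ha₁
  generalize w' ++ us₁.flatten = w₀ at hw hwe hup₂ hb₁ hasc
  rw [hw', hb₀'] at hb₁
  obtain ⟨hup₃, b₂, hb₂, hb₂'⟩ := hsu.1.up hup₂
  rw [← ev_append] at hup₃ hb₂'
  obtain ⟨v, hv, hv'⟩ := hn (s.st (w₀ ++ u)) ⟨_, s.append_mem_acc.1 hw⟩
  have hacc : w₀ ++ u ++ v ∈ s.M.accepts := s.append_mem_acc.2 hv'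
  obtain ⟨x, hx1, hx2⟩ := hl (w₀ ++ u) v hacc hup₃ (w₀.length + MA) (by rw [List.length_append]; omega)
  have hxL : x ∈ S.L := by
    rcases hx1 with rfl | rfl
    exacts [S.L.one_mem, hx]
  obtain ⟨hup₄, b₃, hb₃, hb₃'⟩ := (Setup.asc_t_pow (S := S) J).up (g := ev s.lab (w₀ ++ u) * x)
    (by rwa [S.Λ_mul_L _ hxL])
  rw [S.Λ_mul_L _ hxL] at hb₃'
  have hc' := S.Λ_core (hZ (Z.inv_mem hz)) (ev s.lab (w₀ ++ u) * x * S.t ^ J)
  obtain ⟨a, ha, c₀, c₁, hcc, ⟨z', hz', hce⟩, hΛ, hlast, hrank⟩ := hN _ (hc'.symm ▸ hup₄)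
  rw [hc'] at hΛ hlast
  obtain ⟨i, hi⟩ := hA' a ha
  have hzz : z * z'⁻¹ ∈ Z := Z.mul_mem hz (Z.inv_mem hz')
  have hrel : ev s.lab (w₀ ++ u ++ v) * ((ev s.lab v)⁻¹ * x * S.t ^ J * a) = z * z'⁻¹ * ev s.lab (c₀ ++ c₁) := by
    rw [hce, ev_append _ (w₀ ++ u)]
    group
  have hmem : (ev s.lab v)⁻¹ * x * S.t ^ J * a ∈ (fun r : Γ × Γ × Γ => r.1⁻¹ * r.2.1 * S.t ^ J * r.2.2) ''
      ({g | ∃ w : List s.X, w.length ≤ n ∧ ev s.lab w = g} ×ˢ ({1, x₀} : Set Γ) ×ˢ A) :=
    ⟨(ev s.lab v, x, a), ⟨⟨v, hv, rfl⟩, hx1, ha⟩, rfl⟩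
  obtain ⟨n₁, hn₁, hn₁'⟩ := hx2 _ hmem _ hcc _ hzz hrel
  have hft := hK' _ hmem _ hacc _ hcc _ hzz hrel
  have hend : S.Λ (ev s.lab (w₀ ++ u) * x * S.t ^ J) <:+ S.Λ (ev s.lab (c₀ ++ c₁)) := by
    obtain ⟨-, b, -, hb⟩ := hi.up hup₄
    rw [hce, S.Λ_core (hZ hz'), mul_assoc z⁻¹, S.Λ_core (hZ (Z.inv_mem hz)), hb]
    exact List.suffix_append _ _
  have hlate : n₁ < c₀.length := by
    by_contra hcon
    exact hn₁' (hg.after_last hΛ hlast hend n₁ (by omega)).1
  -- the vertex `y`, `n + K'` levels below the start of `u`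
  obtain ⟨d, y, hd, hdy, hy⟩ : ∃ d y, d.length = n + K' ∧ S.Λ (ev s.lab w₀) = d ++ y ∧ S.Λ g <:+ y := by
    refine ⟨(b₁ ++ b₀).take (n + K'), (b₁ ++ b₀).drop (n + K') ++ S.Λ g, by simp [hb₀], ?_, List.suffix_append _ _⟩
    rw [← List.append_assoc, List.take_append_drop, hb₁, List.append_assoc]
  have htop : S.Λ (ev s.lab c₀) = (b₃ ++ b₂ ++ d) ++ y := by
    rw [hΛ, hb₃', hb₂', hdy]
    simp
  have hyend : y <:+ S.Λ (ev s.lab (c₀ ++ c₁)) := (List.suffix_append _ _).trans (htop ▸ hΛ ▸ hend)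
  obtain ⟨a₁, r₁, e₁, hv₁, hl₁⟩ := hg.last_visit hyend
  obtain ⟨a₀, r₀, e₀, hv₀, hl₀⟩ := hg.last_visit (hy.trans hyend)
  have hearly : a₁.length ≤ w₀.length := by
    by_contra hcon
    have h1 : (S.Λ (ev s.lab (w₀ ++ u))).drop n <:+ S.Λ (ev s.lab ((w₀ ++ u ++ v).take a₁.length)) := by
      by_cases h2 : a₁.length ≤ (w₀ ++ u).length
      · rw [List.take_append_of_le_length h2, List.take_append, List.take_of_length_le (by omega), ev_append,
          ev_append]
        refine (List.drop_suffix _ _).trans (hg.seg_above (us := []) hup₂ hsu (by simp) _ ?_ ?_)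
        · rw [Ne, List.take_eq_nil_iff]
          push Not
          exact ⟨by omega, hsu.ne_nil⟩
        · simpa using List.take_prefix _ _
      · rw [List.take_append, List.take_of_length_le (by omega)]
        refine Setup.TL.drop_suffix ?_ List.suffix_rfl
        rw [ev_append _ (w₀ ++ u), inv_mul_cancel_left]
        exact (hg.tl _).le ((List.length_take_le' _ _).trans hv)
    have h3 := ((hft a₁.length).drop_suffix h1).length_le
    rw [S.Λ_core (hZ hzz), e₁, List.take_left, hv₁, hb₂', hdy] at h3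
    simp only [List.length_drop, List.length_append] at h3
    omega
  have hp₁ : a₁ <+: c₀ :=
    List.prefix_of_prefix_length_le (l₃ := c₀ ++ c₁) ⟨r₁, e₁.symm⟩ (List.prefix_append _ _) (by omega)
  obtain ⟨b, rfl⟩ := hp₁
  have hdrop := hMA a₁ b c₁ _ hcc (by rw [htop, hv₁]) (by simp [hb₃, hb₂, hd]; omega)
    (by rw [List.length_append] at hlate; omega)
  have hp₀ : a₀ <+: a₁ := by
    refine List.prefix_of_prefix_length_le (l₃ := a₁ ++ r₁) ⟨r₀, e₀.symm.trans e₁⟩ (List.prefix_append _ _) ?_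
    by_contra hcon
    have h1 := hg.after_last hv₁ hl₁ (e₁ ▸ hyend) a₀.length (by omega)
    rw [← e₁, e₀, List.take_left, hv₀] at h1
    rcases h1.2 (hy.eq_of_length_le h1.1.length_le) with h2 | h2
    · omega
    · have h3 := congrArg List.length (e₀.symm.trans e₁)
      simp only [h2, List.length_append, List.length_nil] at h3
      omega
  obtain ⟨b', rfl⟩ := hp₀
  have hr := s.rank_le (s.st a₀) b'
  rw [← s.st_append] at hr
  refine ⟨S.t ^ (n + K') * k * (ev s.lab us₂.flatten)⁻¹ * x * S.t ^ J * a,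
    ⟨⟨(k, ev s.lab us₂.flatten, x, a), ⟨hk, ⟨_, hlen', rfl⟩, hx1, ha⟩, rfl⟩, ?_⟩, a₀, r₀, e₀ ▸ hcc, ⟨z', hz', ?_⟩,
    hv₀, hl₀, by omega⟩
  · refine ⟨_, (congrArg _ ?_).mp ((((((Setup.asc_t_pow (n + K')).mul hasc).mul hsu.1).mul
      (Setup.Asc.base hxL)).mul (Setup.asc_t_pow J)).mul hi)⟩
    rw [ev_append, ev_append] at hwe
    rw [eq_mul_inv_of_mul_eq (eq_mul_inv_of_mul_eq hwe)]
    group
  · rw [← e₀, hce]
    rw [ev_append] at hwe
    rw [eq_mul_inv_of_mul_eq hwe]
    group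

theorem climb (hZ : Z ≤ S.L.normalCore) (hg : S.Good s.lab) (hbr : S.Branch)
    (hper : ∀ q, s.Est S q → ¬S.Per (s.vel S q)) :
    ∃ M : ℕ, ∀ K : Set Γ, K.Finite → (∀ k ∈ K, ∃ j, S.Asc j k) →
      ∃ g, S.Up (S.Λ g) ∧ ∀ k ∈ K, s.Bd S M g (g * k) := by
  by_contra hno
  push Not at hno
  have key : ∀ N : ℕ, ∃ A : Set Γ, A.Finite ∧ (∀ a ∈ A, ∃ j, S.Asc j a) ∧
      ∀ g, S.Up (S.Λ g) → ∃ a ∈ A, Leave S s N g a := by
    intro N
    induction N with
    | zero =>
      refine ⟨{1}, Set.finite_singleton _, fun a ha => ⟨0, ha ▸ Setup.Asc.base S.L.one_mem⟩, fun g _ => ⟨1, rfl, ?_⟩⟩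
      obtain ⟨w, hw, z, hz, he⟩ := s.onto g
      exact ⟨w, [], by simpa using hw, ⟨z, hz, by simpa using he⟩, by rw [he, S.Λ_core (hZ hz)],
        fun p h1 h2 => absurd (List.prefix_nil.1 h2) h1, Nat.zero_le _⟩
    | succ N ih =>
      obtain ⟨A, h1, h2, h3⟩ := ih
      exact climb_step S s hZ hg hbr hper hno h1 h2 h3
  obtain ⟨A, -, -, h⟩ := key (Nat.card s.Q + 1)
  obtain ⟨a, -, w₀, -, -, -, -, -, h⟩ := h 1 (S.Λ_one ▸ S.up_nil)
  have := s.rank_le_card (s.st w₀)
  omega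

end Pool.Agent.MP_6674cc_al

/-! Pairs of climbing suffixes: the finite state space and the recurrence. -/

namespace Pool.Agent.MP_6674cc_al

variable {Γ : Type} [Group Γ] (S : Setup Γ) {Z : Subgroup Γ} (s : Str Γ Z) (M : ℕ)

/-- lists of short segments -/
def Segs (us : List (List s.X)) : Prop := ∀ u ∈ us, S.Seg s.lab u ∧ u.length ≤ M

/-- cut normal form of `g * k` -/
def NF (g k : Γ) (w₀ : List s.X) (us : List (List s.X)) (y : S.I → ℤ) : Prop :=
  w₀ ++ us.flatten ∈ s.M.accepts ∧ (∃ z ∈ Z, ev s.lab w₀ = z * g * S.io y) ∧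
    S.io y * ev s.lab us.flatten = k ∧ Segs S s M us

variable {S s M}

theorem Segs.asc {us : List (List s.X)} (h : Segs S s M us) : S.Asc us.length (ev s.lab us.flatten) :=
  Setup.asc_flatten fun u hu => (h u hu).1

theorem Segs.length_le {us : List (List s.X)} (h : Segs S s M us) : us.flatten.length ≤ us.length * M := by
  induction us with
  | nil => simp
  | cons a us ih =>
    have h1 := (h a List.mem_cons_self).2
    have h2 := ih fun u hu => h u (List.mem_cons_of_mem _ hu)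
    rw [List.flatten_cons, List.length_append, List.length_cons, Nat.succ_mul]
    omega

theorem nf_exists (hZ : Z ≤ S.L.normalCore) {g k : Γ} (h : s.Bd S M g (g * k)) :
    ∃ w₀ us y, NF S s M g k w₀ us y := by
  obtain ⟨w₀, us, h1, ⟨z, hz, h2⟩, h3, h4⟩ := h
  obtain ⟨y, hy⟩ := S.mem_L.1 ((S.Λ_eq (z * g) _).1 ((S.Λ_core (hZ hz) g).trans h3.symm))
  refine ⟨w₀, us, y, h1, ⟨z, hz, by rw [hy]; group⟩, ?_, h4⟩
  rw [hy, mul_assoc, ← ev_append, h2]
  group

theorem NF.ev_eq {g k : Γ} {w₀ : List s.X} {us : List (List s.X)} {y : S.I → ℤ} (h : NF S s M g k w₀ us y) :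
    ∃ z ∈ Z, ev s.lab w₀ = z * g * S.io y ∧ ev s.lab (w₀ ++ us.flatten) = z * (g * k) := by
  obtain ⟨-, ⟨z, hz, h2⟩, h3, -⟩ := h
  refine ⟨z, hz, h2, ?_⟩
  rw [ev_append, h2, ← h3]
  group

theorem nf_unique (hZ : Z ≤ S.L.normalCore) (hg : S.Good s.lab) {g k : Γ} (hup : S.Up (S.Λ g))
    {w₀ w₀' : List s.X} {us us' : List (List s.X)} {y y' : S.I → ℤ} (h : NF S s M g k w₀ us y)
    (h' : NF S s M g k w₀' us' y') : w₀ = w₀' ∧ us = us' ∧ y = y' := by
  obtain ⟨z, hz, h1, h2⟩ := h.ev_eq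
  obtain ⟨z', hz', h1', h2'⟩ := h'.ev_eq
  have h3 : S.Λ (ev s.lab w₀) = S.Λ g := by rw [h1, S.Λ_mul_L _ (S.io_mem _), S.Λ_core (hZ hz)]
  have h3' : S.Λ (ev s.lab w₀') = S.Λ g := by rw [h1', S.Λ_mul_L _ (S.io_mem _), S.Λ_core (hZ hz')]
  have h4 := s.uniq _ h.1 _ h'.1 (z' * z⁻¹) (Z.mul_mem hz' (Z.inv_mem hz)) (by rw [h2, h2']; group)
  obtain ⟨h5, rfl⟩ := hg.seg_unique (h3.symm ▸ hup) (h3.trans h3'.symm) (fun u hu => (h.2.2.2 u hu).1)
    (fun u hu => (h'.2.2.2 u hu).1) h4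
  exact ⟨h5, rfl, S.io_injective (mul_right_cancel (h.2.2.1.trans h'.2.2.1.symm))⟩

theorem NF.length_eq {g k : Γ} {w₀ : List s.X} {us : List (List s.X)} {y : S.I → ℤ} (h : NF S s M g k w₀ us y)
    {j : ℕ} (hk : S.Asc j k) : us.length = j := by
  have h1 := ((Setup.Asc.base (S.io_mem y)).mul h.2.2.2.asc).e_eq
  rw [h.2.2.1, hk.e_eq, Nat.zero_add] at h1
  exact_mod_cast h1.symm

theorem height_ge (hg : S.Good s.lab) (i : ℕ) : ∀ (g : Γ) (us : List (List s.X)) (r : List s.X), S.Up (S.Λ g) →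
    Segs S s M us → r <+: us.flatten → i * M < r.length → (S.Λ g).length + i < (S.Λ (g * ev s.lab r)).length := by
  induction i with
  | zero =>
    intro g us r h1 h2 h3 h4
    exact hg.seg_last h1 (fun u hu => (h2 u hu).1) r (by rintro rfl; simp at h4) h3
  | succ i ih =>
    intro g us r h1 h2 h3 h4
    cases us with
    | nil =>
      obtain rfl := List.prefix_nil.1 h3
      simp at h4
    | cons u us =>
      have h5 := h2 u List.mem_cons_self
      rw [Nat.succ_mul] at h4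
      obtain ⟨r', rfl⟩ : u <+: r := List.prefix_of_prefix_length_le (List.prefix_append _ _) h3 (by omega)
      obtain ⟨h6, b, hb, hb'⟩ := h5.1.1.up h1
      have h7 := ih _ us r' h6 (fun v hv => h2 v (List.mem_cons_of_mem _ hv))
        ((List.prefix_append_right_inj _).1 h3) (by rw [List.length_append] at h4; omega)
      rw [hb', List.length_append] at h7
      rw [ev_append, ← mul_assoc]
      omega

variable (S s M) (u₀ : S.I → ℤ)

/-- pairs of climbing suffixes of length `j` from the state `ξ` -/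
def Pth (j : ℕ) (ξ : s.Q × s.Q × (S.I → ℤ)) : Set (List (List s.X) × List (List s.X)) :=
  {r | r.1.length = j ∧ r.2.length = j ∧ Segs S s M r.1 ∧ Segs S s M r.2 ∧ s.δ ξ.1 r.1.flatten ∈ s.M.accept ∧
    s.δ ξ.2.1 r.2.flatten ∈ s.M.accept ∧
    ev s.lab r.1.flatten * S.io u₀ = S.io ξ.2.2 * ev s.lab r.2.flatten}

/-- one step -/
def Stp (ξ ξ' : s.Q × s.Q × (S.I → ℤ)) : Set (List s.X × List s.X) :=
  {p | (S.Seg s.lab p.1 ∧ p.1.length ≤ M) ∧ (S.Seg s.lab p.2 ∧ p.2.length ≤ M) ∧ s.δ ξ.1 p.1 = ξ'.1 ∧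
    s.δ ξ.2.1 p.2 = ξ'.2.1 ∧ ev s.lab p.1 * S.io ξ'.2.2 = S.io ξ.2.2 * ev s.lab p.2}

/-- the state is realised at the point `g * y` -/
def Rl (g : Γ) (y : S.I → ℤ) (ξ : s.Q × s.Q × (S.I → ℤ)) : Prop :=
  ∃ w₀ w₀', s.st w₀ = ξ.1 ∧ s.st w₀' = ξ.2.1 ∧ (∃ z ∈ Z, ev s.lab w₀ = z * g * S.io y) ∧
    ∃ z ∈ Z, ev s.lab w₀' = z * g * S.io (y + ξ.2.2)

def Live : Set (s.Q × s.Q × (S.I → ℤ)) :=
  {ξ | (∃ g y, S.Up (S.Λ g) ∧ Rl S s g y ξ) ∧ ∃ j, (Pth S s M u₀ j ξ).Nonempty}

theorem finite_segs (j : ℕ) : {us : List (List s.X) | us.length = j ∧ Segs S s M us}.Finite := by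
  have h1 := List.finite_length_le s.X M
  have := h1.to_subtype
  refine ((List.finite_length_eq {u : List s.X | u.length ≤ M} j).image (List.map Subtype.val)).subset ?_
  rintro us ⟨h2, h3⟩
  exact ⟨us.attachWith _ fun u hu => (h3 u hu).2, List.length_attachWith.trans h2, List.unattach_attachWith⟩

theorem finite_pth (j : ℕ) (ξ : s.Q × s.Q × (S.I → ℤ)) : (Pth S s M u₀ j ξ).Finite :=
  ((finite_segs S s M j).prod (finite_segs S s M j)).subset fun _ h => ⟨⟨h.1, h.2.2.1⟩, h.2.1, h.2.2.2.1⟩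

theorem finite_stp (ξ ξ' : s.Q × s.Q × (S.I → ℤ)) : (Stp S s M ξ ξ').Finite :=
  ((List.finite_length_le s.X M).prod (List.finite_length_le s.X M)).subset fun _ h => ⟨h.1.2, h.2.1.2⟩

theorem finite_live (hZ : Z ≤ S.L.normalCore) (hg : S.Good s.lab) : (Live S s M u₀).Finite := by
  obtain ⟨D, hD, hD'⟩ := s.ft (S.io u₀)
  obtain ⟨K, hK⟩ := Setup.exists_tl_of_finite (S := S) hD
  have hW := finite_ev_le s.lab (K * M)
  have hF := ((hW.prod (hD.prod hW)).image fun r => r.1 * r.2.1 * r.2.2⁻¹).preimage S.io_injective.injOn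
  refine ((Set.toFinite (Set.univ : Set s.Q)).prod ((Set.toFinite (Set.univ : Set s.Q)).prod hF)).subset ?_
  rintro ⟨q, q', d⟩ ⟨⟨g, y, hup, w₀, w₀', rfl, rfl, ⟨z, hz, e₁⟩, z', hz', e₂⟩, j, ⟨us, us'⟩, -, -, h1, h2, h3, h4, h5⟩
  refine ⟨trivial, trivial, ?_⟩
  dsimp only at e₂ h1 h2 h3 h4 h5 ⊢
  have hzz : z * z'⁻¹ ∈ Z := Z.mul_mem hz (Z.inv_mem hz')
  have hft := hD' _ (s.append_mem_acc.2 h3) _ (s.append_mem_acc.2 h4) _ hzz (by
    rw [ev_append, ev_append, e₁, e₂, S.io_add, mul_assoc, h5]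
    group)
  have hd : S.io d = (ev s.lab w₀)⁻¹ * (z * z'⁻¹) * ev s.lab w₀' := by
    rw [e₁, e₂, S.io_add]
    group
  have l₁ : S.Λ (ev s.lab w₀) = S.Λ g := by rw [e₁, S.Λ_mul_L _ (S.io_mem _), S.Λ_core (hZ hz)]
  have l₂ : S.Λ (ev s.lab w₀') = S.Λ g := by rw [e₂, S.Λ_mul_L _ (S.io_mem _), S.Λ_core (hZ hz')]
  rcases le_total w₀.length w₀'.length with h | h
  · have h6 := hft w₀'.length
    rw [List.take_left, List.take_append, List.take_of_length_le h, ev_append] at h6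
    refine ⟨(ev s.lab (us.flatten.take (w₀'.length - w₀.length)), _, 1),
      ⟨⟨_, ?_, rfl⟩, h6, [], Nat.zero_le _, rfl⟩, ?_⟩
    · by_contra hc
      have h7 := height_ge hg K _ us _ (l₁.symm ▸ hup) h1 (List.take_prefix _ _) (not_le.1 hc)
      have h8 := (hK _ h6).inv
      rw [mul_assoc, mul_inv_rev, inv_inv] at h8
      have h9 := h8.length_le
      rw [S.Λ_core (hZ hzz), l₂] at h9
      rw [l₁] at h7
      omega
    · rw [hd]
      dsimp only
      group
  · have h6 := hft w₀.length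
    rw [List.take_left, List.take_append, List.take_of_length_le h, ev_append] at h6
    refine ⟨(1, _, ev s.lab (us'.flatten.take (w₀.length - w₀'.length))),
      ⟨⟨[], Nat.zero_le _, rfl⟩, h6, _, ?_, rfl⟩, ?_⟩
    · by_contra hc
      have h7 := height_ge hg K _ us' _ (l₂.symm ▸ hup) h2 (List.take_prefix _ _) (not_le.1 hc)
      have h8 := hK _ h6
      rw [mul_assoc] at h8
      have h9 := h8.length_le
      rw [S.Λ_core (hZ hzz), l₁] at h9
      rw [l₂] at h7
      omega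
    · rw [hd]
      dsimp only
      group

theorem mid_mem {a b a' b' : Γ} {j : ℕ} (ha : S.Asc 1 a) (hb : S.Asc j b) (ha' : S.Asc 1 a') (hb' : S.Asc j b')
    (h : a * b = a' * b') : a⁻¹ * a' ∈ S.L := by
  have h0 : S.Up (S.Λ 1) := S.Λ_one ▸ S.up_nil
  obtain ⟨h1, c, hc, e⟩ := ha.up h0
  obtain ⟨h1', c', hc', e'⟩ := ha'.up h0
  rw [one_mul] at h1 h1' e e'
  obtain ⟨-, d, hd, f⟩ := hb.up h1
  obtain ⟨-, d', hd', f'⟩ := hb'.up h1'
  rw [h, f'] at f
  exact (S.Λ_eq _ _).1 (List.append_inj_right f (hd'.trans hd.symm)).symm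

theorem pth_rec (hZ : Z ≤ S.L.normalCore) (hg : S.Good s.lab) (j : ℕ) {ξ : s.Q × s.Q × (S.I → ℤ)}
    (hξ : ξ ∈ Live S s M u₀) :
    (finite_pth S s M u₀ (j + 1) ξ).toFinset.card = ∑ ξ' ∈ (finite_live S s M u₀ hZ hg).toFinset,
      (finite_stp S s M ξ ξ').toFinset.card * (finite_pth S s M u₀ j ξ').toFinset.card := by
  obtain ⟨⟨g, y, hup, w₀, w₀', e₁, e₂, ⟨z, hz, e₃⟩, z', hz', e₄⟩, -⟩ := hξ
  have hinv := Function.leftInverse_invFun S.io_injective
  have key := sum_fibers (finite_pth S s M u₀ (j + 1) ξ).toFinset (finite_live S s M u₀ hZ hg).toFinset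
    (fun ξ' => (finite_stp S s M ξ ξ').toFinset ×ˢ (finite_pth S s M u₀ j ξ').toFinset)
    (fun r => (s.δ ξ.1 r.1.headI, s.δ ξ.2.1 r.2.headI,
      Function.invFun S.io ((ev s.lab r.1.headI)⁻¹ * (S.io ξ.2.2 * ev s.lab r.2.headI))))
    (fun r => ((r.1.headI, r.2.headI), (r.1.tail, r.2.tail))) ?_ ?_ ?_ fun _ => (1 : ℕ)
  · simpa using key
  · rintro ⟨us, us'⟩ hr
    obtain ⟨h1, h2, h3, h4, h5, h6, h7⟩ := (Set.Finite.mem_toFinset _).1 hr
    obtain ⟨u, us, rfl⟩ := List.exists_cons_of_length_eq_add_one h1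
    obtain ⟨u', us', rfl⟩ := List.exists_cons_of_length_eq_add_one h2
    have k1 := h3 u List.mem_cons_self
    have k2 := h4 u' List.mem_cons_self
    have k3 : Segs S s M us := fun v hv => h3 v (List.mem_cons_of_mem _ hv)
    have k4 : Segs S s M us' := fun v hv => h4 v (List.mem_cons_of_mem _ hv)
    have k5 : us.length = j := by simpa using h1
    have k6 : us'.length = j := by simpa using h2
    simp only [List.flatten_cons, ev_append, s.δ_append] at h5 h6 h7
    obtain ⟨d, hd⟩ := S.mem_L.1 (mid_mem S k1.1.1 ((k5 ▸ k3.asc).mul (Setup.Asc.base (S.io_mem u₀)))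
      ((Setup.Asc.base (S.io_mem ξ.2.2)).mul k2.1.1) (k6 ▸ k4.asc) (by rw [← mul_assoc, h7, mul_assoc]))
    simp only [List.headI_cons, List.tail_cons, Set.Finite.mem_toFinset, Finset.mem_product]
    rw [← hd, hinv]
    have hp : (us, us') ∈ Pth S s M u₀ j (s.δ ξ.1 u, s.δ ξ.2.1 u', d) := by
      refine ⟨k5, k6, k3, k4, h5, h6, ?_⟩
      dsimp only
      rw [hd, mul_assoc, mul_assoc, ← h7]
      group
    refine ⟨⟨⟨g * S.io y * ev s.lab u, 0, (k1.1.1.up (by rwa [S.Λ_mul_L _ (S.io_mem _)])).1, w₀ ++ u, w₀' ++ u',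
      by rw [s.st_append, e₁], by rw [s.st_append, e₂], ⟨z, hz, ?_⟩, z', hz', ?_⟩, j, _, hp⟩,
      ⟨k1, k2, rfl, rfl, ?_⟩, hp⟩
    · rw [ev_append, e₃, S.io_zero]
      group
    · dsimp only
      rw [ev_append, e₄, zero_add, hd, S.io_add]
      group
    · dsimp only
      rw [hd]
      group
  · rintro ⟨us, us'⟩ hr ⟨vs, vs'⟩ hr' - h
    obtain ⟨h1, h2, -⟩ := (Set.Finite.mem_toFinset _).1 hr
    obtain ⟨h3, h4, -⟩ := (Set.Finite.mem_toFinset _).1 hr'
    obtain ⟨u, us, rfl⟩ := List.exists_cons_of_length_eq_add_one h1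
    obtain ⟨u', us', rfl⟩ := List.exists_cons_of_length_eq_add_one h2
    obtain ⟨v, vs, rfl⟩ := List.exists_cons_of_length_eq_add_one h3
    obtain ⟨v', vs', rfl⟩ := List.exists_cons_of_length_eq_add_one h4
    simp only [List.headI_cons, List.tail_cons, Prod.mk.injEq] at h
    obtain ⟨⟨rfl, rfl⟩, rfl, rfl⟩ := h
    rfl
  · rintro ⟨q, q', d⟩ - ⟨⟨u, u'⟩, us, us'⟩ ht
    simp only [Set.Finite.mem_toFinset, Finset.mem_product] at ht
    obtain ⟨⟨k1, k2, k3, k4, k5⟩, h1, h2, h3, h4, h5, h6, h7⟩ := ht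
    dsimp only at k1 k2 k3 k4 k5 h1 h2 h3 h4 h5 h6 h7
    refine ⟨(u :: us, u' :: us'), (Set.Finite.mem_toFinset _).2 ⟨by simp [h1], by simp [h2],
      List.forall_mem_cons.2 ⟨k1, h3⟩, List.forall_mem_cons.2 ⟨k2, h4⟩, ?_, ?_, ?_⟩, ?_, rfl⟩
    · rwa [List.flatten_cons, s.δ_append, k3]
    · rwa [List.flatten_cons, s.δ_append, k4]
    · simp only [List.flatten_cons, ev_append]
      rw [mul_assoc, h7, ← mul_assoc, k5, mul_assoc]
    · simp only [List.headI_cons]
      rw [k3, k4, ← k5, inv_mul_cancel_left, hinv]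

end Pool.Agent.MP_6674cc_al

/-! Counting pairs of climbing suffixes. -/

namespace Pool.Agent.MP_6674cc_al

open Finset

variable {Γ : Type} [Group Γ] (S : Setup Γ) {Z : Subgroup Γ} (s : Str Γ Z)

theorem exists_shift (u₀ : S.I → ℤ) (j : ℕ) :
    ∃ (dl : List.Vector S.Y j → S.I → ℤ) (π : List.Vector S.Y j → List.Vector S.Y j), Function.Injective π ∧
      (∀ l, S.kk l.1 * S.io u₀ = S.io (dl l) * S.kk (π l).1) ∧
      ∑ l, S.vec (dl l) = (Fintype.card S.Y : ℝ) ^ j • (S.R ^ j) (S.vec u₀) := by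
  have h : ∀ l : List.Vector S.Y j, ∃ (d : S.I → ℤ) (l' : List.Vector S.Y j),
      S.kk l.1 * S.io u₀ = S.io d * S.kk l'.1 := by
    intro l
    obtain ⟨x, hx, l', h1, h2⟩ := Setup.kk_mul_L l.1 (S.io_mem u₀)
    obtain ⟨d, rfl⟩ := S.mem_L.1 hx
    exact ⟨d, ⟨l', h1.trans l.2⟩, h2⟩
  choose dl π h using h
  have hinj : Function.Injective π := by
    intro l l' he
    refine Subtype.ext (Setup.kk_inj (S.L.inv_mem (S.io_mem (dl l))) (S.L.inv_mem (S.io_mem (dl l'))) ?_).2
    rw [eq_mul_inv_of_mul_eq (h l), eq_mul_inv_of_mul_eq (h l'), he]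
    group
  refine ⟨dl, π, hinj, h, ?_⟩
  have h1 : ∀ l : List.Vector S.Y j,
      S.τ (S.kk l.1) + (S.R ^ j) (S.vec u₀) = S.vec (dl l) + S.τ (S.kk (π l).1) := by
    intro l
    have h2 := congrArg S.τ (h l)
    rwa [S.τ_mul, S.τ_mul, (Setup.asc_kk l.1).e_eq, l.2, S.e_L (S.io_mem _), zpow_zero, zpow_natCast, S.τ_io,
      S.τ_io] at h2
  have h2 := sum_congr (rfl : (univ : Finset (List.Vector S.Y j)) = univ) fun l _ => h1 l
  rw [sum_add_distrib, sum_add_distrib,
    (Finite.injective_iff_bijective.1 hinj).sum_comp fun l => S.τ (S.kk l.1), add_comm, sum_const, card_univ,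
    card_vector, ← Nat.cast_smul_eq_nsmul ℝ, Nat.cast_pow] at h2
  exact (add_right_cancel h2).symm

theorem approx (hZ : Z ≤ S.L.normalCore) (hg : S.Good s.lab) {M : ℕ}
    (hM : ∀ K : Set Γ, K.Finite → (∀ k ∈ K, ∃ j, S.Asc j k) → ∃ g, S.Up (S.Λ g) ∧ ∀ k ∈ K, s.Bd S M g (g * k))
    (u₀ : S.I → ℤ) (m : ℕ) (ε : ℝ) (hε : 0 < ε) :
    ∃ ν : s.Q × s.Q × (S.I → ℤ) → ℝ, (∀ x, 0 ≤ ν x ∧ ν x ≤ 1) ∧ ∀ j, j ≤ m →
      ∑ x ∈ (finite_live S s M u₀ hZ hg).toFinset, ν x * ((finite_pth S s M u₀ j x).toFinset.card : ℝ) ≤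
        (Fintype.card S.Y : ℝ) ^ j + ε ∧
      ‖∑ x ∈ (finite_live S s M u₀ hZ hg).toFinset, (ν x * ((finite_pth S s M u₀ j x).toFinset.card : ℝ)) •
        S.vec x.2.2 - (Fintype.card S.Y : ℝ) ^ j • (S.R ^ j) (S.vec u₀)‖ ≤ ε := by
  classical
  have hl := (List.finite_length_le S.Y m).image S.kk
  have hC := (((hl.prod hl).image fun r => r.1 * S.io u₀ * r.2⁻¹).union
    ((hl.prod (finite_ev_le s.lab (m * M))).image fun r => r.1 * r.2⁻¹)).preimage S.io_injective.injOn
  obtain ⟨U, Rg, hU, hRg, hfol⟩ := folner_average S.vec S.vec_add hC.toFinset (Fintype.card S.Y ^ m) hε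
  obtain ⟨g, hup, hbd⟩ := hM _ ((Rg.finite_toSet.prod (List.finite_length_le S.Y m)).image
    fun r => S.io r.1 * S.kk r.2) (by
      rintro _ ⟨r, -, rfl⟩
      exact ⟨_, (Setup.Asc.base (S.io_mem _)).mul (Setup.asc_kk _)⟩)
  have hex : ∀ k, ∃ w₀ us y, s.Bd S M g (g * k) → NF S s M g k w₀ us y := by
    intro k
    by_cases h : s.Bd S M g (g * k)
    · obtain ⟨w₀, us, y, h'⟩ := nf_exists hZ h
      exact ⟨w₀, us, y, fun _ => h'⟩
    · exact ⟨[], [], 0, fun h' => absurd h' h⟩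
  choose W₀ Us Yc hnf using hex
  have hUpos : (0 : ℝ) < U.card := by exact_mod_cast hU.card_pos
  refine ⟨fun ξ => ((U.filter fun y => Rl S s g y ξ).card : ℝ) / U.card, fun ξ => ⟨by positivity, ?_⟩,
    fun j hj => ?_⟩
  · rw [div_le_one hUpos]
    exact_mod_cast card_filter_le _ _
  obtain ⟨dl, π, hπ, hsh, hsum⟩ := exists_shift S u₀ j
  let kf : (S.I → ℤ) × List.Vector S.Y j → Γ := fun ω => S.io ω.1 * S.kk ω.2.1
  have hkasc : ∀ ω, S.Asc j (kf ω) := fun ω => by
    simpa only [Nat.zero_add, ω.2.2] using (Setup.Asc.base (S.io_mem ω.1)).mul (Setup.asc_kk ω.2.1)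
  have hk : ∀ ω : (S.I → ℤ) × List.Vector S.Y j, ω.1 ∈ Rg →
      NF S s M g (kf ω) (W₀ (kf ω)) (Us (kf ω)) (Yc (kf ω)) := fun ω h =>
    hnf _ (hbd _ ⟨(ω.1, ω.2.1), ⟨h, ω.2.2.le.trans hj⟩, rfl⟩)
  have hshift : ∀ ω : (S.I → ℤ) × List.Vector S.Y j, kf (ω.1 + dl ω.2, π ω.2) = kf ω * S.io u₀ := fun ω => by
    simp only [kf]
    rw [S.io_add, mul_assoc, mul_assoc, hsh]
  have hC1 : ∀ l, dl l ∈ hC.toFinset := fun l => (Set.Finite.mem_toFinset _).2 (Or.inl
    ⟨(S.kk l.1, S.kk (π l).1), ⟨⟨_, l.2.le.trans hj, rfl⟩, _, (π l).2.le.trans hj, rfl⟩, by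
      dsimp only
      rw [hsh, mul_inv_cancel_right]⟩)
  have hC2 : ∀ (c : S.I → ℤ) (us : List (List s.X)) (l : List.Vector S.Y j), Segs S s M us → us.length = j →
      S.io c * ev s.lab us.flatten = S.kk l.1 → c ∈ hC.toFinset := fun c us l h1 h2 h3 =>
    (Set.Finite.mem_toFinset _).2 (Or.inr ⟨(S.kk l.1, ev s.lab us.flatten), ⟨⟨_, l.2.le.trans hj, rfl⟩, _,
      h1.length_le.trans (Nat.mul_le_mul_right _ (h2 ▸ hj)), rfl⟩, by
        dsimp only
        rw [← h3, mul_inv_cancel_right]⟩)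
  have hG : ∀ ω : (S.I → ℤ) × List.Vector S.Y j, ω.1 ∈ Rg → Yc (kf ω) - ω.1 ∈ hC.toFinset := fun ω h => by
    refine hC2 _ _ ω.2 (hk ω h).2.2.2 ((hk ω h).length_eq (hkasc ω)) ?_
    rw [sub_eq_neg_add, S.io_add, S.io_neg, mul_assoc, (hk ω h).2.2.1, inv_mul_cancel_left]
  let A : Finset ((S.I → ℤ) × List.Vector S.Y j) := (Rg ×ˢ univ).filter fun ω => Yc (kf ω) ∈ U
  have hA : ∀ ω, ω ∈ A ↔ ω.1 ∈ Rg ∧ Yc (kf ω) ∈ U := fun ω => by simp [A]
  obtain ⟨f1, f2⟩ := hfol (List.Vector S.Y j) dl π (fun ω => Yc (kf ω) - ω.1) A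
    (by rw [card_vector]; exact Nat.pow_le_pow_right Setup.card_Y_pos hj) hπ hC1 hG
    (fun ω => by rw [hA, add_sub_cancel])
  have hk' : ∀ ω ∈ A, NF S s M g (kf ω * S.io u₀) (W₀ (kf ω * S.io u₀)) (Us (kf ω * S.io u₀))
      (Yc (kf ω * S.io u₀)) := fun ω h => by
    have h1 := (hRg _ ((hA ω).1 h).2 _ (hG ω ((hA ω).1 h).1) _ (hC1 ω.2)).2
    rw [sub_sub_cancel] at h1
    exact hshift ω ▸ hk (ω.1 + dl ω.2, π ω.2) h1
  have key : ∀ {E : Type} [AddCommMonoid E] (F : s.Q × s.Q × (S.I → ℤ) → E),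
      ∑ ω ∈ A, F (s.st (W₀ (kf ω)), s.st (W₀ (kf ω * S.io u₀)), Yc (kf ω * S.io u₀) - Yc (kf ω)) =
        ∑ ξ ∈ (finite_live S s M u₀ hZ hg).toFinset,
          ((U.filter fun y => Rl S s g y ξ) ×ˢ (finite_pth S s M u₀ j ξ).toFinset).card • F ξ := by
    intro E _ F
    refine sum_fibers A _ _ _ (fun ω => (Yc (kf ω), Us (kf ω), Us (kf ω * S.io u₀))) (fun ω h => ?_)
      (fun ω h ω' h' _ he => ?_) (fun ξ _ t ht => ?_) F
    · have n1 := hk ω ((hA ω).1 h).1
      have n2 := hk' ω h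
      have hr : Rl S s g (Yc (kf ω))
          (s.st (W₀ (kf ω)), s.st (W₀ (kf ω * S.io u₀)), Yc (kf ω * S.io u₀) - Yc (kf ω)) :=
        ⟨_, _, rfl, rfl, n1.2.1, by simpa only [add_sub_cancel] using n2.2.1⟩
      have hp : (Us (kf ω), Us (kf ω * S.io u₀)) ∈ Pth S s M u₀ j
          (s.st (W₀ (kf ω)), s.st (W₀ (kf ω * S.io u₀)), Yc (kf ω * S.io u₀) - Yc (kf ω)) := by
        refine ⟨n1.length_eq (hkasc ω), n2.length_eq ((hkasc ω).mul (Setup.Asc.base (S.io_mem u₀))), n1.2.2.2,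
          n2.2.2.2, s.append_mem_acc.1 n1.1, s.append_mem_acc.1 n2.1, ?_⟩
        dsimp only
        rw [sub_eq_neg_add, S.io_add, S.io_neg, mul_assoc, n2.2.2.1, eq_inv_mul_iff_mul_eq, ← mul_assoc, n1.2.2.1]
      exact ⟨(Set.Finite.mem_toFinset _).2 ⟨⟨g, _, hup, hr⟩, j, _, hp⟩,
        mem_product.2 ⟨mem_filter.2 ⟨((hA ω).1 h).2, hr⟩, (Set.Finite.mem_toFinset _).2 hp⟩⟩
    · simp only [Prod.mk.injEq] at he
      have h1 := (hk ω ((hA ω).1 h).1).2.2.1
      rw [he.1, he.2.1, (hk ω' ((hA ω').1 h').1).2.2.1] at h1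
      obtain ⟨h2, h3⟩ := Setup.kk_inj (S.io_mem _) (S.io_mem _) h1
      exact Prod.ext (S.io_injective h2).symm (Subtype.ext h3).symm
    · obtain ⟨y, us, us'⟩ := t
      obtain ⟨q, q', d⟩ := ξ
      obtain ⟨h1, h2⟩ := mem_product.1 ht
      obtain ⟨h3, w₀, w₀', rfl, rfl, h4, h5⟩ := mem_filter.1 h1
      obtain ⟨p1, p2, p3, p4, p5, p6, p7⟩ := (Set.Finite.mem_toFinset _).1 h2
      dsimp only at h3 h4 h5 p1 p2 p3 p4 p5 p6 p7
      obtain ⟨x, hx, l, hl1, hl2⟩ := p3.asc.exists_kk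
      obtain ⟨c, rfl⟩ := S.mem_L.1 hx
      have hc : -c ∈ hC.toFinset := hC2 _ us ⟨l, hl1.trans p1⟩ p3 p1 (by rw [hl2, S.io_neg, inv_mul_cancel_left])
      have hr := (hRg y h3 _ hc _ hc).1
      rw [sub_neg_eq_add] at hr
      have e1 : S.io y * ev s.lab us.flatten = kf (y + c, ⟨l, hl1.trans p1⟩) := by
        simp only [kf]
        rw [hl2, S.io_add, mul_assoc]
      obtain ⟨a1, a2, a3⟩ := nf_unique hZ hg hup (hk (y + c, ⟨l, hl1.trans p1⟩) hr)
        ⟨s.append_mem_acc.2 p5, h4, e1, p3⟩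
      have hmem : (y + c, ⟨l, hl1.trans p1⟩) ∈ A := (hA _).2 ⟨hr, a3.symm ▸ h3⟩
      obtain ⟨b1, b2, b3⟩ := nf_unique hZ hg hup (hk' _ hmem) (y' := y + d) ⟨s.append_mem_acc.2 p6, h5, by
        rw [← e1, S.io_add, mul_assoc, mul_assoc, p7], p4⟩
      exact ⟨_, hmem, by rw [a1, a3, b1, b3, add_sub_cancel_left], by rw [a2, a3, b2]⟩
  have k1 := key fun _ => (1 : ℝ)
  have k2 := key fun ξ => S.vec ξ.2.2
  simp only [sum_const, nsmul_eq_mul, mul_one, card_product, Nat.cast_mul] at k1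
  have k3 : ∀ ω : (S.I → ℤ) × List.Vector S.Y j, dl ω.2 + (Yc (kf (ω.1 + dl ω.2, π ω.2)) - (ω.1 + dl ω.2)) -
      (Yc (kf ω) - ω.1) = Yc (kf ω * S.io u₀) - Yc (kf ω) := fun ω => by
    rw [hshift]
    abel
  simp only [k3] at f2
  rw [k2, hsum] at f2
  rw [card_vector, Nat.cast_pow, k1] at f1
  constructor
  · simp only [div_mul_eq_mul_div]
    rw [← sum_div, div_le_iff₀ hUpos]
    have := (abs_le.1 f1).2
    linarith
  · have e : ∑ x ∈ (finite_live S s M u₀ hZ hg).toFinset,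
        (((U.filter fun y => Rl S s g y x).card : ℝ) / U.card * ((finite_pth S s M u₀ j x).toFinset.card : ℝ)) •
          S.vec x.2.2 - (Fintype.card S.Y : ℝ) ^ j • (S.R ^ j) (S.vec u₀) =
        (U.card : ℝ)⁻¹ • (∑ ξ ∈ (finite_live S s M u₀ hZ hg).toFinset,
          ((U.filter fun y => Rl S s g y ξ) ×ˢ (finite_pth S s M u₀ j ξ).toFinset).card • S.vec ξ.2.2 -
            (U.card : ℝ) • (Fintype.card S.Y : ℝ) ^ j • (S.R ^ j) (S.vec u₀)) := by
      rw [smul_sub, inv_smul_smul₀ hUpos.ne', smul_sum]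
      congr 1
      refine sum_congr rfl fun x _ => ?_
      rw [card_product, ← Nat.cast_smul_eq_nsmul ℝ, smul_smul, Nat.cast_mul]
      congr 1
      ring
    rw [e, norm_smul, norm_inv, Real.norm_of_nonneg hUpos.le, inv_mul_le_iff₀ hUpos, mul_comm]
    exact f2

theorem periodic_of_climb (hZ : Z ≤ S.L.normalCore) (hg : S.Good s.lab) {M : ℕ}
    (hM : ∀ K : Set Γ, K.Finite → (∀ k ∈ K, ∃ j, S.Asc j k) → ∃ g, S.Up (S.Λ g) ∧ ∀ k ∈ K, s.Bd S M g (g * k))
    (x : S.I → ℤ) : S.Per (S.vec x) := by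
  obtain ⟨P, hP, hP'⟩ := S.exists_period
  refine ⟨P, hP, pf_finset S.R hP' (finite_live S s M x hZ hg).toFinset
    (fun ξ ξ' => (finite_stp S s M ξ ξ').toFinset.card) (fun j ξ => (finite_pth S s M x j ξ).toFinset.card)
    (fun j ξ hξ => pth_rec S s M x hZ hg j ((Set.Finite.mem_toFinset _).1 hξ)) (fun ξ hξ => ?_)
    (fun ξ => S.vec ξ.2.2) _ (a := Fintype.card S.Y) (by exact_mod_cast Setup.card_Y_pos)
    (approx S s hZ hg hM x)⟩
  obtain ⟨-, j, r, hr⟩ := (Set.Finite.mem_toFinset _).1 hξ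
  exact ⟨j, card_pos.2 ⟨r, (Set.Finite.mem_toFinset _).2 hr⟩⟩

end Pool.Agent.MP_6674cc_al

end

-- part MP_6674cc_al.Mult
section

/-! From an automatic structure to unique normal forms with fellow travelling. -/

namespace Pool.Agent.MP_6674cc_al

/-- letter-to-letter images of regular languages are regular (an NFA guesses the preimage; `NFA.toDFA`) -/
theorem regular_map {X Y : Type} {K : Language X} (hK : K.IsRegular) (f : X → Y) :
    Language.IsRegular ({w | ∃ k ∈ K, k.map f = w} : Language Y) := by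
  obtain ⟨σ, _, M, rfl⟩ := hK
  refine regular_of_cong _ (fun w : List Y => {q : σ | ∃ k : List X, k.map f = w ∧ M.eval k = q})
    (Set.toFinite _) ?_ ?_
  · have key : ∀ (a b : List Y) (y : Y),
        {q : σ | ∃ k : List X, k.map f = a ∧ M.eval k = q} = {q : σ | ∃ k : List X, k.map f = b ∧ M.eval k = q} →
        ∀ q, (∃ k : List X, k.map f = a ++ [y] ∧ M.eval k = q) → ∃ k : List X, k.map f = b ++ [y] ∧ M.eval k = q := by
      rintro a b y hab q ⟨k, hk, rfl⟩
      obtain ⟨k₁, k₂, rfl, h1, h2⟩ := List.map_eq_append_iff.mp hk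
      obtain ⟨x, rfl, hx⟩ := List.map_eq_singleton_iff.mp h2
      have h3 : M.eval k₁ ∈ {q : σ | ∃ k : List X, k.map f = a ∧ M.eval k = q} := ⟨k₁, h1, rfl⟩
      rw [hab] at h3
      obtain ⟨k', h4, h5⟩ := h3
      refine ⟨k' ++ [x], ?_, ?_⟩
      · rw [List.map_append, h4, List.map_singleton, hx]
      · rw [DFA.eval_append_singleton, DFA.eval_append_singleton, h5]
    intro a b y hab
    ext q
    exact ⟨key a b y hab q, key b a y hab.symm q⟩
  · rintro a b hab ⟨k, hk, h1⟩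
    have h3 : M.eval k ∈ {q : σ | ∃ k : List X, k.map f = a ∧ M.eval k = q} := ⟨k, h1, rfl⟩
    have hab' : {q : σ | ∃ k : List X, k.map f = a ∧ M.eval k = q}
        = {q : σ | ∃ k : List X, k.map f = b ∧ M.eval k = q} := hab
    rw [hab'] at h3
    obtain ⟨k', h4, h5⟩ := h3
    refine ⟨k', ?_, h4⟩
    rw [DFA.mem_accepts] at hk ⊢
    rw [h5]
    exact hk

theorem conv_length {X : Type} (u v : List X) : (conv u v).length = max u.length v.length := by
  simp [conv]

theorem rega_range {X : Type} (u : List X) (n : ℕ) : (List.range n).filterMap (fun i => u[i]?) = u.take n := by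
  induction n with
  | zero => simp
  | succ n ih =>
    rw [List.range_succ, List.filterMap_append, ih, List.take_add_one]
    congr 1

theorem rega_take {X : Type} (u : List X) (s m : ℕ) (h : u.length ≤ m) : u.take (min s m) = u.take s := by
  rw [List.take_eq_take_iff]
  omega

theorem conv_fst {X : Type} (u v : List X) (s : ℕ) : ((conv u v).take s).filterMap Prod.fst = u.take s := by
  rw [conv, ← List.map_take, List.take_range, List.filterMap_map]
  have h : (Prod.fst ∘ fun i : ℕ => (u[i]?, v[i]?)) = fun i : ℕ => u[i]? := rfl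
  rw [h, rega_range]
  exact rega_take u s _ (le_max_left _ _)

theorem conv_snd {X : Type} (u v : List X) (s : ℕ) : ((conv u v).take s).filterMap Prod.snd = v.take s := by
  rw [conv, ← List.map_take, List.take_range, List.filterMap_map]
  have h : (Prod.snd ∘ fun i : ℕ => (u[i]?, v[i]?)) = fun i : ℕ => v[i]? := rfl
  rw [h, rega_range]
  exact rega_take v s _ (le_max_right _ _)

theorem rega_fst {X : Type} (u v : List X) : (conv u v).filterMap Prod.fst = u := by
  have h := conv_fst u v (max u.length v.length)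
  rwa [List.take_of_length_le (by rw [conv_length]), List.take_of_length_le (le_max_left _ _)] at h

theorem rega_snd {X : Type} (u v : List X) : (conv u v).filterMap Prod.snd = v := by
  have h := conv_snd u v (max u.length v.length)
  rwa [List.take_of_length_le (by rw [conv_length]), List.take_of_length_le (le_max_right _ _)] at h

/-- Fellow travelling from a multiplier automaton: after `s` letters of `conv u v` the state is co-accessible, a word
`c` of bounded length completes it to some `conv u' v'`; projecting with `filterMap`, `u' = u.take s ++ c₁` and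
`v' = v.take s ++ c₂`, so the difference is `ev c₁ * a * (ev c₂)⁻¹`. -/
theorem ft_of_regular {X G : Type} [Group G] [Finite X] (lab : X → G) (L : Language X) (a : G)
    (h : Language.IsRegular ({p | ∃ u ∈ L, ∃ v ∈ L, p = conv u v ∧ ev lab u * a = ev lab v} :
      Language (Option X × Option X))) :
    ∃ D : Set G, D.Finite ∧ ∀ u ∈ L, ∀ v ∈ L, ev lab u * a = ev lab v →
      ∀ s, (ev lab (u.take s))⁻¹ * ev lab (v.take s) ∈ D := by
  classical
  set K : Language (Option X × Option X) :=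
    {p | ∃ u ∈ L, ∃ v ∈ L, p = conv u v ∧ ev lab u * a = ev lab v} with hK
  let pick : Language (Option X × Option X) → List (Option X × Option X) := fun Q =>
    if hQ : ∃ c, c ∈ Q then hQ.choose else []
  let F : Language (Option X × Option X) → G := fun Q =>
    ev lab ((pick Q).filterMap Prod.fst) * a * (ev lab ((pick Q).filterMap Prod.snd))⁻¹
  refine ⟨F '' Set.range K.leftQuotient, h.finite_range_leftQuotient.image F, ?_⟩
  intro u hu v hv huv s
  refine ⟨K.leftQuotient ((conv u v).take s), ⟨_, rfl⟩, ?_⟩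
  have hQ : ∃ c, c ∈ K.leftQuotient ((conv u v).take s) := by
    refine ⟨(conv u v).drop s, ?_⟩
    rw [Language.mem_leftQuotient, List.take_append_drop]
    exact ⟨u, hu, v, hv, rfl, huv⟩
  have hc : pick (K.leftQuotient ((conv u v).take s)) ∈ K.leftQuotient ((conv u v).take s) := by
    simp only [pick, dif_pos hQ]
    exact hQ.choose_spec
  rw [Language.mem_leftQuotient] at hc
  obtain ⟨u', _, v', _, hp, he⟩ := hc
  have h1 := congrArg (List.filterMap Prod.fst) hp
  have h2 := congrArg (List.filterMap Prod.snd) hp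
  rw [List.filterMap_append, conv_fst, rega_fst] at h1
  rw [List.filterMap_append, conv_snd, rega_snd] at h2
  rw [← h1, ← h2, ev_append, ev_append] at he
  simp only [F]
  rw [mul_inv_eq_iff_eq_mul, mul_assoc, eq_inv_mul_iff_mul_eq, ← mul_assoc]
  exact he

end Pool.Agent.MP_6674cc_al

/-! From an automatic structure to unique normal forms with fellow travelling. -/

namespace Pool.Agent.MP_6674cc_al

theorem regb_range_map {X : Type} (u : List X) (m : ℕ) (h : u.length ≤ m) :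
    (List.range m).map (fun i => u[i]?) = u.map some ++ List.replicate (m - u.length) none := by
  apply List.ext_getElem
  · simp only [List.length_map, List.length_range, List.length_append, List.length_replicate]
    omega
  · intro i h1 h2
    simp only [List.getElem_map, List.getElem_range]
    by_cases hi : i < u.length
    · rw [List.getElem_append_left (by simpa using hi)]
      simp [hi]
    · rw [List.getElem_append_right (by simpa using hi)]
      simp only [List.getElem_replicate, List.getElem?_eq_none_iff]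
      omega

theorem regb_conv_fst {X : Type} (u v : List X) :
    (conv u v).map Prod.fst = u.map some ++ List.replicate (max u.length v.length - u.length) none := by
  rw [← regb_range_map u _ (le_max_left _ _), conv, List.map_map]
  rfl

theorem regb_conv_snd {X : Type} (u v : List X) :
    (conv u v).map Prod.snd = v.map some ++ List.replicate (max u.length v.length - v.length) none := by
  rw [← regb_range_map v _ (le_max_right _ _), conv, List.map_map]
  rfl

/-- the number with little-endian digits `d a` in base `B` -/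
def regb_num {A : Type} (d : A → ℕ) (B : ℕ) (l : List A) : ℕ := Nat.ofDigits B (l.map d)

theorem regb_num_nil {A : Type} (d : A → ℕ) (B : ℕ) : regb_num d B [] = 0 := rfl

theorem regb_num_cons {A : Type} (d : A → ℕ) (B : ℕ) (a : A) (l : List A) :
    regb_num d B (a :: l) = d a + B * regb_num d B l := by
  simp [regb_num, Nat.ofDigits_cons]

theorem regb_num_pad {X : Type} (d : Option X → ℕ) (B : ℕ) (h0 : d none = 0) (l : List (Option X)) (k : ℕ) :
    regb_num d B (l ++ List.replicate k none) = regb_num d B l := by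
  simp only [regb_num, List.map_append, List.map_replicate, h0]
  exact Nat.ofDigits_append_replicate_zero _

theorem regb_lt_iff {a b x y B : ℕ} (ha : a < B) (hb : b < B) :
    a + B * x < b + B * y ↔ x < y ∨ (x = y ∧ a < b) := by
  constructor
  · intro h
    rcases lt_trichotomy x y with h1 | h1 | h1
    · exact Or.inl h1
    · subst h1
      exact Or.inr ⟨rfl, by omega⟩
    · have := Nat.mul_le_mul_left B (Nat.succ_le_of_lt h1)
      rw [Nat.mul_succ] at this
      omega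
  · rintro (h | ⟨rfl, h⟩)
    · have := Nat.mul_le_mul_left B (Nat.succ_le_of_lt h)
      rw [Nat.mul_succ] at this
      omega
    · omega

theorem regb_eq_iff {a b x y B : ℕ} (ha : a < B) (hb : b < B) :
    a + B * x = b + B * y ↔ x = y ∧ a = b := by
  constructor
  · intro h
    have h1 := (regb_lt_iff (x := x) (y := y) ha hb).not.1 (by omega)
    have h2 := (regb_lt_iff (x := y) (y := x) hb ha).not.1 (by omega)
    omega
  · rintro ⟨rfl, rfl⟩
    rfl

/-- the automaton that compares the numbers written on the two tapes -/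
def regb_cmp {A : Type} (d : A → ℕ) : DFA (A × A) Bool where
  step s p := if d p.1 < d p.2 then true else if d p.2 < d p.1 then false else s
  start := false
  accept := {true}

theorem regb_cmp_evalFrom {A : Type} (d : A → ℕ) (B : ℕ) (hd : ∀ a, d a < B) (p : List (A × A)) (s : Bool) :
    (regb_cmp d).evalFrom s p = true ↔
      regb_num d B (p.map Prod.fst) < regb_num d B (p.map Prod.snd) ∨
        (regb_num d B (p.map Prod.fst) = regb_num d B (p.map Prod.snd) ∧ s = true) := by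
  induction p generalizing s with
  | nil => simp [regb_num_nil]
  | cons a p ih =>
    rw [DFA.evalFrom_cons, ih, List.map_cons, List.map_cons, regb_num_cons, regb_num_cons,
      regb_lt_iff (hd _) (hd _), regb_eq_iff (hd _) (hd _)]
    have hs : (regb_cmp d).step s a = true ↔ d a.1 < d a.2 ∨ (d a.1 = d a.2 ∧ s = true) := by
      simp only [regb_cmp]
      split_ifs with h1 h2
      · simp [h1]
      · simp only [false_iff]
        omega
      · have h3 : d a.1 = d a.2 := by omega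
        simp [h3]
    rw [hs]
    tauto

theorem regb_cmp_accepts {A : Type} (d : A → ℕ) (B : ℕ) (hd : ∀ a, d a < B) (p : List (A × A)) :
    p ∈ (regb_cmp d).accepts ↔ regb_num d B (p.map Prod.fst) < regb_num d B (p.map Prod.snd) := by
  have h := regb_cmp_evalFrom d B hd p false
  simp only [Bool.false_eq_true, and_false, or_false] at h
  exact h

theorem regb_num_inj {X : Type} (d : X → ℕ) (B : ℕ) (hd : ∀ a, d a < B) (h0 : ∀ a, 0 < d a)
    (hi : Function.Injective d) (u v : List X) (h : regb_num d B u = regb_num d B v) : u = v := by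
  induction u generalizing v with
  | nil =>
    cases v with
    | nil => rfl
    | cons b v =>
      rw [regb_num_nil, regb_num_cons] at h
      have := h0 b
      omega
  | cons a u ih =>
    cases v with
    | nil =>
      rw [regb_num_nil, regb_num_cons] at h
      have := h0 a
      omega
    | cons b v =>
      rw [regb_num_cons, regb_num_cons, regb_eq_iff (hd _) (hd _)] at h
      rw [ih v h.1, hi h.2]

theorem regb_num_lt {X : Type} (d : X → ℕ) (B : ℕ) (hd : ∀ a, d a < B) (h0 : ∀ a, 0 < d a)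
    (u v : List X) (h : u.length < v.length) : regb_num d B u < regb_num d B v := by
  induction u generalizing v with
  | nil =>
    cases v with
    | nil => simp at h
    | cons b v =>
      rw [regb_num_nil, regb_num_cons]
      have := h0 b
      omega
  | cons a u ih =>
    cases v with
    | nil => simp at h
    | cons b v =>
      rw [regb_num_cons, regb_num_cons, regb_lt_iff (hd _) (hd _)]
      exact Or.inl (ih v (by simpa using h))

theorem regb_num_some {X : Type} (d : Option X → ℕ) (B : ℕ) (u : List X) :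
    regb_num d B (u.map some) = regb_num (fun x => d (some x)) B u := by
  simp only [regb_num, List.map_map]
  rfl

theorem regb_regular_comap {X Y : Type} {K : Language Y} (hK : K.IsRegular) (f : X → Y) :
    Language.IsRegular ({w | w.map f ∈ K} : Language X) := by
  obtain ⟨σ, hσ, M, rfl⟩ := hK
  exact ⟨σ, hσ, M.comap f, DFA.accepts_comap M f⟩

theorem regb_pad_eq {X : Type} (v w : List X) (k : ℕ)
    (h : v.map some ++ List.replicate k none = w.map some) : v = w := by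
  have h1 := congrArg (List.filterMap id) h
  simpa [List.filterMap_append, List.filterMap_map] using h1

/-- The ShortLex least representatives (for a linear order on the finite alphabet) form a regular language: the words
`w` having a smaller `v ∈ L` with the same value are the second projections (`regular_map`) of the padded pairs accepted
by the equality recogniser and by a four-state automaton that compares the two tapes. -/
theorem exists_unique_sublanguage {X G : Type} [Group G] [Finite X] (lab : X → G) (L : Language X)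
    (hL : L.IsRegular)
    (h : Language.IsRegular ({p | ∃ u ∈ L, ∃ v ∈ L, p = conv u v ∧ ev lab u * 1 = ev lab v} :
      Language (Option X × Option X))) :
    ∃ L₁ : Language X, L₁.IsRegular ∧ (∀ w ∈ L₁, w ∈ L) ∧ (∀ w ∈ L, ∃ v ∈ L₁, ev lab v = ev lab w) ∧
      ∀ u ∈ L₁, ∀ v ∈ L₁, ev lab u = ev lab v → u = v := by
  classical
  obtain ⟨n, ⟨e⟩⟩ := Finite.exists_equiv_fin X
  let d : Option X → ℕ := fun o => o.elim 0 fun x => (e x : ℕ) + 1
  have hd0 : d none = 0 := rfl
  have hds : ∀ x, d (some x) = (e x : ℕ) + 1 := fun _ => rfl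
  have hd : ∀ o, d o < n + 1 := by
    rintro (_ | x)
    · rw [hd0]
      omega
    · rw [hds]
      have := (e x).2
      omega
  let N : List X → ℕ := regb_num (fun x => d (some x)) (n + 1)
  have hN1 : ∀ u v : List X, regb_num d (n + 1) ((conv u v).map Prod.fst) = N u := fun u v => by
    rw [regb_conv_fst, regb_num_pad d _ hd0, regb_num_some]
  have hN2 : ∀ u v : List X, regb_num d (n + 1) ((conv u v).map Prod.snd) = N v := fun u v => by
    rw [regb_conv_snd, regb_num_pad d _ hd0, regb_num_some]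
  have hpos : ∀ x, 0 < d (some x) := fun x => by
    rw [hds]
    omega
  have hinj : ∀ u v, N u = N v → u = v := by
    refine regb_num_inj _ _ (fun x => hd _) hpos ?_
    intro x y hxy
    simp only [hds] at hxy
    exact e.injective (Fin.ext (by omega))
  have hlen : ∀ u v, N u < N v → u.length ≤ v.length := by
    intro u v huv
    by_contra hc
    have := regb_num_lt (fun x => d (some x)) (n + 1) (fun x => hd _) hpos v u (by omega)
    exact lt_asymm huv this
  have hC : Language.IsRegular (regb_cmp d).accepts := ⟨Bool, inferInstance, regb_cmp d, rfl⟩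
  have hB := regb_regular_comap (regular_map (h.inf hC) Prod.snd) (some : X → Option X)
  have hchar : ∀ w : List X, (∃ k ∈ (({p | ∃ u ∈ L, ∃ v ∈ L, p = conv u v ∧ ev lab u * 1 = ev lab v} :
      Language (Option X × Option X)) ⊓ (regb_cmp d).accepts), k.map Prod.snd = w.map some) ↔
      w ∈ L ∧ ∃ u ∈ L, ev lab u = ev lab w ∧ N u < N w := by
    intro w
    constructor
    · rintro ⟨k, ⟨⟨u, hu, v, hv, rfl, huv⟩, hk⟩, hw⟩
      have hk' := (regb_cmp_accepts d (n + 1) hd _).1 hk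
      rw [hN1, hN2] at hk'
      rw [regb_conv_snd] at hw
      obtain rfl := regb_pad_eq _ _ _ hw
      exact ⟨hv, u, hu, by simpa using huv, hk'⟩
    · rintro ⟨hw, u, hu, huw, hlt⟩
      refine ⟨conv u w, ⟨⟨u, hu, w, hw, rfl, by simpa using huw⟩, ?_⟩, ?_⟩
      · refine (regb_cmp_accepts d (n + 1) hd _).2 ?_
        rw [hN1, hN2]
        exact hlt
      · rw [regb_conv_snd, max_eq_right (hlen _ _ hlt)]
        simp
  refine ⟨_, hL.inf hB.compl, fun w hw => hw.1, ?_, ?_⟩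
  · intro w hw
    have hex : ∃ m, ∃ v ∈ L, ev lab v = ev lab w ∧ N v = m := ⟨_, w, hw, rfl, rfl⟩
    obtain ⟨v, hv, hvw, hm⟩ := Nat.find_spec hex
    refine ⟨v, ⟨hv, fun hb => ?_⟩, hvw⟩
    obtain ⟨-, u, hu, huv, hlt⟩ := (hchar v).1 hb
    exact Nat.find_min hex (hm ▸ hlt) ⟨u, hu, huv.trans hvw, rfl⟩
  · intro u hu v hv huv
    rcases lt_trichotomy (N u) (N v) with h1 | h1 | h1
    · exact absurd ((hchar v).2 ⟨hv.1, u, hu.1, huv, h1⟩) hv.2
    · exact hinj _ _ h1
    · exact absurd ((hchar u).2 ⟨hu.1, v, hv.1, huv.symm, h1⟩) hu.2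

end Pool.Agent.MP_6674cc_al

/-! From an automatic structure to unique normal forms with fellow travelling. -/

namespace Pool.Agent.MP_6674cc_al

theorem reg_ft {X G : Type} [Group G] (lab : X → G) (L : Language X) (A : Set G)
    (hA : Subgroup.closure A = ⊤) (honto : ∀ g, ∃ w ∈ L, ev lab w = g)
    (h : ∀ a : G, a = 1 ∨ a ∈ A → ∃ D : Set G, D.Finite ∧ ∀ u ∈ L, ∀ v ∈ L, ev lab u * a = ev lab v →
      ∀ s, (ev lab (u.take s))⁻¹ * ev lab (v.take s) ∈ D) (a : G) :
    ∃ D : Set G, D.Finite ∧ ∀ u ∈ L, ∀ v ∈ L, ev lab u * a = ev lab v →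
      ∀ s, (ev lab (u.take s))⁻¹ * ev lab (v.take s) ∈ D := by
  have ha : a ∈ Subgroup.closure A := hA ▸ Subgroup.mem_top a
  induction ha using Subgroup.closure_induction with
  | mem x hx => exact h x (Or.inr hx)
  | one => exact h 1 (Or.inl rfl)
  | mul x y _ _ hx hy =>
    obtain ⟨D, hD, hx⟩ := hx
    obtain ⟨E, hE, hy⟩ := hy
    refine ⟨Set.image2 (· * ·) D E, hD.image2 _ hE, fun u hu v hv e s => ?_⟩
    obtain ⟨w, hw, hw'⟩ := honto (ev lab u * x)
    refine ⟨_, hx u hu w hw hw'.symm s, _, hy w hw v hv (by rw [hw', mul_assoc, e]) s, ?_⟩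
    simp only [mul_assoc, mul_inv_cancel_left]
  | inv x _ hx =>
    obtain ⟨D, hD, hx⟩ := hx
    refine ⟨(fun g => g⁻¹) '' D, hD.image _, fun u hu v hv e s => ?_⟩
    refine ⟨_, hx v hv u hu (by rw [← e, inv_mul_cancel_right]) s, ?_⟩
    simp only [mul_inv_rev, inv_inv]

/-- Every `a` is the value of a word; chain the generator steps through normal forms. -/
theorem str_of_automatic {G : Type} [Group G] (h : IsAutomatic G) : Nonempty (Str G ⊥) := by
  obtain ⟨A, L, -, hA, hL, honto, hm⟩ := h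
  obtain ⟨L₁, ⟨σ, _, M, rfl⟩, h1, h2, h3⟩ :=
    exists_unique_sublanguage (Subtype.val : A → G) L hL (hm 1 (Or.inl rfl))
  refine ⟨{ X := A, Q := σ, M := M, lab := Subtype.val, uniq := ?_, onto := ?_, ft := ?_ }⟩
  · intro u hu v hv z hz e
    rw [Subgroup.mem_bot.1 hz, one_mul] at e
    exact h3 u hu v hv e.symm
  · intro g
    obtain ⟨w, hw, e⟩ := honto g
    obtain ⟨v, hv, e'⟩ := h2 w hw
    exact ⟨v, hv, 1, one_mem _, by rw [one_mul, e', ← e]; rfl⟩
  · intro a
    obtain ⟨D, hD, h⟩ := reg_ft (Subtype.val : A → G) L A hA honto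
      (fun a ha => ft_of_regular _ L a (hm a ha)) a
    refine ⟨D, hD, fun u hu v hv z hz e s => ?_⟩
    rw [Subgroup.mem_bot.1 hz, one_mul] at e
    rw [Subgroup.mem_bot.1 hz, mul_one]
    exact h u (h1 u hu) v (h1 v hv) e s

theorem fg_of_automatic {G : Type} [Group G] (h : IsAutomatic G) : Group.FG G := by
  obtain ⟨A, -, -, hA, -⟩ := h
  exact ⟨A, hA⟩

end Pool.Agent.MP_6674cc_al

/-! From fellow travelling to multiplier automata; subdivision of letters. -/

namespace Pool.Agent.MP_6674cc_al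

theorem multa_conv_cons_cons {X : Type} (a b : X) (u v : List X) :
    conv (a :: u) (b :: v) = (some a, some b) :: conv u v := by
  simp only [conv, List.length_cons, Nat.succ_max_succ, List.range_succ_eq_map, List.map_cons, List.map_map]
  rfl

theorem multa_conv_cons_nil {X : Type} (a : X) (u : List X) :
    conv (a :: u) [] = (some a, none) :: conv u [] := by
  simp only [conv, List.length_cons, List.length_nil, Nat.max_zero, List.range_succ_eq_map, List.map_cons,
    List.map_map]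
  rfl

theorem multa_conv_nil_cons {X : Type} (b : X) (v : List X) :
    conv [] (b :: v) = (none, some b) :: conv [] v := by
  simp only [conv, List.length_cons, List.length_nil, Nat.zero_max, List.range_succ_eq_map, List.map_cons,
    List.map_map]
  rfl

/-- well padded words -/
def multa_WP {X : Type} (p : List (Option X × Option X)) : Prop :=
  (∀ x ∈ p, x ≠ (none, none)) ∧
    p.Pairwise fun x y => (x.1 = none → y.1 = none) ∧ (x.2 = none → y.2 = none)

theorem multa_wp_conv {X : Type} (u v : List X) : multa_WP (conv u v) := by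
  constructor
  · intro x hx h
    simp only [conv, List.mem_map, List.mem_range] at hx
    obtain ⟨i, hi, rfl⟩ := hx
    simp only [Prod.mk.injEq, List.getElem?_eq_none_iff] at h
    omega
  · unfold conv
    rw [List.pairwise_map]
    refine List.pairwise_lt_range.imp ?_
    intro i j hij
    simp only [List.getElem?_eq_none_iff]
    omega

theorem multa_conv_of_wp {X : Type} (p : List (Option X × Option X)) (h : multa_WP p) :
    p = conv (p.filterMap Prod.fst) (p.filterMap Prod.snd) := by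
  induction p with
  | nil => rfl
  | cons x p ih =>
    obtain ⟨h1, h2⟩ := h
    rw [List.pairwise_cons] at h2
    have ih' := ih ⟨fun y hy => h1 y (List.mem_cons_of_mem _ hy), h2.2⟩
    obtain ⟨x1, x2⟩ := x
    cases x1 with
    | none =>
      cases x2 with
      | none => exact absurd rfl (h1 _ List.mem_cons_self)
      | some b =>
        have h3 : p.filterMap Prod.fst = [] := by
          rw [List.filterMap_eq_nil_iff]
          intro y hy
          exact (h2.1 y hy).1 rfl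
        rw [h3] at ih'
        simp only [List.filterMap_cons, h3, multa_conv_nil_cons]
        rw [← ih']
    | some a =>
      cases x2 with
      | none =>
        have h3 : p.filterMap Prod.snd = [] := by
          rw [List.filterMap_eq_nil_iff]
          intro y hy
          exact (h2.1 y hy).2 rfl
        rw [h3] at ih'
        simp only [List.filterMap_cons, h3, multa_conv_cons_nil]
        rw [← ih']
      | some b =>
        simp only [List.filterMap_cons, multa_conv_cons_cons]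
        rw [← ih']

theorem multa_fst {X : Type} (u v : List X) : (conv u v).filterMap Prod.fst = u := by
  have h := conv_fst u v (max u.length v.length)
  rwa [List.take_of_length_le (conv_length u v).le, List.take_of_length_le (le_max_left _ _)] at h

theorem multa_snd {X : Type} (u v : List X) : (conv u v).filterMap Prod.snd = v := by
  have h := conv_snd u v (max u.length v.length)
  rwa [List.take_of_length_le (conv_length u v).le, List.take_of_length_le (le_max_right _ _)] at h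

theorem multa_wp_append {X : Type} (p q : List (Option X × Option X)) :
    multa_WP (p ++ q) ↔ multa_WP p ∧ multa_WP q ∧ ((∃ x ∈ p, x.1 = none) → ∀ y ∈ q, y.1 = none) ∧
      ((∃ x ∈ p, x.2 = none) → ∀ y ∈ q, y.2 = none) := by
  unfold multa_WP
  rw [List.pairwise_append]
  constructor
  · rintro ⟨h1, h2, h3, h4⟩
    refine ⟨⟨fun x hx => h1 x (List.mem_append_left _ hx), h2⟩,
      ⟨fun x hx => h1 x (List.mem_append_right _ hx), h3⟩, ?_, ?_⟩
    · rintro ⟨x, hx, hx'⟩ y hy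
      exact (h4 x hx y hy).1 hx'
    · rintro ⟨x, hx, hx'⟩ y hy
      exact (h4 x hx y hy).2 hx'
  · rintro ⟨⟨h1, h2⟩, ⟨h3, h4⟩, h5, h6⟩
    refine ⟨?_, h2, h4, ?_⟩
    · intro x hx
      rcases List.mem_append.1 hx with hx | hx
      · exact h1 x hx
      · exact h3 x hx
    · intro x hx y hy
      exact ⟨fun h => h5 ⟨x, hx, h⟩ y hy, fun h => h6 ⟨x, hx, h⟩ y hy⟩

theorem multa_mem_iff {X G : Type} [Group G] (lab : X → G) (L : Language X) (a : G)
    (p : List (Option X × Option X)) :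
    (∃ u ∈ L, ∃ v ∈ L, p = conv u v ∧ ev lab u * a = ev lab v) ↔
      multa_WP p ∧ p.filterMap Prod.fst ∈ L ∧ p.filterMap Prod.snd ∈ L ∧
        ev lab (p.filterMap Prod.fst) * a = ev lab (p.filterMap Prod.snd) := by
  constructor
  · rintro ⟨u, hu, v, hv, rfl, h⟩
    rw [multa_fst, multa_snd]
    exact ⟨multa_wp_conv u v, hu, hv, h⟩
  · rintro ⟨h1, h2, h3, h4⟩
    exact ⟨_, h2, _, h3, multa_conv_of_wp p h1, h4⟩

/-- The word-difference automaton.  With `D` the finite set of differences, a padded word `p` lies in the language iff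
it is well padded (no `(none, none)`, no letter after a padding symbol on either tape), both projections lie in `L`,
the differences of all its initial segments lie in `D` and the last one is `a`.  Use `regular_of_cong` with the left
quotients of `L` by the two projections, the two padding flags, and the difference (or `none` once it has left `D`). -/
theorem regular_of_ft {X G : Type} [Group G] [Finite X] (lab : X → G) (L : Language X) (hL : L.IsRegular) (a : G)
    (D : Set G) (hD : D.Finite) (h : ∀ u ∈ L, ∀ v ∈ L, ev lab u * a = ev lab v →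
      ∀ s, (ev lab (u.take s))⁻¹ * ev lab (v.take s) ∈ D) :
    Language.IsRegular ({p | ∃ u ∈ L, ∃ v ∈ L, p = conv u v ∧ ev lab u * a = ev lab v} :
      Language (Option X × Option X)) := by
  have hfin := hL.finite_range_leftQuotient
  let Φ : (Prop × Prop × Prop) × Language X × Language X × G → Language (Option X × Option X) := fun c =>
    {q | (c.1.1 ∧ multa_WP q ∧ (c.1.2.1 → ∀ y ∈ q, y.1 = none) ∧ (c.1.2.2 → ∀ y ∈ q, y.2 = none)) ∧
      q.filterMap Prod.fst ∈ c.2.1 ∧ q.filterMap Prod.snd ∈ c.2.2.1 ∧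
      ev lab (q.filterMap Prod.fst) * a = c.2.2.2 * ev lab (q.filterMap Prod.snd)}
  refine Language.IsRegular.of_finite_range_leftQuotient ?_
  have hT : ((Set.univ : Set (Prop × Prop × Prop)) ×ˢ (Set.range L.leftQuotient ×ˢ
      (Set.range L.leftQuotient ×ˢ D))).Finite := Set.finite_univ.prod (hfin.prod (hfin.prod hD))
  refine ((hT.image Φ).insert 0).subset ?_
  rintro _ ⟨p, rfl⟩
  by_cases hd : (ev lab (p.filterMap Prod.fst))⁻¹ * ev lab (p.filterMap Prod.snd) ∈ D
  · refine Or.inr ⟨((multa_WP p, ∃ x ∈ p, x.1 = none, ∃ x ∈ p, x.2 = none),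
      L.leftQuotient (p.filterMap Prod.fst), L.leftQuotient (p.filterMap Prod.snd),
      (ev lab (p.filterMap Prod.fst))⁻¹ * ev lab (p.filterMap Prod.snd)),
      ⟨Set.mem_univ _, ⟨_, rfl⟩, ⟨_, rfl⟩, hd⟩, ?_⟩
    ext q
    refine Iff.trans ?_ (multa_mem_iff lab L a (p ++ q)).symm
    rw [multa_wp_append, List.filterMap_append, List.filterMap_append, ev_append, ev_append]
    refine and_congr Iff.rfl (and_congr Iff.rfl (and_congr Iff.rfl ?_))
    show _ = _ * _ * _ ↔ _
    rw [mul_assoc, mul_assoc, eq_inv_mul_iff_mul_eq]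
  · left
    ext q
    refine ⟨?_, fun hq => absurd hq (Language.notMem_zero q)⟩
    rintro ⟨u, hu, v, hv, hp, huv⟩
    have h1 := conv_fst u v p.length
    have h2 := conv_snd u v p.length
    rw [← hp, List.take_left] at h1 h2
    exact absurd (h1 ▸ h2 ▸ h u hu v hv huv p.length) hd

/-- Take for `A` the labels and their inverses and for the language the letter-to-letter image (`regular_map`). -/
theorem automatic_of_wstr {H : Type} [Group H] (s : WStr H ⊥) : IsAutomatic H := by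
  have hA : (Set.range s.lab ∪ Set.range fun x => (s.lab x)⁻¹).Finite :=
    (Set.finite_range _).union (Set.finite_range _)
  let f : s.X → hA.toFinset := fun x => ⟨s.lab x, hA.mem_toFinset.2 (Or.inl ⟨x, rfl⟩)⟩
  have hev : ∀ w : List s.X, ev (Subtype.val : hA.toFinset → H) (w.map f) = ev s.lab w := by
    intro w
    simp only [ev, List.map_map]
    rfl
  have honto : ∀ g : H, ∃ w ∈ s.L, ev s.lab w = g := by
    intro g
    obtain ⟨w, hw, z, hz, h⟩ := s.onto g
    rw [Subgroup.mem_bot.1 hz, one_mul] at h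
    exact ⟨w, hw, h⟩
  refine ⟨hA.toFinset, {w | ∃ k ∈ s.L, k.map f = w}, ?_, ?_, regular_map s.reg f, ?_, ?_⟩
  · intro a ha
    rw [Set.Finite.mem_toFinset] at ha ⊢
    rcases ha with ⟨x, rfl⟩ | ⟨x, rfl⟩
    · exact Or.inr ⟨x, rfl⟩
    · exact Or.inl ⟨x, (inv_inv _).symm⟩
  · rw [eq_top_iff]
    intro g _
    obtain ⟨w, -, rfl⟩ := honto g
    refine Subgroup.list_prod_mem _ ?_
    intro y hy
    obtain ⟨x, -, rfl⟩ := List.mem_map.1 hy
    exact Subgroup.subset_closure (f x).2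
  · intro g
    obtain ⟨w, hw, rfl⟩ := honto g
    exact ⟨w.map f, ⟨w, hw, rfl⟩, hev w⟩
  · intro a _
    obtain ⟨D, hD, C, hC⟩ := s.ft a
    refine regular_of_ft (Subtype.val : hA.toFinset → H) _ (regular_map s.reg f) a D hD ?_
    rintro _ ⟨u, hu, rfl⟩ _ ⟨v, hv, rfl⟩ huv n
    rw [hev, hev] at huv
    rw [← List.map_take, ← List.map_take, hev, hev]
    have h1 := (hC u hu v hv 1 (Subgroup.one_mem _) (by rw [one_mul]; exact huv)).2 n
    rwa [mul_one] at h1

end Pool.Agent.MP_6674cc_al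

/-! From fellow travelling to multiplier automata; subdivision of letters. -/

namespace Pool.Agent.MP_6674cc_al

/-- the subdivision of a word -/
def multSub {X : Type} (n : ℕ) (v : List X) : List (X × Fin (n + 1)) :=
  v.flatMap fun x => (List.finRange (n + 1)).map fun i => (x, i)

/-- a block without its first letter -/
def multTl {X : Type} (n : ℕ) (x : X) : List (X × Fin (n + 1)) :=
  (List.finRange n).map fun i => (x, i.succ)

theorem mult_cons {X : Type} (n : ℕ) (x : X) (v : List X) :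
    multSub n (x :: v) = (x, 0) :: (multTl n x ++ multSub n v) := by
  simp [multSub, multTl, List.finRange_succ, Function.comp_def]

/-- the words `r` followed by a subdivided word accepted from `q` -/
def multF {X σ : Type} (M : DFA X σ) (n : ℕ) (p : σ × List (X × Fin (n + 1))) :
    Language (X × Fin (n + 1)) :=
  {u | ∃ v, M.evalFrom p.1 v ∈ M.accept ∧ u = p.2 ++ multSub n v}

theorem mult_quot {X σ : Type} (M : DFA X σ) (n : ℕ) (q : σ) (r : List (X × Fin (n + 1)))
    (hr : r.length ≤ n) (a : X × Fin (n + 1)) :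
    (multF M n (q, r)).leftQuotient [a] = 0 ∨
      ∃ q' r', r'.length ≤ n ∧ (multF M n (q, r)).leftQuotient [a] = multF M n (q', r') := by
  by_cases h : (multF M n (q, r)).leftQuotient [a] = 0
  · exact Or.inl h
  right
  obtain ⟨u0, v0, -, e0⟩ : ∃ u, u ∈ (multF M n (q, r)).leftQuotient [a] := by
    by_contra hn
    exact h (Set.eq_empty_iff_forall_notMem.2 fun u hu => hn ⟨u, hu⟩)
  cases r with
  | cons b r =>
    obtain rfl : a = b := (List.cons.inj e0).1
    refine ⟨q, r, by simp at hr; omega, ?_⟩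
    ext u
    exact exists_congr fun v => and_congr_right fun _ =>
      ⟨fun e => (List.cons.inj e).2, fun e => congrArg (List.cons a) e⟩
  | nil =>
    cases v0 with
    | nil => exact absurd e0 (List.cons_ne_nil _ _)
    | cons x v0 =>
      rw [mult_cons] at e0
      obtain rfl : a = (x, 0) := (List.cons.inj e0).1
      refine ⟨M.step q x, multTl n x, by simp [multTl], ?_⟩
      ext u
      constructor
      · rintro ⟨v, hv, e⟩
        cases v with
        | nil => exact absurd e (List.cons_ne_nil _ _)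
        | cons y v =>
          rw [mult_cons] at e
          obtain rfl : x = y := congrArg Prod.fst (List.cons.inj e).1
          exact ⟨v, hv, (List.cons.inj e).2⟩
      · rintro ⟨v, hv, e⟩
        refine ⟨x :: v, hv, ?_⟩
        rw [mult_cons]
        exact congrArg (List.cons (x, 0)) e

/-- The image of a regular language under the substitution `x ↦ [(x, 0), ..., (x, n)]` is regular. -/
theorem regular_subdivide {X : Type} [Finite X] {L : Language X} (hL : L.IsRegular) (n : ℕ) :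
    Language.IsRegular ({w | ∃ v ∈ L, w = v.flatMap fun x => (List.finRange (n + 1)).map fun i => (x, i)} :
      Language (X × Fin (n + 1))) := by
  obtain ⟨σ, _, M, rfl⟩ := hL
  change Language.IsRegular (multF M n (M.start, []))
  refine Language.IsRegular.of_finite_range_leftQuotient ?_
  refine ((((Set.finite_univ (α := σ)).prod (List.finite_length_le (X × Fin (n + 1)) n)).image
    (multF M n)).insert 0).subset ?_
  rintro _ ⟨w, rfl⟩
  induction w using List.reverseRecOn with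
  | nil => exact Or.inr ⟨(M.start, []), ⟨trivial, Nat.zero_le n⟩, rfl⟩
  | append_singleton w a ih =>
    rw [Language.leftQuotient_append]
    rcases ih with h | ⟨⟨q, r⟩, ⟨-, hr⟩, h⟩
    · rw [h]
      exact Or.inl rfl
    · rw [← h]
      rcases mult_quot M n q r hr a with h' | ⟨q', r', hr', h'⟩
      · exact Or.inl h'
      · exact Or.inr ⟨(q', r'), ⟨trivial, hr'⟩, h'.symm⟩

theorem mult_prod {Γ : Type} [Group Γ] (m : ℕ) (l : List Γ) (h : l.length ≤ m) :
    ((List.finRange m).map fun i => l.getD i.val 1).prod = l.prod := by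
  induction m generalizing l with
  | zero =>
    obtain rfl := List.length_eq_zero_iff.1 (Nat.le_zero.1 h)
    rfl
  | succ m ih =>
    rw [List.finRange_succ, List.map_cons, List.map_map, List.prod_cons]
    cases l with
    | nil => simp [Function.comp_def]
    | cons a l =>
      rw [List.prod_cons, ← ih l (by simpa using h)]
      rfl

theorem mult_take {X : Type} (n : ℕ) (v : List X) (s : ℕ) :
    ∃ r, r.length ≤ n ∧ (multSub n v).take s = multSub n (v.take (s / (n + 1))) ++ r := by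
  induction v generalizing s with
  | nil => exact ⟨[], Nat.zero_le n, by simp [multSub]⟩
  | cons x v ih =>
    rcases Nat.lt_or_ge s (n + 1) with h | h
    · refine ⟨(multSub n (x :: v)).take s, (List.length_take_le _ _).trans (by omega), ?_⟩
      rw [Nat.div_eq_of_lt h]
      rfl
    · obtain ⟨t, rfl⟩ := Nat.exists_eq_add_of_le' h
      obtain ⟨r, hr, e⟩ := ih t
      refine ⟨r, hr, ?_⟩
      have hl : (multTl n x).length = n := by simp [multTl]
      rw [Nat.add_div_right _ (Nat.succ_pos n), List.take_succ_cons, mult_cons, mult_cons,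
        ← Nat.add_assoc, List.take_succ_cons, List.take_append, hl, Nat.add_sub_cancel, e,
        List.take_of_length_le (by omega), List.cons_append, List.append_assoc]

/-- Write every label as a product of `n + 1` elements of `P` (pad with `1`) and subdivide.  An initial segment of
length `s` of a subdivided word is the subdivision of the initial segment of length `s / (n + 1)` followed by at most
`n` letters. -/
theorem str_subdivide {Γ : Type} [Group Γ] (P : Γ → Prop) (h1 : P 1)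
    (hP : ∀ g, ∃ l : List Γ, (∀ a ∈ l, P a) ∧ l.prod = g) (s : Str Γ ⊥) : ∃ s' : Str Γ ⊥, ∀ x, P (s'.lab x) := by
  choose l hl hl' using fun x => hP (s.lab x)
  obtain ⟨n, hn⟩ := (Set.finite_range fun x => (l x).length).bddAbove
  let lab : s.X × Fin (n + 1) → Γ := fun p => (l p.1).getD p.2.val 1
  have hev : ∀ v, ev lab (multSub n v) = ev s.lab v := by
    intro v
    induction v with
    | nil => rfl
    | cons x v ih =>
      rw [multSub, List.flatMap_cons, ev_append, ev_cons, ← ih, ← hl' x,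
        ← mult_prod (n + 1) (l x) ((hn ⟨x, rfl⟩).trans (Nat.le_succ n)), ev, List.map_map]
      rfl
  have := Fintype.ofFinite s.Q
  obtain ⟨σ, _, M, hM⟩ := regular_subdivide (L := s.M.accepts) ⟨s.Q, this, s.M, rfl⟩ n
  have hm : ∀ w, w ∈ M.accepts ↔ ∃ v ∈ s.M.accepts, w = multSub n v := fun w => by
    rw [hM]
    rfl
  refine ⟨{ X := s.X × Fin (n + 1), Q := σ, M := M, lab := lab, uniq := ?_, onto := ?_, ft := ?_ },
    fun p => ?_⟩
  · intro u0 hu0 v0 hv0 z hz e
    obtain ⟨u, hu, rfl⟩ := (hm u0).1 hu0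
    obtain ⟨v, hv, rfl⟩ := (hm v0).1 hv0
    rw [hev, hev] at e
    rw [s.uniq u hu v hv z hz e]
  · intro g
    obtain ⟨w, hw, z, hz, e⟩ := s.onto g
    exact ⟨multSub n w, (hm _).2 ⟨w, hw, rfl⟩, z, hz, (hev w).trans e⟩
  · intro a
    obtain ⟨D, hD, h⟩ := s.ft a
    have hE := finite_ev_le lab n
    refine ⟨_, ((hE.prod hD).prod hE).image fun p => p.1.1⁻¹ * p.1.2 * p.2, ?_⟩
    intro u0 hu0 v0 hv0 z hz e t
    obtain ⟨u, hu, rfl⟩ := (hm u0).1 hu0
    obtain ⟨v, hv, rfl⟩ := (hm v0).1 hv0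
    rw [hev, hev] at e
    obtain ⟨r, hr, e1⟩ := mult_take n u t
    obtain ⟨r', hr', e2⟩ := mult_take n v t
    refine ⟨((ev lab r, _), ev lab r'), ⟨⟨⟨r, hr, rfl⟩, h u hu v hv z hz e (t / (n + 1))⟩,
      ⟨r', hr', rfl⟩⟩, ?_⟩
    rw [e1, e2, ev_append, ev_append, hev, hev]
    simp only [mul_inv_rev, mul_assoc]
  · change P ((l p.1).getD p.2.val 1)
    rcases Nat.lt_or_ge p.2.val (l p.1).length with h | h
    · rw [List.getD_eq_getElem _ _ h]
      exact hl _ _ (List.getElem_mem h)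
    · rw [List.getD_eq_default _ _ h]
      exact h1

end Pool.Agent.MP_6674cc_al

end

-- part MP_6674cc_al.Build
section

/-! Finitely generated subgroups are automatic when the holonomy is finite. -/

namespace Pool.Agent.MP_6674cc_al

theorem builda_mem_sup {H : Type} [Group H] {Z : Subgroup H} {η : H} (hc : ∀ z ∈ Z, z * η = η * z) {x : H}
    (hx : x ∈ Z ⊔ Subgroup.zpowers η) : ∃ z ∈ Z, ∃ i : ℤ, x = z * η ^ i := by
  have hcm : ∀ z ∈ Z, ∀ i : ℤ, η ^ i * z = z * η ^ i := fun z hz i =>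
    ((show Commute z η from hc z hz).zpow_right i).symm
  let K : Subgroup H :=
    { carrier := {x | ∃ z ∈ Z, ∃ i : ℤ, x = z * η ^ i}
      one_mem' := ⟨1, Z.one_mem, 0, by simp⟩
      mul_mem' := by
        rintro _ _ ⟨z, hz, i, rfl⟩ ⟨z', hz', j, rfl⟩
        refine ⟨z * z', Z.mul_mem hz hz', i + j, ?_⟩
        rw [zpow_add, mul_assoc, ← mul_assoc (η ^ i), hcm z' hz' i]
        group
      inv_mem' := by
        rintro _ ⟨z, hz, i, rfl⟩
        refine ⟨z⁻¹, Z.inv_mem hz, -i, ?_⟩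
        rw [← hcm _ (Z.inv_mem hz)]
        group }
  have h : Z ⊔ Subgroup.zpowers η ≤ K := by
    refine sup_le (fun z hz => ⟨z, hz, 0, by simp⟩) ?_
    rintro _ ⟨i, rfl⟩
    exact ⟨1, Z.one_mem, i, by simp⟩
  exact h hx

/-- labels of the extended alphabet -/
def builda_lab {X H : Type} [Group H] (lab : X → H) (F : Set H) : X ⊕ (F × Bool) → H
  | .inl x => lab x
  | .inr (c, b) => if b then c.1 else c.1⁻¹

/-- sign attached to a boolean -/
def builda_sg (b : Bool) : ℤ := if b then 1 else -1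

theorem builda_ev_map {X H : Type} [Group H] (lab : X → H) (F : Set H) (w : List X) :
    ev (builda_lab lab F) (w.map Sum.inl) = ev lab w := by
  induction w with
  | nil => rfl
  | cons x w ih => rw [List.map_cons, ev_cons, ev_cons, ih]; rfl

theorem builda_ev_rep {X H : Type} [Group H] (lab : X → H) (F : Set H) (c : F) (b : Bool) (k : ℕ) :
    ev (builda_lab lab F) (List.replicate k (Sum.inr (c, b))) = c.1 ^ (builda_sg b * k) := by
  induction k with
  | zero => simp
  | succ k ih =>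
    rw [List.replicate_succ, ev_cons, ih]
    cases b
    · simp only [builda_lab, builda_sg, Bool.false_eq_true, if_false]
      push_cast
      group
    · simp only [builda_lab, builda_sg, if_true]
      push_cast
      group

theorem builda_ev_take {X H : Type} [Group H] (lab : X → H) (F : Set H) {η : H} (w : List X) (c : F) (b : Bool)
    (hcw : c.1 = (ev lab w)⁻¹ * η * ev lab w) (k n : ℕ) :
    ev (builda_lab lab F) ((w.map Sum.inl ++ List.replicate k (Sum.inr (c, b))).take n)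
      = η ^ (builda_sg b * (min (n - w.length) k : ℕ)) * ev lab (w.take n) := by
  rw [List.take_append, List.take_replicate, ← List.map_take, ev_append, builda_ev_map, builda_ev_rep,
    List.length_map]
  rcases le_total n w.length with h | h
  · rw [Nat.sub_eq_zero_of_le h]
    simp
  · rw [List.take_of_length_le h, hcw]
    have := conj_zpow (a := (ev lab w)⁻¹) (b := η) (i := builda_sg b * (min (n - w.length) k : ℕ))
    rw [inv_inv] at this
    rw [this]
    group

theorem builda_regular {X H : Type} [Group H] (lab : X → H) (η : H) (L : Language X) (hL : L.IsRegular)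
    (F : Set H) (hF : F.Finite) (hF' : ∀ g, g⁻¹ * η * g ∈ F) :
    Language.IsRegular ({w' | ∃ w ∈ L, ∃ (k : ℕ) (cb : F × Bool), cb.1.1 = (ev lab w)⁻¹ * η * ev lab w ∧
      w' = w.map Sum.inl ++ List.replicate k (Sum.inr cb)} : Language (X ⊕ (F × Bool))) := by
  have : Finite F := hF.to_subtype
  let κ : List (X ⊕ (F × Bool)) → Set (Language X × H) × Set (F × Bool) := fun a =>
    ({m | ∃ w : List X, a = w.map Sum.inl ∧ m = (L.leftQuotient w, (ev lab w)⁻¹ * η * ev lab w)},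
      {cb | ∃ w ∈ L, ∃ k : ℕ, cb.1.1 = (ev lab w)⁻¹ * η * ev lab w ∧
        a = w.map Sum.inl ++ List.replicate k (Sum.inr cb)})
  have hl : ∀ (a : List (X ⊕ (F × Bool))) (y : X) (w' : List X), a ++ [Sum.inl y] = w'.map Sum.inl ↔
      ∃ w : List X, a = w.map Sum.inl ∧ w' = w ++ [y] := by
    intro a y w'
    constructor
    · intro h
      obtain ⟨w, v, h1, h2, h3⟩ := List.map_eq_append_iff.mp h.symm
      obtain ⟨y', h4, h5⟩ := List.map_eq_singleton_iff.mp h3
      obtain rfl : y' = y := Sum.inl_injective h5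
      exact ⟨w, h2.symm, by rw [h1, h4]⟩
    · rintro ⟨w, rfl, rfl⟩
      simp
  have hr : ∀ (a : List (X ⊕ (F × Bool))) (cb : F × Bool) (w' : List X),
      a ++ [Sum.inr cb] ≠ w'.map Sum.inl := by
    intro a cb w' h
    have h1 : Sum.inr cb ∈ w'.map (Sum.inl : X → X ⊕ (F × Bool)) := by
      rw [← h]
      simp
    simp at h1
  have s1 : ∀ a y, κ (a ++ [Sum.inl y]) =
      ({m | ∃ m' ∈ (κ a).1, m = (m'.1.leftQuotient [y], (lab y)⁻¹ * m'.2 * lab y)},
        {cb | ∃ m' ∈ (κ a).1, [y] ∈ m'.1 ∧ cb.1.1 = (lab y)⁻¹ * m'.2 * lab y}) := by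
    intro a y
    have e1 : ∀ w : List X, (ev lab (w ++ [y]))⁻¹ * η * ev lab (w ++ [y])
        = (lab y)⁻¹ * ((ev lab w)⁻¹ * η * ev lab w) * lab y := by
      intro w
      rw [ev_append, ev_single]
      group
    refine Prod.ext (Set.ext fun m => ⟨?_, ?_⟩) (Set.ext fun cb => ⟨?_, ?_⟩)
    · rintro ⟨w', h1, rfl⟩
      obtain ⟨w, h2, rfl⟩ := (hl a y w').mp h1
      exact ⟨_, ⟨w, h2, rfl⟩, by rw [e1, Language.leftQuotient_append]⟩
    · rintro ⟨_, ⟨w, h2, rfl⟩, rfl⟩
      exact ⟨w ++ [y], (hl a y _).mpr ⟨w, h2, rfl⟩, by rw [e1, Language.leftQuotient_append]⟩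
    · rintro ⟨w', hw', k, h1, h2⟩
      cases k with
      | zero =>
        rw [List.replicate_zero, List.append_nil] at h2
        obtain ⟨w, h3, rfl⟩ := (hl a y w').mp h2
        exact ⟨_, ⟨w, h3, rfl⟩, hw', by rw [h1, e1]⟩
      | succ k =>
        rw [List.replicate_succ', ← List.append_assoc] at h2
        have h3 := (List.append_inj' h2 rfl).2
        simp at h3
    · rintro ⟨_, ⟨w, h2, rfl⟩, h3, h4⟩
      refine ⟨w ++ [y], h3, 0, by rw [h4, e1], ?_⟩
      rw [List.replicate_zero, List.append_nil]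
      exact (hl a y _).mpr ⟨w, h2, rfl⟩
  have s2 : ∀ a cb, κ (a ++ [Sum.inr cb]) = (∅, {cb' | cb' = cb ∧ cb ∈ (κ a).2}) := by
    intro a cb
    refine Prod.ext (Set.ext fun m => ⟨?_, fun h => h.elim⟩) (Set.ext fun cb' => ⟨?_, ?_⟩)
    · rintro ⟨w', h1, -⟩
      exact (hr a cb w' h1).elim
    · rintro ⟨w', hw', k, h1, h2⟩
      cases k with
      | zero =>
        rw [List.replicate_zero, List.append_nil] at h2
        exact (hr a cb w' h2).elim
      | succ k =>
        rw [List.replicate_succ', ← List.append_assoc] at h2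
        obtain ⟨h3, h4⟩ := List.append_inj' h2 rfl
        obtain rfl : cb = cb' := by simpa using h4
        exact ⟨rfl, w', hw', k, h1, h3⟩
    · rintro ⟨rfl, w', hw', k, h1, h2⟩
      exact ⟨w', hw', k + 1, h1, by rw [List.replicate_succ', ← List.append_assoc, ← h2]⟩
  refine regular_of_cong _ κ ?_ ?_ ?_
  · have h1 : (Set.range L.leftQuotient ×ˢ F).Finite := hL.finite_range_leftQuotient.prod hF
    refine (h1.finite_subsets.prod (Set.finite_univ (α := Set (F × Bool)))).subset ?_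
    rintro _ ⟨a, rfl⟩
    refine ⟨?_, Set.mem_univ _⟩
    rintro _ ⟨w, -, rfl⟩
    exact ⟨⟨w, rfl⟩, hF' _⟩
  · intro a b x h
    cases x with
    | inl y => rw [s1, s1, h]
    | inr cb => rw [s2, s2, h]
  · rintro a b h ⟨w, hw, k, cb, h1, h2⟩
    have h3 : cb ∈ (κ b).2 := by
      rw [← h]
      exact ⟨w, hw, k, h1, h2⟩
    obtain ⟨w', hw', k', h4, h5⟩ := h3
    exact ⟨w', hw', k', cb, h4, h5⟩

theorem builda_bound {H : Type} [Group H] {Z : Subgroup H} {η : H} (hind : ∀ i : ℤ, η ^ i ∈ Z → i = 0)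
    {D : Set H} (hD : D.Finite) : ∃ B : ℕ, ∀ z ∈ Z, ∀ m : ℤ, z * η ^ m ∈ D → |m| ≤ B := by
  have h1 : ∀ d, {m : ℤ | ∃ z ∈ Z, z * η ^ m = d}.Finite := by
    intro d
    apply Set.Subsingleton.finite
    rintro m ⟨z, hz, h⟩ m' ⟨z', hz', h'⟩
    have h2 : η ^ (m - m') = z⁻¹ * z' := by
      calc η ^ (m - m') = z⁻¹ * (z * η ^ m) * η ^ (-m') := by group
        _ = _ := by rw [h, ← h']; group
    have := hind (m - m') (h2 ▸ Z.mul_mem (Z.inv_mem hz) hz')
    omega
  obtain ⟨B, hB⟩ := ((hD.biUnion fun d _ => h1 d).image Int.natAbs).bddAbove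
  refine ⟨B, fun z hz m hm => ?_⟩
  have := hB ⟨m, Set.mem_biUnion hm ⟨z, hz, rfl⟩, rfl⟩
  rw [Int.abs_eq_natAbs]
  exact_mod_cast this

/-- Appending a block of conjugates of `η`.  New alphabet: `s.X ⊕ (F × Bool)` with `F` the finite conjugacy class of
`η`; new language: `w ++ replicate k (c, b)` with `w ∈ s.L` and `c = (ev w)⁻¹ * η * ev w`, the letter `(c, b)` standing
for `c` or `c⁻¹`; its value is `η ^ (± k) * ev w`.  Regularity: `regular_of_cong` (the conjugate `c` of an initial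
segment is updated letter by letter) .  Fellow travelling: if `η ^ i * ev u * a = z * η ^ j * ev v` then
`z * η ^ (j - i)` lies in the finite set `D` of `s.ft a` (time `0`), so `j - i` is bounded by `hind`; the lengths of
`u` and `v` differ boundedly (`s.ft a`, `s.ft a⁻¹`); at time `s` the two points are `η ^ i' * ev (u.take s)` and
`η ^ j' * ev (v.take s)` with `i' - j'` bounded. -/
theorem wstr_step {H : Type} [Group H] {Z : Subgroup H} {η : H} (hc : ∀ z ∈ Z, z * η = η * z)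
    (hfin : {γ | ∃ g, γ = g⁻¹ * η * g}.Finite) (hind : ∀ i : ℤ, η ^ i ∈ Z → i = 0)
    (s : WStr H (Z ⊔ Subgroup.zpowers η)) : Nonempty (WStr H Z) := by
  set F : Set H := {γ | ∃ g, γ = g⁻¹ * η * g} with hF
  have hF' : ∀ g, g⁻¹ * η * g ∈ F := fun g => ⟨g, rfl⟩
  have : Finite F := hfin.to_subtype
  have hcm : ∀ z ∈ Z, ∀ i : ℤ, η ^ i * z = z * η ^ i := fun z hz i =>
    ((show Commute z η from hc z hz).zpow_right i).symm
  have hfull : ∀ (w : List s.X) (c : F) (b : Bool), c.1 = (ev s.lab w)⁻¹ * η * ev s.lab w → ∀ k : ℕ,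
      ev (builda_lab s.lab F) (w.map Sum.inl ++ List.replicate k (Sum.inr (c, b)))
        = η ^ (builda_sg b * k) * ev s.lab w := by
    intro w c b h k
    have h1 := builda_ev_take s.lab F w c b h k (w.length + k)
    rwa [List.take_of_length_le (by simp), List.take_of_length_le (by simp), Nat.add_sub_cancel_left,
      min_self] at h1
  refine ⟨{ X := s.X ⊕ (F × Bool), L := _, reg := builda_regular s.lab η s.L s.reg F hfin hF',
            lab := builda_lab s.lab F, onto := ?_, ft := ?_ }⟩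
  · intro g
    obtain ⟨w, hw, z', hz', h⟩ := s.onto g
    obtain ⟨z, hz, i, rfl⟩ := builda_mem_sup hc hz'
    refine ⟨_, ⟨w, hw, i.natAbs, (⟨_, hF' (ev s.lab w)⟩, decide (i ≤ 0)), rfl, rfl⟩, z, hz, ?_⟩
    have h1 : builda_sg (decide (i ≤ 0)) * (i.natAbs : ℤ) = -i := by
      unfold builda_sg
      by_cases hi : i ≤ 0
      · simp only [hi, decide_true, if_true]
        omega
      · simp only [hi, decide_false, Bool.false_eq_true, if_false]
        omega
    rw [hfull w _ _ rfl, h1, h, ← hcm z hz i]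
    group
  · intro a
    obtain ⟨D, hD, C, h1⟩ := s.ft a
    obtain ⟨D₂, -, C', h2⟩ := s.ft a⁻¹
    obtain ⟨B, hB⟩ := builda_bound hind hD
    refine ⟨(fun x : H × ℤ × H => x.1 ^ x.2.1 * x.2.2) ''
      (F ×ˢ Set.Icc (-(2 * B + C + C' : ℤ)) (2 * B + C + C') ×ˢ D),
      (hfin.prod ((Set.finite_Icc _ _).prod hD)).image _, C + B, ?_⟩
    rintro _ ⟨u, hu, k, ⟨c, b⟩, hcu, rfl⟩ _ ⟨v, hv, k', ⟨c', b'⟩, hcv, rfl⟩ z hz he
    rw [hfull u c b hcu, hfull v c' b' hcv] at he
    set i : ℤ := builda_sg b * k with hi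
    set j : ℤ := builda_sg b' * k' with hj
    have hz' : z * η ^ (j - i) ∈ Z ⊔ Subgroup.zpowers η :=
      Subgroup.mul_mem _ (Subgroup.mem_sup_left hz) (Subgroup.mem_sup_right ⟨j - i, rfl⟩)
    have he' : ev s.lab u * a = z * η ^ (j - i) * ev s.lab v := by
      calc ev s.lab u * a = η ^ (-i) * (η ^ i * ev s.lab u * a) := by group
        _ = η ^ (-i) * z * η ^ j * ev s.lab v := by rw [he]; group
        _ = _ := by rw [hcm z hz]; group
    obtain ⟨h3, h4⟩ := h1 u hu v hv _ hz' he'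
    have h5 := (h2 v hv u hu _ (Subgroup.inv_mem _ hz') (by
      rw [eq_inv_mul_iff_mul_eq, ← mul_assoc, ← he']
      group)).1
    have h6 : |j - i| ≤ B := hB z hz _ (by simpa using h4 0)
    rw [abs_le] at h6
    constructor
    · simp only [List.length_append, List.length_map, List.length_replicate]
      cases b <;> cases b' <;> simp only [builda_sg, Bool.false_eq_true, if_false, if_true] at hi hj <;>
        omega
    · intro n
      rw [builda_ev_take s.lab F u c b hcu, builda_ev_take s.lab F v c' b' hcv]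
      set i' : ℤ := builda_sg b * (min (n - u.length) k : ℕ) with hi'
      set j' : ℤ := builda_sg b' * (min (n - v.length) k' : ℕ) with hj'
      refine ⟨(_, j' - i' - (j - i), _), ⟨hF' (ev s.lab (u.take n)), ?_, h4 n⟩, ?_⟩
      · simp only [Set.mem_Icc]
        cases b <;> cases b' <;>
          simp only [builda_sg, Bool.false_eq_true, if_false, if_true] at hi hj hi' hj' <;> omega
      · have e1 := conj_zpow (a := (ev s.lab (u.take n))⁻¹) (b := η) (i := j' - i' - (j - i))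
        rw [inv_inv] at e1
        simp only
        rw [e1]
        calc _ = (ev s.lab (u.take n))⁻¹ * η ^ (-i') * (η ^ (j' - (j - i)) * z) * η ^ (j - i) *
              ev s.lab (v.take n) := by group
          _ = _ := by rw [hcm z hz]; group

end Pool.Agent.MP_6674cc_al

/-! Finitely generated subgroups are automatic when the holonomy is finite. -/

namespace Pool.Agent.MP_6674cc_al

theorem buildb_aux {H I : Type} [Group H] (c : I → H → ℤ) (s : Finset I) : ∀ N : Subgroup H,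
    (∀ i, ∀ x ∈ N, ∀ y ∈ N, c i (x * y) = c i x + c i y) → (∀ x ∈ N, (∀ i ∈ s, c i x = 0) → x = 1) →
    (∀ x ∈ N, ∀ y ∈ N, x * y = y * x) → (∀ η ∈ N, {γ | ∃ g, γ = g⁻¹ * η * g}.Finite) → WStr H N →
    Nonempty (WStr H ⊥) := by
  classical
  induction s using Finset.induction_on with
  | empty =>
    intro N _ h1 _ _ w
    have hN : N = ⊥ := by
      rw [Subgroup.eq_bot_iff_forall]
      exact fun x hx => h1 x hx (by simp)
    exact ⟨hN ▸ w⟩
  | insert i s _ ih =>
    intro N hc h1 hcomm hfin w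
    have c1 : c i 1 = 0 := by
      have := hc i 1 N.one_mem 1 N.one_mem
      rw [mul_one] at this
      omega
    have cinv : ∀ x ∈ N, c i x⁻¹ = -c i x := by
      intro x hx
      have := hc i x hx x⁻¹ (N.inv_mem hx)
      rw [mul_inv_cancel, c1] at this
      omega
    have cz : ∀ x ∈ N, ∀ k : ℤ, c i (x ^ k) = k * c i x := by
      intro x hx k
      induction k using Int.induction_on with
      | zero => simp [c1]
      | succ k ihk =>
        rw [zpow_add_one, hc i _ (N.zpow_mem hx _) _ hx, ihk]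
        ring
      | pred k ihk =>
        rw [zpow_sub_one, hc i _ (N.zpow_mem hx _) _ (N.inv_mem hx), ihk, cinv x hx]
        ring
    let Z : Subgroup H :=
      { carrier := {x | x ∈ N ∧ c i x = 0}
        mul_mem' := fun {x y} hx hy => ⟨N.mul_mem hx.1 hy.1, by rw [hc i x hx.1 y hy.1, hx.2, hy.2]; rfl⟩
        one_mem' := ⟨N.one_mem, c1⟩
        inv_mem' := fun {x} hx => ⟨N.inv_mem hx.1, by rw [cinv x hx.1, hx.2]; rfl⟩ }
    have hZ : ∀ x, x ∈ Z ↔ x ∈ N ∧ c i x = 0 := fun _ => Iff.rfl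
    let A : AddSubgroup ℤ :=
      { carrier := {k | ∃ x ∈ N, c i x = k}
        add_mem' := by
          rintro _ _ ⟨x, hx, rfl⟩ ⟨y, hy, rfl⟩
          exact ⟨x * y, N.mul_mem hx hy, hc i x hx y hy⟩
        zero_mem' := ⟨1, N.one_mem, c1⟩
        neg_mem' := by
          rintro _ ⟨x, hx, rfl⟩
          exact ⟨x⁻¹, N.inv_mem hx, cinv x hx⟩ }
    obtain ⟨a, ha⟩ := Int.subgroup_cyclic A
    have haA : a ∈ A := by
      rw [ha]
      exact AddSubgroup.subset_closure rfl
    obtain ⟨η, hη, hηa⟩ := haA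
    have hdiv : ∀ x ∈ N, ∃ k : ℤ, c i x = k * a := by
      intro x hx
      have : c i x ∈ A := ⟨x, hx, rfl⟩
      rw [ha, AddSubgroup.mem_closure_singleton] at this
      obtain ⟨k, hk⟩ := this
      exact ⟨k, by rw [← hk]; simp⟩
    have key : Nonempty (WStr H Z) := by
      by_cases h0 : a = 0
      · have : N = Z := by
          ext x
          refine ⟨fun hx => ⟨hx, ?_⟩, fun hx => hx.1⟩
          obtain ⟨k, hk⟩ := hdiv x hx
          rw [hk, h0, mul_zero]
        exact ⟨this ▸ w⟩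
      · have hN : N = Z ⊔ Subgroup.zpowers η := by
          refine le_antisymm (fun x hx => ?_) (sup_le (fun x hx => hx.1) ?_)
          · obtain ⟨k, hk⟩ := hdiv x hx
            have h2 : x * η ^ (-k) ∈ Z := by
              refine ⟨N.mul_mem hx (N.zpow_mem hη _), ?_⟩
              rw [hc i x hx _ (N.zpow_mem hη _), cz η hη, hk, hηa]
              ring
            have h3 : x = x * η ^ (-k) * η ^ k := by
              rw [mul_assoc, ← zpow_add]
              simp
            rw [h3]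
            exact Subgroup.mul_mem_sup h2 (Subgroup.zpow_mem_zpowers η k)
          · rw [Subgroup.zpowers_le]
            exact hη
        refine wstr_step (η := η) (fun z hz => hcomm z hz.1 η hη) (hfin η hη) (fun k hk => ?_) (hN ▸ w)
        have := hk.2
        rw [cz η hη, hηa] at this
        exact (mul_eq_zero.mp this).resolve_right h0
    obtain ⟨w'⟩ := key
    refine ih Z (fun j x hx y hy => hc j x hx.1 y hy.1) (fun x hx h => h1 x hx.1 fun j hj => ?_)
      (fun x hx y hy => hcomm x hx.1 y hy.1) (fun x hx => hfin x hx.1) w'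
    rcases Finset.mem_insert.mp hj with rfl | hj
    · exact hx.2
    · exact h j hj

/-- `N` is isomorphic to a subgroup of `I → ℤ`, hence free of finite rank; remove one basis element at a time. -/
theorem wstr_bot {H I : Type} [Group H] [Fintype I] {N : Subgroup H} (f : N →* Multiplicative (I → ℤ))
    (hf : Function.Injective f) (hfin : ∀ η ∈ N, {γ | ∃ g, γ = g⁻¹ * η * g}.Finite) (s : WStr H N) :
    Nonempty (WStr H ⊥) := by
  classical
  refine buildb_aux (fun i x => if h : x ∈ N then (f ⟨x, h⟩).toAdd i else 0) Finset.univ N ?_ ?_ ?_ hfin s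
  · intro i x hx y hy
    simp only [dif_pos hx, dif_pos hy, dif_pos (N.mul_mem hx hy)]
    have : (⟨x * y, N.mul_mem hx hy⟩ : N) = ⟨x, hx⟩ * ⟨y, hy⟩ := rfl
    rw [this, map_mul, toAdd_mul, Pi.add_apply]
  · intro x hx h
    have h2 : f ⟨x, hx⟩ = f 1 := by
      rw [map_one]
      apply Multiplicative.toAdd.injective
      funext i
      have := h i (Finset.mem_univ i)
      simp only [dif_pos hx] at this
      simpa using this
    exact congrArg Subtype.val (hf h2)
  · intro x hx y hy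
    have h2 : f (⟨x, hx⟩ * ⟨y, hy⟩) = f (⟨y, hy⟩ * ⟨x, hx⟩) := by
      rw [map_mul, map_mul, mul_comm]
    exact congrArg Subtype.val (hf h2)

/-- if all lattice vectors are periodic, the normal core has finite index in the lattice -/
theorem core_finite_index {Γ : Type} [Group Γ] (S : Setup Γ) (h : ∀ x, S.Per (S.vec x)) :
    ∃ F : Set Γ, F.Finite ∧ ∀ x ∈ S.L, ∃ z ∈ S.L.normalCore, ∃ r ∈ F, x = z * r := by
  have h1 : ∀ i : S.I, ∃ D : ℕ, 0 < D ∧ S.io (Pi.single i 1) ^ D ∈ S.L.normalCore := fun i =>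
    S.core _ (S.io_mem _) (by rw [S.τ_io]; exact h _)
  choose D hD0 hD using h1
  have h2 : ∀ q : S.I → ℤ, S.io (fun i => (D i : ℤ) * q i) ∈ S.L.normalCore := by
    intro q
    have hm : ∀ v : S.I → ℤ, S.io v ∈ S.L.normalCore ↔ v ∈ (S.L.normalCore.comap S.ι).toAddSubgroup' :=
      fun _ => Iff.rfl
    rw [hm, ← Finset.univ_sum_single (fun i => (D i : ℤ) * q i)]
    refine AddSubgroup.sum_mem _ fun i _ => ?_
    have h3 : (Pi.single i ((D i : ℤ) * q i) : S.I → ℤ) = q i • (D i • (Pi.single i 1 : S.I → ℤ)) := by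
      funext j
      by_cases hj : j = i
      · subst hj
        simp [mul_comm]
      · simp [hj]
    rw [h3]
    refine AddSubgroup.zsmul_mem _ ?_ _
    rw [← hm]
    have h4 : S.io (D i • (Pi.single i 1 : S.I → ℤ)) = S.io (Pi.single i 1) ^ D i := by
      unfold Setup.io
      rw [ofAdd_nsmul, map_pow]
    rw [h4]
    exact hD i
  refine ⟨S.io '' Set.pi Set.univ fun i => Set.Ico (0 : ℤ) (D i),
    (Set.Finite.pi fun i => Set.finite_Ico _ _).image _, fun x hx => ?_⟩
  obtain ⟨v, rfl⟩ := S.mem_L.mp hx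
  refine ⟨_, h2 fun i => v i / D i, S.io fun i => v i % D i, ⟨_, fun i _ => ?_, rfl⟩, ?_⟩
  · have h5 : (0 : ℤ) < D i := by exact_mod_cast hD0 i
    exact ⟨Int.emod_nonneg _ h5.ne', Int.emod_lt_of_pos _ h5⟩
  · rw [← S.io_add]
    congr 1
    funext i
    exact (Int.mul_ediv_add_emod _ _).symm

/-- the elements with `TL K` are finite modulo the core -/
theorem tl_finite_mod_core {Γ : Type} [Group Γ] (S : Setup Γ) (h : ∀ x, S.Per (S.vec x)) (K : ℕ) :
    ∃ F : Set Γ, F.Finite ∧ ∀ g, S.TL K g → ∃ z ∈ S.L.normalCore, ∃ r ∈ F, g = z * r := by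
  obtain ⟨F₀, hF₀, h0⟩ := core_finite_index S h
  induction K with
  | zero =>
    refine ⟨F₀, hF₀, fun g hg => ?_⟩
    cases hg with
    | base hx => exact h0 _ hx
  | succ K ih =>
    obtain ⟨F, hF, h1⟩ := ih
    refine ⟨F ∪ Set.image2 (· * ·) (Set.image2 (· * ·) F {S.t, S.t⁻¹}) F₀,
      hF.union ((hF.image2 _ (Set.toFinite _)).image2 _ hF₀), fun g hg => ?_⟩
    cases hg with
    | mono hg =>
      obtain ⟨z, hz, r, hr, e⟩ := h1 _ hg
      exact ⟨z, hz, r, Or.inl hr, e⟩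
    | @step _ g a x hg ha hx =>
      obtain ⟨z, hz, r, hr, rfl⟩ := h1 _ hg
      obtain ⟨z', hz', r', hr', rfl⟩ := h0 _ hx
      refine ⟨z * (r * a * z' * (r * a)⁻¹),
        Subgroup.mul_mem _ hz (Subgroup.Normal.conj_mem inferInstance z' hz' (r * a)), r * a * r',
        Or.inr ⟨r * a, ⟨r, hr, a, ha, rfl⟩, r', hr', rfl⟩, ?_⟩
      group

end Pool.Agent.MP_6674cc_al

/-! Finitely generated subgroups are automatic when the holonomy is finite. -/

namespace Pool.Agent.MP_6674cc_al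

section

variable {Γ H : Type} [Group Γ] [Group H] (S : Setup Γ) (i : H →* Γ) {Y R : Type} (σ : Y → H) (ρ : Y → Γ)
  (r : R → H)

/-- words that follow a geodesic from the root, with the last two vertices seen from the value of the word -/
inductive BuildcRun : List (Y ⊕ R) → Γ → Γ → Prop
  | nil : BuildcRun [] 1 1
  | snoc {w : List (Y ⊕ R)} {A B : Γ} (y : Y) : BuildcRun w A B → S.TL 1 (A⁻¹ * ρ y) → A⁻¹ * ρ y ∉ S.L →
      B⁻¹ * ρ y ∉ S.L → BuildcRun (w ++ [Sum.inl y]) ((i (σ y))⁻¹ * ρ y) ((i (σ y))⁻¹ * A)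

/-- the language of normal forms -/
def buildcL : Language (Y ⊕ R) :=
  {w | ∃ w₀ A B x, w = w₀ ++ [Sum.inr x] ∧ BuildcRun S i σ ρ w₀ A B ∧ A⁻¹ * i (r x) ∈ S.L}

variable {S i σ ρ r}

theorem buildc_inv {w : List (Y ⊕ R)} {A B : Γ} (h : BuildcRun S i σ ρ w A B) :
    (w = [] ∧ A = 1 ∧ B = 1) ∨ ∃ w₀ A₀ B₀ y, w = w₀ ++ [Sum.inl y] ∧ BuildcRun S i σ ρ w₀ A₀ B₀ ∧
      S.TL 1 (A₀⁻¹ * ρ y) ∧ A₀⁻¹ * ρ y ∉ S.L ∧ B₀⁻¹ * ρ y ∉ S.L ∧ A = (i (σ y))⁻¹ * ρ y ∧
      B = (i (σ y))⁻¹ * A₀ := by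
  cases h with
  | nil => exact Or.inl ⟨rfl, rfl, rfl⟩
  | snoc y h1 h2 h3 h4 => exact Or.inr ⟨_, _, _, y, rfl, h1, h2, h3, h4, rfl, rfl⟩

theorem buildc_reg [Finite Y] : (buildcL S i σ ρ r).IsRegular := by
  let F : Set Γ := insert 1 (Set.range fun y => (i (σ y))⁻¹ * ρ y)
  have hF : F.Finite := (Set.finite_range _).insert 1
  let G : Set Γ := insert 1 (Set.image2 (fun y A => (i (σ y))⁻¹ * A) Set.univ F)
  have hG : G.Finite := (Set.toFinite _).image2 _ hF |>.insert 1
  have h1 : ∀ (w : List (Y ⊕ R)) A B, BuildcRun S i σ ρ w A B → A ∈ F ∧ B ∈ G := by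
    intro w A B h
    induction h with
    | nil => exact ⟨Set.mem_insert _ _, Set.mem_insert _ _⟩
    | snoc y _ _ _ _ ih =>
      exact ⟨Set.mem_insert_of_mem _ ⟨y, rfl⟩, Set.mem_insert_of_mem _ ⟨y, trivial, _, ih.1, rfl⟩⟩
  have h2 : ∀ (a b : List (Y ⊕ R)) x, (∀ A B, BuildcRun S i σ ρ a A B → BuildcRun S i σ ρ b A B) →
      (∀ A B, BuildcRun S i σ ρ (a ++ [x]) A B → BuildcRun S i σ ρ (b ++ [x]) A B) ∧
        (a ++ [x] ∈ buildcL S i σ ρ r → b ++ [x] ∈ buildcL S i σ ρ r) := by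
    intro a b x hab
    refine ⟨fun A B h => ?_, ?_⟩
    · rcases buildc_inv h with ⟨e, -⟩ | ⟨w₀, A₀, B₀, y, e, k1, k2, k3, k4, rfl, rfl⟩
      · simp at e
      · obtain ⟨rfl, e2⟩ := List.append_inj' e rfl
        rw [e2]
        exact (hab _ _ k1).snoc y k2 k3 k4
    · rintro ⟨w₀, A, B, y, e, k1, k2⟩
      obtain ⟨rfl, e2⟩ := List.append_inj' e rfl
      exact ⟨b, A, B, y, by rw [e2], hab _ _ k1, k2⟩
  refine regular_of_cong _
    (fun w => (({q | BuildcRun S i σ ρ w q.1 q.2} : Set (Γ × Γ)), w ∈ buildcL S i σ ρ r)) ?_ ?_ ?_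
  · refine (((hF.prod hG).finite_subsets).prod (Set.finite_univ (α := Prop))).subset ?_
    rintro _ ⟨w, rfl⟩
    exact ⟨fun q hq => h1 w _ _ hq, trivial⟩
  · intro a b x h
    have h3 : ∀ A B, BuildcRun S i σ ρ a A B ↔ BuildcRun S i σ ρ b A B := fun A B =>
      Set.ext_iff.1 (congrArg Prod.fst h) (A, B)
    have h4 := h2 a b x fun A B => (h3 A B).1
    have h5 := h2 b a x fun A B => (h3 A B).2
    exact Prod.ext (Set.ext fun q => ⟨h4.1 _ _, h5.1 _ _⟩) (propext ⟨h4.2, h5.2⟩)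
  · intro a b h ha
    exact (congrArg Prod.snd h).mp ha

theorem buildc_eq {g g' : Γ} (p : Γ) : S.Λ (p * g) = S.Λ (p * g') ↔ g⁻¹ * g' ∈ S.L := by
  rw [S.Λ_eq, mul_inv_rev, mul_assoc, inv_mul_cancel_left]

theorem buildc_child {p A B x : Γ} (hp : (S.Λ (p * A) = [] ∧ A = B) ∨ ∃ c, S.Λ (p * A) = c :: S.Λ (p * B)) :
    (∃ c, S.Λ (p * x) = c :: S.Λ (p * A)) ↔ S.TL 1 (A⁻¹ * x) ∧ A⁻¹ * x ∉ S.L ∧ B⁻¹ * x ∉ S.L := by
  rw [← buildc_eq p, ← buildc_eq p]
  constructor
  · rintro ⟨c, hc⟩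
    have h1 := Setup.tl_of_stack (S := S) (a := []) (b := [c]) (g := p * A) rfl hc
    rw [mul_inv_rev, mul_assoc, inv_mul_cancel_left] at h1
    have h2 := congrArg List.length hc
    rw [List.length_cons] at h2
    refine ⟨h1, fun h => ?_, fun h => ?_⟩
    · rw [h] at h2
      omega
    · rcases hp with ⟨-, rfl⟩ | ⟨c', hc'⟩
      · rw [h] at h2
        omega
      · rw [hc', h, List.length_cons] at h2
        omega
  · rintro ⟨h1, h2, h3⟩
    obtain ⟨a, b, z, k1, k2, k3⟩ := h1.stack (p * A)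
    rw [mul_assoc, mul_inv_cancel_left] at k2
    rcases a with _ | ⟨c, a⟩
    · rcases b with _ | ⟨c, b⟩
      · exact absurd (k1.trans k2.symm) h2
      · obtain rfl : b = [] := List.length_eq_zero_iff.1 (by simp only [List.length_cons] at k3; omega)
        exact ⟨c, by rw [k1, k2]; rfl⟩
    · obtain rfl : a = [] := List.length_eq_zero_iff.1 (by simp only [List.length_cons] at k3; omega)
      obtain rfl : b = [] := List.length_eq_zero_iff.1 (by simp only [List.length_cons] at k3; omega)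
      rcases hp with ⟨e, -⟩ | ⟨c', hc'⟩
      · rw [e] at k1
        simp at k1
      · rw [hc'] at k1
        exact absurd ((List.cons.inj k1).2.trans k2.symm) h3

theorem buildc_ev (w : List (Y ⊕ R)) (y : Y) (x : Γ) :
    i (ev (Sum.elim σ r) (w ++ [Sum.inl y])) * ((i (σ y))⁻¹ * x) = i (ev (Sum.elim σ r) w) * x := by
  rw [ev_append, ev_single, map_mul, mul_assoc, Sum.elim_inl, mul_inv_cancel_left]

variable (r) in
theorem buildc_sem {w : List (Y ⊕ R)} {A B : Γ} (h : BuildcRun S i σ ρ w A B) :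
    (S.Λ (i (ev (Sum.elim σ r) w) * A)).length = w.length ∧
      ((S.Λ (i (ev (Sum.elim σ r) w) * A) = [] ∧ A = B) ∨
        ∃ c, S.Λ (i (ev (Sum.elim σ r) w) * A) = c :: S.Λ (i (ev (Sum.elim σ r) w) * B)) := by
  induction h with
  | nil =>
    rw [ev_nil, map_one, mul_one, S.Λ_one]
    exact ⟨rfl, Or.inl ⟨rfl, rfl⟩⟩
  | snoc y _ h2 h3 h4 ih =>
    obtain ⟨c, hc⟩ := (buildc_child ih.2).2 ⟨h2, h3, h4⟩
    rw [buildc_ev, buildc_ev, hc, List.length_cons, ih.1, List.length_append]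
    exact ⟨rfl, Or.inr ⟨c, rfl⟩⟩

theorem buildc_det (hρ : ∀ y y', S.Λ (ρ y) = S.Λ (ρ y') → y = y') {w w' : List (Y ⊕ R)} {A B A' B' : Γ}
    (h : BuildcRun S i σ ρ w A B) (h' : BuildcRun S i σ ρ w' A' B')
    (e : S.Λ (i (ev (Sum.elim σ r) w) * A) = S.Λ (i (ev (Sum.elim σ r) w') * A')) : w = w' := by
  induction h generalizing w' A' B' with
  | nil =>
    have h1 := (buildc_sem r h').1
    rw [← e, ev_nil, map_one, mul_one, S.Λ_one] at h1
    exact (List.length_eq_zero_iff.1 h1.symm).symm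
  | snoc y h1 h2 h3 h4 ih =>
    obtain ⟨c, hc⟩ := (buildc_child (buildc_sem r h1).2).2 ⟨h2, h3, h4⟩
    rw [buildc_ev] at e
    rcases buildc_inv h' with ⟨rfl, rfl, -⟩ | ⟨w₀, A₀, B₀, y', rfl, k1, k2, k3, k4, rfl, rfl⟩
    · rw [hc, ev_nil, map_one, mul_one, S.Λ_one] at e
      simp at e
    · obtain ⟨c', hc'⟩ := (buildc_child (buildc_sem r k1).2).2 ⟨k2, k3, k4⟩
      rw [buildc_ev] at e
      have e' := e
      rw [hc, hc'] at e'
      obtain rfl := ih k1 (List.cons.inj e').2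
      rw [hρ y y' ((S.Λ_eq _ _).2 ((buildc_eq _).1 e))]

theorem buildc_cut {w : List (Y ⊕ R)} {A B : Γ} (h : BuildcRun S i σ ρ w A B) {a z : List S.β}
    (e : S.Λ (i (ev (Sum.elim σ r) w) * A) = a ++ z) :
    ∃ w₁ w₂ A₁ B₁, w = w₁ ++ w₂ ∧ w₂.length = a.length ∧ BuildcRun S i σ ρ w₁ A₁ B₁ ∧
      S.Λ (i (ev (Sum.elim σ r) w₁) * A₁) = z := by
  induction a generalizing w A B with
  | nil => exact ⟨w, [], A, B, (List.append_nil w).symm, rfl, h, e⟩
  | cons c a ih =>
    rcases buildc_inv h with ⟨rfl, rfl, -⟩ | ⟨w₀, A₀, B₀, y, rfl, k1, k2, k3, k4, rfl, rfl⟩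
    · rw [ev_nil, map_one, mul_one, S.Λ_one] at e
      simp at e
    · obtain ⟨c', hc'⟩ := (buildc_child (buildc_sem r k1).2).2 ⟨k2, k3, k4⟩
      rw [buildc_ev, hc'] at e
      obtain ⟨w₁, w₂, A₁, B₁, rfl, l1, l2, l3⟩ := ih k1 (List.cons.inj e).2
      exact ⟨w₁, w₂ ++ [Sum.inl y], A₁, B₁, List.append_assoc _ _ _, by simp [l1], l2, l3⟩

theorem buildc_tl {K : ℕ} (hσ : ∀ y, S.TL K ((i (σ y))⁻¹ * ρ y)) {w : List (Y ⊕ R)} {A B : Γ}
    (h : BuildcRun S i σ ρ w A B) : S.TL K A := by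
  rcases buildc_inv h with ⟨-, rfl, -⟩ | ⟨w₀, A₀, B₀, y, -, -, -, -, -, rfl, -⟩
  · exact Setup.TL.of_L S.L.one_mem K
  · exact hσ y

theorem buildc_suffix (g : Γ) {z : List S.β} (hz : z <:+ S.Λ g) : ∃ γ, S.Λ γ = z := by
  obtain ⟨a, ha⟩ := hz
  induction a generalizing g with
  | nil => exact ⟨g, ha.symm⟩
  | cons c a ih =>
    obtain ⟨g', -, -, h1, -⟩ := S.parent g c (a ++ z) ha.symm
    exact ih g' h1.symm

theorem buildc_near (S : Setup Γ) (i : H →* Γ) (hH : Group.FG H) :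
    ∃ K, ∀ h γ, S.Λ γ <:+ S.Λ (i h) → ∃ h', S.TL K ((i h')⁻¹ * γ) := by
  obtain ⟨T, hT, hfin⟩ := Group.fg_iff.1 hH
  obtain ⟨K, hK⟩ := Setup.exists_tl_of_finite (S := S) (hfin.image i)
  refine ⟨K, fun h γ => ?_⟩
  have step : ∀ x y, S.TL K (i y) → (S.Λ γ <:+ S.Λ (i x) → ∃ h', S.TL K ((i h')⁻¹ * γ)) →
      S.Λ γ <:+ S.Λ (i (x * y)) → ∃ h', S.TL K ((i h')⁻¹ * γ) := by
    intro x y hy ih h1
    by_cases h2 : S.Λ γ <:+ S.Λ (i x)
    · exact ih h2
    · refine ⟨x, (Setup.TL.enter (h := i (x * y)) ?_ h1 h2).1⟩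
      rwa [map_mul, inv_mul_cancel_left]
  have hh : h ∈ Subgroup.closure T := hT ▸ Subgroup.mem_top h
  induction hh using Subgroup.closure_induction_right with
  | one =>
    intro h1
    rw [map_one, S.Λ_one, List.suffix_nil, ← S.Λ_one] at h1
    refine ⟨1, Setup.TL.of_L ?_ K⟩
    rw [map_one]
    exact (S.Λ_eq _ _).1 h1.symm
  | mul_right x _ y hy ih => exact step x y (hK _ ⟨y, hy, rfl⟩) ih
  | mul_inv_cancel x _ y hy ih => exact step x y⁻¹ (map_inv i y ▸ (hK _ ⟨y, hy, rfl⟩).inv) ih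

theorem buildc_rep (S : Setup Γ) (h : ∀ x, S.Per (S.vec x)) (i : H →* Γ) (K : ℕ) :
    ∃ F : Set H, F.Finite ∧ ∀ g, S.TL K (i g) → ∃ n ∈ S.L.normalCore.comap i, ∃ x ∈ F, g = n * x := by
  classical
  obtain ⟨F, hF, h1⟩ := tl_finite_mod_core S h K
  let f : Γ → H := fun x => if hx : ∃ g, ∃ z ∈ S.L.normalCore, i g = z * x then hx.choose else 1
  refine ⟨f '' F, hF.image f, fun g hg => ?_⟩
  obtain ⟨z, hz, x, hx, e⟩ := h1 _ hg
  have h2 : ∃ g, ∃ z ∈ S.L.normalCore, i g = z * x := ⟨g, z, hz, e⟩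
  obtain ⟨z', hz', e'⟩ := h2.choose_spec
  have h3 : f x = h2.choose := dif_pos h2
  refine ⟨g * (f x)⁻¹, ?_, f x, ⟨x, hx, rfl⟩, (inv_mul_cancel_right _ _).symm⟩
  rw [Subgroup.mem_comap, map_mul, map_inv, h3, e', e, mul_inv_rev, mul_assoc, mul_inv_cancel_left]
  exact mul_mem hz (inv_mem hz')

theorem buildc_climb {K : ℕ} (hσ : ∀ y, S.TL K ((i (σ y))⁻¹ * ρ y))
    (hK : ∀ h γ, S.Λ γ <:+ S.Λ (i h) → ∃ h', S.TL K ((i h')⁻¹ * γ))
    (hY : ∀ γ h, S.TL (K + 1) γ → S.TL K ((i h)⁻¹ * γ) → ∃ y, S.Λ (ρ y) = S.Λ γ) (g : H) {z : List S.β}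
    (hz : z <:+ S.Λ (i g)) :
    ∃ w A B, BuildcRun S i σ ρ w A B ∧ S.Λ (i (ev (Sum.elim σ r) w) * A) = z := by
  induction z with
  | nil => exact ⟨[], 1, 1, .nil, by rw [ev_nil, map_one, mul_one, S.Λ_one]⟩
  | cons c z ih =>
    obtain ⟨w, A, B, h1, h2⟩ := ih ((List.suffix_cons c z).trans hz)
    obtain ⟨γ, hγ⟩ := buildc_suffix _ hz
    obtain ⟨h', h3⟩ := hK g γ (hγ ▸ hz)
    have h4 := (buildc_tl hσ h1).mul (Setup.tl_of_stack (S := S) (a := []) (b := [c]) h2 hγ)
    rw [mul_inv_rev, mul_assoc, mul_inv_cancel_left] at h4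
    obtain ⟨y, hy⟩ := hY _ ((ev (Sum.elim σ r) w)⁻¹ * h') h4 (by
      rwa [map_mul, map_inv, mul_inv_rev, inv_inv, mul_assoc, mul_inv_cancel_left])
    have h5 : S.Λ (i (ev (Sum.elim σ r) w) * ρ y) = c :: z := by
      rw [(buildc_eq _).2 ((S.Λ_eq _ _).1 hy), mul_inv_cancel_left, hγ]
    obtain ⟨k1, k2, k3⟩ := (buildc_child (buildc_sem r h1).2).1 ⟨c, h5.trans (by rw [h2])⟩
    exact ⟨_, _, _, h1.snoc y k1 k2 k3, by rw [buildc_ev, h5]⟩

theorem buildc_last {w : List (Y ⊕ R)} {A : Γ} {x : R} (h : A⁻¹ * i (r x) ∈ S.L) :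
    S.Λ (i (ev (Sum.elim σ r) w) * A) = S.Λ (i (ev (Sum.elim σ r) (w ++ [Sum.inr x]))) := by
  rw [ev_append, ev_single, map_mul, Sum.elim_inr]
  exact (buildc_eq _).2 h

theorem buildc_ft [Finite Y] [Finite R] (hi : Function.Injective i)
    (hρ : ∀ y y', S.Λ (ρ y) = S.Λ (ρ y') → y = y') (a : H) :
    ∃ D : Set H, D.Finite ∧ ∃ C : ℕ, ∀ u ∈ buildcL S i σ ρ r, ∀ v ∈ buildcL S i σ ρ r,
      ∀ z ∈ S.L.normalCore.comap i, ev (Sum.elim σ r) u * a = z * ev (Sum.elim σ r) v →
        v.length ≤ u.length + C ∧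
          ∀ s, (ev (Sum.elim σ r) (u.take s))⁻¹ * z * ev (Sum.elim σ r) (v.take s) ∈ D := by
  have hfin : ∀ η ∈ S.L.normalCore.comap i, {γ | ∃ g, γ = g⁻¹ * η * g}.Finite := by
    intro η hη
    refine Set.Finite.of_finite_image ((S.finite_conj (η := i η) hη).subset ?_) hi.injOn
    rintro _ ⟨_, ⟨g, rfl⟩, rfl⟩
    exact ⟨i g, by simp⟩
  have hB := finite_ev_le (Sum.elim σ r) ((S.Λ (i a)).length + 1)
  have hE := ((hB.image2 (fun x y => x * a * y⁻¹) hB).inter_of_left
    (S.L.normalCore.comap i : Set H)).biUnion fun η hη => hfin η hη.2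
  refine ⟨_, (hB.image2 (fun x y => x⁻¹ * y) hE).image2 (fun x y => x * y) hB, (S.Λ (i a)).length, ?_⟩
  rintro _ ⟨u, A, B, x, rfl, hu, hx⟩ _ ⟨v, A', B', x', rfl, hv, hx'⟩ z hz e
  obtain ⟨a₁, b₁, z₀, k1, k2, k3⟩ := (Setup.tl_length (S := S) (i a)).stack
    (i (ev (Sum.elim σ r) (u ++ [Sum.inr x])))
  rw [← map_mul, e, map_mul, S.Λ_core hz, ← buildc_last hx'] at k2
  rw [← buildc_last hx] at k1
  obtain ⟨w, u', A₁, B₁, rfl, l1, l2, l3⟩ := buildc_cut hu k1
  obtain ⟨w', v', A₂, B₂, rfl, m1, m2, m3⟩ := buildc_cut hv k2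
  obtain rfl := buildc_det hρ l2 m2 (l3.trans m3.symm)
  refine ⟨by simp only [List.length_append, List.length_singleton]; omega, fun s => ?_⟩
  rw [List.append_assoc, List.append_assoc] at e ⊢
  have n1 : (u' ++ [Sum.inr x]).length ≤ (S.Λ (i a)).length + 1 := by
    rw [List.length_append, List.length_singleton]
    omega
  have n2 : (v' ++ [Sum.inr x']).length ≤ (S.Λ (i a)).length + 1 := by
    rw [List.length_append, List.length_singleton]
    omega
  generalize u' ++ [Sum.inr x] = u₂ at e n1 ⊢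
  generalize v' ++ [Sum.inr x'] = v₂ at e n2 ⊢
  have e1 : ev (Sum.elim σ r) w = ev (Sum.elim σ r) (w.take s) * ev (Sum.elim σ r) (w.drop s) := by
    rw [← ev_append, List.take_append_drop]
  have e2 : ev (Sum.elim σ r) u₂ * a * (ev (Sum.elim σ r) v₂)⁻¹ =
      (ev (Sum.elim σ r) w)⁻¹ * z * ev (Sum.elim σ r) w := by
    rw [ev_append, ev_append] at e
    rw [mul_inv_eq_iff_eq_mul, mul_assoc, mul_assoc, ← e, mul_assoc, inv_mul_cancel_left]
  rw [List.take_append, List.take_append, ev_append, ev_append]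
  refine ⟨_, ⟨_, ⟨u₂.take (s - w.length), (List.length_take_le' _ _).trans n1, rfl⟩,
    (ev (Sum.elim σ r) (w.take s))⁻¹ * z * ev (Sum.elim σ r) (w.take s), ?_, rfl⟩, _,
    ⟨v₂.take (s - w.length), (List.length_take_le' _ _).trans n2, rfl⟩, by group⟩
  refine Set.mem_biUnion (x := ev (Sum.elim σ r) u₂ * a * (ev (Sum.elim σ r) v₂)⁻¹)
    ⟨⟨_, ⟨u₂, n1, rfl⟩, _, ⟨v₂, n2, rfl⟩, rfl⟩, ?_⟩ ⟨(ev (Sum.elim σ r) (w.drop s))⁻¹, ?_⟩
  · rw [e2]
    exact (inferInstance : (S.L.normalCore.comap i).Normal).conj_mem' z hz _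
  · rw [e2, e1]
    group

end

/-- Normal forms along the geodesics of the tree.  Let `N` be the preimage of the core, `K` a bound with
`TL K (i a)` for the generators `a` of `H`; call `γ : Γ` *near* if `TL K ((i h)⁻¹ * γ)` for some `h`.  Every vertex
below a vertex `Λ (i h)` is the stack of a near element (follow a word in the generators, `TL.enter`).  For each stack
`y` of length at most `K + 1` of a near element fix `ρ y : Γ` with that stack and `σ y : H` with
`TL K ((i (σ y))⁻¹ * ρ y)`.  A letter is such a stack `y` (label `σ y`) or one of finitely many representatives `r`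
modulo `N` of the `h` with `TL K (i h)` (label `r`).  Reading `y₁ ... yₘ r`, the `n`-th vertex is
`v n = i (σ y₁ * ... * σ y (n - 1)) * ρ (y n)`, `v 0 = 1`; the word is accepted iff consecutive vertices are adjacent
(`(v n)⁻¹ * v (n + 1) ∈ L t^± L`), there is no backtracking (`Λ (v (n + 1)) ≠ Λ (v (n - 1))`) and the last vertex is that of the value of
the word; these conditions only involve three consecutive letters.  Then every step is a push (`step`), so the
vertices, hence the letters, are determined by the final stack.  Two such words whose values are adjacent modulo `N`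
agree except for boundedly many final letters (`TL.stack`), and `p⁻¹ * z * p` is an element of `N` given by a bounded
word. -/
theorem wstr_tree {Γ H : Type} [Group Γ] [Group H] (S : Setup Γ) (h : ∀ x, S.Per (S.vec x)) (i : H →* Γ)
    (hi : Function.Injective i) (hH : Group.FG H) : Nonempty (WStr H (S.L.normalCore.comap i)) := by
  obtain ⟨K, hK⟩ := buildc_near S i hH
  obtain ⟨F, hF, hr⟩ := buildc_rep S h i K
  let Ys : Set (List S.β) := {y | ∃ γ h, S.TL (K + 1) γ ∧ S.Λ γ = y ∧ S.TL K ((i h)⁻¹ * γ)}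
  have hYs : Ys.Finite := (S.finite_stacks (K + 1)).subset fun _ ⟨γ, _, h1, h2, _⟩ => ⟨γ, h1, h2⟩
  have := hYs.to_subtype
  have := hF.to_subtype
  have hc : ∀ y : Ys, ∃ γ h, S.TL (K + 1) γ ∧ S.Λ γ = y ∧ S.TL K ((i h)⁻¹ * γ) := fun y => y.2
  choose ρ σ _ h2 h3 using hc
  refine ⟨⟨Ys ⊕ F, buildcL S i σ ρ Subtype.val, buildc_reg, Sum.elim σ Subtype.val, fun g => ?_,
    buildc_ft hi fun y y' e => Subtype.ext (by rw [← h2, ← h2, e])⟩⟩
  obtain ⟨w, A, B, k1, k2⟩ := buildc_climb (r := (Subtype.val : F → H)) h3 hK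
    (fun γ h' a b => ⟨⟨_, γ, h', a, rfl, b⟩, h2 _⟩) g List.suffix_rfl
  have k3 : A⁻¹ * i ((ev (Sum.elim σ Subtype.val) w)⁻¹ * g) ∈ S.L := by
    have := (S.Λ_eq _ _).1 k2
    rwa [mul_inv_rev, mul_assoc, ← map_inv, ← map_mul] at this
  have k4 := (buildc_tl h3 k1).mul (Setup.TL.of_L k3 0)
  rw [mul_inv_cancel_left] at k4
  obtain ⟨n, hn, x, hx, e⟩ := hr _ k4
  refine ⟨w ++ [Sum.inr ⟨x, hx⟩], ⟨w, A, B, _, rfl, k1, ?_⟩,
    ev (Sum.elim σ Subtype.val) w * n⁻¹ * (ev (Sum.elim σ Subtype.val) w)⁻¹,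
    (inferInstance : (S.L.normalCore.comap i).Normal).conj_mem _ (inv_mem hn) _, ?_⟩
  · rw [← S.Λ_eq] at k3 ⊢
    rw [k3, e, map_mul, S.Λ_core hn]
  · rw [ev_append, ev_single, Sum.elim_inr, mul_assoc, e]
    group

end Pool.Agent.MP_6674cc_al

/-! Finitely generated subgroups are automatic when the holonomy is finite. -/

namespace Pool.Agent.MP_6674cc_al

theorem automatic_of_periodic {Γ H : Type} [Group Γ] [Group H] (S : Setup Γ) (h : ∀ x, S.Per (S.vec x))
    (i : H →* Γ) (hi : Function.Injective i) (hH : Group.FG H) : IsAutomatic H := by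
  obtain ⟨s⟩ := wstr_tree S h i hi hH
  have hinj : Function.Injective S.ι := fun a b hab =>
    Multiplicative.toAdd.injective (S.io_injective (a₁ := a.toAdd) (a₂ := b.toAdd) hab)
  let j : S.L.normalCore.comap i →* S.L :=
    (i.comp (S.L.normalCore.comap i).subtype).codRestrict S.L fun x => S.core_le x.2
  have hj : Function.Injective j := fun a b hab => Subtype.ext (hi (congrArg Subtype.val hab))
  let f : S.L.normalCore.comap i →* Multiplicative (S.I → ℤ) :=
    (MonoidHom.ofInjective hinj).symm.toMonoidHom.comp j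
  have hf : Function.Injective f := (MonoidHom.ofInjective hinj).symm.injective.comp hj
  have hfin : ∀ η ∈ S.L.normalCore.comap i, {γ | ∃ g, γ = g⁻¹ * η * g}.Finite := by
    intro η hη
    refine Set.Finite.of_finite_image ((S.finite_conj (η := i η) hη).subset ?_) hi.injOn
    rintro _ ⟨_, ⟨g, rfl⟩, rfl⟩
    exact ⟨i g, by simp⟩
  obtain ⟨s'⟩ := wstr_bot f hf hfin s
  exact automatic_of_wstr s'

end Pool.Agent.MP_6674cc_al

end
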