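import Pool.Agent.MP_6674cc_al.Mg.Rem
import Pool.Agent.MP_6674cc_al.Mg.Build

-- part MP_6674cc_al.Inst
section

/-! The Bass-Serre tree of an HNN extension, coded by normal words. -/

namespace Pool.Agent.MP_6674cc_al

open HNNExtension

section
variable {G : Type} [Group G] {A B : Subgroup G} (φ : A ≃* B)

theorem instt_mul_of (u : ℤˣ) (a : toSubgroup A B u) :
    (t ^ (u : ℤ) : HNNExtension G A B φ) * of (a : G) = of (toSubgroupEquiv φ u a : G) * t ^ (u : ℤ) := by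
  rcases Int.units_eq_one_or u with rfl | rfl
  · rw [Units.val_one, zpow_one]
    exact t_mul_of (φ := φ) a
  · rw [Units.val_neg, Units.val_one, zpow_neg, zpow_one]
    exact inv_t_mul_of (φ := φ) a

theorem instt_finite (d : NormalWord.TransversalPair G A B) (hA : A.index ≠ 0) (hB : B.index ≠ 0) (u : ℤˣ) :
    (d.set u).Finite := by
  have h : (toSubgroup A B u).FiniteIndex := by
    rcases Int.units_eq_one_or u with rfl | rfl
    · exact ⟨hA⟩
    · exact ⟨hB⟩
  exact (d.compl u).finite_right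

variable {d : NormalWord.TransversalPair G A B}

theorem instt_not_cancels (v : ℤˣ) (w : NormalWord d) (h : ¬ NormalWord.Cancels v w) :
    ∃ y, (NormalWord.unitsSMul φ v w).toList = (v, y) :: w.toList := by
  rw [NormalWord.unitsSMul, dif_neg h]
  exact ⟨_, rfl⟩

theorem instt_cancels (v : ℤˣ) (w : NormalWord d) (h : NormalWord.Cancels v w) :
    ∃ c, w.toList = c :: (NormalWord.unitsSMul φ v w).toList := by
  rw [NormalWord.unitsSMul, dif_pos h]
  cases w using NormalWord.consRecOn with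
  | ofGroup g => simp [NormalWord.Cancels] at h
  | cons g u w h1 h2 ih => exact ⟨_, rfl⟩

theorem instt_smul (g : HNNExtension G A B φ) (v : ℤˣ) :
    ((g * (t ^ (v : ℤ))⁻¹)⁻¹ • NormalWord.empty : NormalWord d) =
      NormalWord.unitsSMul φ v (g⁻¹ • NormalWord.empty) := by
  rw [mul_inv_rev, inv_inv, mul_smul, NormalWord.t_pow_smul_eq_unitsSMul]

theorem instt_neg (u : ℤˣ) : (t ^ (u : ℤ) : HNNExtension G A B φ) = (t ^ ((-u : ℤˣ) : ℤ))⁻¹ := by
  simp

theorem instt_eq_iff (g h : HNNExtension G A B φ) :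
    (g⁻¹ • NormalWord.empty : NormalWord d).toList = (h⁻¹ • NormalWord.empty : NormalWord d).toList ↔
      g⁻¹ * h ∈ (of : G →* HNNExtension G A B φ).range := by
  constructor
  · intro e
    have e1 : (g⁻¹ • NormalWord.empty : NormalWord d) =
        ((g⁻¹ • NormalWord.empty : NormalWord d).head * (h⁻¹ • NormalWord.empty : NormalWord d).head⁻¹) •
          (h⁻¹ • NormalWord.empty : NormalWord d) := by
      refine NormalWord.ext ?_ ?_
      · simp
      · simpa using e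
    have e2 := congrArg (fun w : NormalWord d => w.prod φ) e1
    simp only [NormalWord.prod_smul, NormalWord.prod_empty, mul_one, NormalWord.prod_group_smul] at e2
    exact ⟨_, eq_mul_of_mul_inv_eq e2.symm⟩
  · rintro ⟨k, hk⟩
    have e1 : g⁻¹ = of k * h⁻¹ := by rw [hk, mul_inv_cancel_right]
    rw [e1, mul_smul, NormalWord.of_smul_eq_smul, NormalWord.group_smul_toList]

theorem instt_parent (w : NormalWord d) (c : ℤˣ × G) (l : List (ℤˣ × G)) (h : w.toList = c :: l) :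
    ∃ (k : G) (v : ℤˣ) (w' : NormalWord d), w'.toList = l ∧ w.prod φ = of k * (t ^ (v : ℤ) * w'.prod φ) := by
  cases w using NormalWord.consRecOn with
  | ofGroup g => simp at h
  | cons g u w h1 h2 ih =>
    refine ⟨g, u, w, ?_, NormalWord.prod_cons φ g u w h1 h2⟩
    simp only [NormalWord.cons_toList, List.cons.injEq] at h
    exact h.2

/-- the ascending normal word -/
def instt_word (u : ℤˣ) (k : G) (l : List (d.set u)) : NormalWord d where
  head := k
  toList := l.map fun y : d.set u => (u, y.1)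
  chain := by
    rw [List.isChain_map]
    induction l with
    | nil => exact List.isChain_nil
    | cons a l ih => exact List.isChain_cons.2 ⟨fun _ _ _ => rfl, ih⟩
  mem_set := by
    intro v g hg
    obtain ⟨y, -, hy⟩ := List.mem_map.1 hg
    cases hy
    exact y.2

theorem instt_word_prod (u : ℤˣ) (k : G) (l : List (d.set u)) :
    (instt_word u k l).prod φ = of k * (l.map fun y : d.set u => t ^ (u : ℤ) * of y.1).prod := by
  simp [instt_word, NormalWord.ReducedWord.prod, Function.comp_def]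

end

/-- For a transversal pair `d` (`HNNExtension.NormalWord.TransversalPair.nonempty`) put
`Λ g = (g⁻¹ • NormalWord.empty).toList` (letters in `ℤˣ × G`); `Up l` says that the first sign of `l` (if any) is `-u`;
`Y = d.set u` (finite since the index is finite), `rep y = of y`.  Use `NormalWord.unitsSMul`, `Cancels`,
`prod_smul_empty`, `prod_smul`, `prod_cons`, `prod_injective`, and `(d.compl u).equiv`. -/
theorem hnn_tree {G : Type} [Group G] (A B : Subgroup G) (φ : A ≃* B) (hA : A.index ≠ 0) (hB : B.index ≠ 0)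
    (u : ℤˣ) (θ : HNNExtension G A B φ) (hθ : θ = t ^ (u : ℤ)) (L : Subgroup (HNNExtension G A B φ))
    (hL : L = (of : G →* HNNExtension G A B φ).range) :
    ∃ (β : Type) (Λ : HNNExtension G A B φ → List β) (Up : List β → Prop) (Y : Type) (_ : Fintype Y)
      (rep : Y → HNNExtension G A B φ),
      Λ 1 = [] ∧ (∀ g h, Λ g = Λ h ↔ g⁻¹ * h ∈ L) ∧
      (∀ g a, (a = θ ∨ a = θ⁻¹) → (∃ c, Λ (g * a) = c :: Λ g) ∨ ∃ c, Λ g = c :: Λ (g * a)) ∧
      (∀ g c l, Λ g = c :: l → ∃ g' a, (a = θ ∨ a = θ⁻¹) ∧ Λ g' = l ∧ (g' * a)⁻¹ * g ∈ L) ∧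
      (∃ s : Set β, s.Finite ∧ ∀ g, ∀ c ∈ Λ g, c ∈ s) ∧ Up [] ∧
      (∀ g, Up (Λ g) → (∃ c, Λ (g * θ) = c :: Λ g) ∧ Up (Λ (g * θ))) ∧ (∀ y, rep y ∈ L) ∧
      (∀ x ∈ L, ∃ x' ∈ L, ∃ y, θ * x = x' * θ * rep y) ∧
      ∀ x ∈ L, ∀ l l' : List Y,
        x * (l.map fun y => θ * rep y).prod = (l'.map fun y => θ * rep y).prod → l = l' := by
  subst hL
  obtain ⟨d⟩ := NormalWord.TransversalPair.nonempty G A B
  have hfin := instt_finite d hA hB
  have hstep : ∀ (g : HNNExtension G A B φ) (v : ℤˣ),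
      (∃ c, ((g * (t ^ (v : ℤ))⁻¹)⁻¹ • NormalWord.empty : NormalWord d).toList =
        c :: (g⁻¹ • NormalWord.empty : NormalWord d).toList) ∨
      ∃ c, (g⁻¹ • NormalWord.empty : NormalWord d).toList =
        c :: ((g * (t ^ (v : ℤ))⁻¹)⁻¹ • NormalWord.empty : NormalWord d).toList := by
    intro g v
    rw [instt_smul]
    by_cases h : NormalWord.Cancels v (g⁻¹ • NormalWord.empty : NormalWord d)
    · exact Or.inr (instt_cancels φ v _ h)
    · obtain ⟨y, hy⟩ := instt_not_cancels φ v _ h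
      exact Or.inl ⟨_, hy⟩
  refine ⟨ℤˣ × G, fun g => (g⁻¹ • NormalWord.empty : NormalWord d).toList,
    fun l => ∀ c ∈ l.head?, c.1 = -u, d.set u, (hfin u).fintype, fun y => of (y : G),
    by simp, instt_eq_iff φ, ?_, ?_, ?_, by simp, ?_, fun y => ⟨y, rfl⟩, ?_, ?_⟩
  · rintro g a (rfl | rfl)
    · rw [hθ, instt_neg]
      exact hstep g (-u)
    · rw [hθ]
      exact hstep g u
  · intro g c l h
    obtain ⟨k, v, w, h1, h2⟩ := instt_parent φ _ c l h
    simp only [NormalWord.prod_smul, NormalWord.prod_empty, mul_one] at h2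
    refine ⟨(w.prod φ)⁻¹, (t ^ (v : ℤ))⁻¹, ?_, ?_, k⁻¹, ?_⟩
    · by_cases hv : v = u
      · right
        rw [hθ, hv]
      · left
        rw [hθ, instt_neg φ u, Int.units_ne_iff_eq_neg.1 hv]
    · simp only [inv_inv, NormalWord.prod_smul_empty, h1]
    · rw [mul_inv_rev, inv_inv, inv_inv, map_inv, eq_inv_mul_of_mul_eq h2.symm]
      simp
  · refine ⟨(fun y => ((1 : ℤˣ), y)) '' d.set 1 ∪ (fun y => ((-1 : ℤˣ), y)) '' d.set (-1),
      ((hfin 1).image _).union ((hfin (-1)).image _), ?_⟩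
    rintro g ⟨v, y⟩ hc
    have := NormalWord.mem_set _ v y hc
    rcases Int.units_eq_one_or v with rfl | rfl
    · exact Or.inl ⟨y, this, rfl⟩
    · exact Or.inr ⟨y, this, rfl⟩
  · intro g hg
    have h : ¬ NormalWord.Cancels (-u) (g⁻¹ • NormalWord.empty : NormalWord d) := by
      rintro ⟨-, h⟩
      obtain ⟨c, hc, hc'⟩ := Option.map_eq_some_iff.1 h
      have h1 := hg c hc
      rw [hc', neg_neg] at h1
      rcases Int.units_eq_one_or u with rfl | rfl <;> simp at h1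
    obtain ⟨y, hy⟩ := instt_not_cancels φ (-u) _ h
    rw [← instt_smul, ← instt_neg, ← hθ] at hy
    refine ⟨⟨_, hy⟩, ?_⟩
    intro c hc
    simp only [hy, List.head?_cons, Option.mem_def, Option.some.injEq] at hc
    rw [← hc]
  · rintro _ ⟨k, rfl⟩
    obtain ⟨⟨a, y⟩, h, -⟩ := (d.compl u).existsUnique k
    refine ⟨of (toSubgroupEquiv φ u a : G), ⟨_, rfl⟩, y, ?_⟩
    rw [← h, map_mul, ← mul_assoc, hθ]
    exact congrArg (· * of (y : G)) (instt_mul_of φ u a)
  · rintro _ ⟨k, rfl⟩ l l' h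
    have h1 : (instt_word u k l).prod φ = (instt_word u 1 l').prod φ := by
      rw [instt_word_prod, instt_word_prod, map_one, one_mul, ← hθ]
      exact h
    have h2 := congrArg (fun w : NormalWord d => w.toList) (NormalWord.prod_injective φ d h1)
    have h3 : Function.Injective fun y : d.set u => (u, y.1) := fun y y' e => Subtype.ext (Prod.ext_iff.1 e).2
    exact List.map_injective_iff.2 h3 h2

end Pool.Agent.MP_6674cc_al

/-! The Euclidean action of the groups `G(A, L')`. -/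

namespace Pool.Agent.MP_6674cc_al

open Matrix

theorem inste_den {J : Type} [Finite J] (f : J → ℚ) : ∃ D : ℕ, 0 < D ∧ ∀ j, ∃ z : ℤ, (z : ℚ) = D * f j := by
  classical
  have := Fintype.ofFinite J
  refine ⟨∏ j, (f j).den, Finset.prod_pos fun j _ => (f j).den_pos, fun j => ?_⟩
  obtain ⟨c, hc⟩ := Finset.dvd_prod_of_mem (fun j => (f j).den) (Finset.mem_univ j)
  refine ⟨c * (f j).num, ?_⟩
  rw [hc]
  push_cast
  rw [← Rat.den_mul_eq_num]
  ring

theorem inste_mul {n : ℕ} (A B : GL (Fin n) ℚ) (v : Fin n → ℚ) :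
    ((A * B : GL (Fin n) ℚ) : Matrix (Fin n) (Fin n) ℚ) *ᵥ v =
      (A : Matrix (Fin n) (Fin n) ℚ) *ᵥ (B : Matrix (Fin n) (Fin n) ℚ) *ᵥ v := by
  rw [Units.val_mul, mulVec_mulVec]

theorem inste_one {n : ℕ} (v : Fin n → ℚ) : ((1 : GL (Fin n) ℚ) : Matrix (Fin n) (Fin n) ℚ) *ᵥ v = v := by
  rw [Units.val_one, one_mulVec]

theorem inste_inj {n : ℕ} {x y : Multiplicative (Fin n → ℤ)}
    (h : (fun i => ((Multiplicative.toAdd x) i : ℚ)) = fun i => ((Multiplicative.toAdd y) i : ℚ)) : x = y := by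
  apply Multiplicative.toAdd.injective
  funext i
  exact_mod_cast congrFun h i

theorem inste_pow {n : ℕ} (x : Multiplicative (Fin n → ℤ)) (N : ℕ) :
    (fun i => ((Multiplicative.toAdd (x ^ N)) i : ℚ)) = (N : ℚ) • fun i => ((Multiplicative.toAdd x) i : ℚ) := by
  funext i
  simp [toAdd_pow]

/-- the image subgroup has finite index: if `D • A⁻¹` is integral and `m = L'.index` then `B` contains `m D ℤ ^ n` -/
theorem index_image {n : ℕ} (A : GL (Fin n) ℚ) (L' B : Subgroup (Multiplicative (Fin n → ℤ))) (φ : L' ≃* B)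
    (hL : L'.index ≠ 0)
    (hφ : ∀ x : L', (fun i => ((Multiplicative.toAdd (φ x : Multiplicative (Fin n → ℤ))) i : ℚ)) =
      (A : Matrix (Fin n) (Fin n) ℚ) *ᵥ fun j => ((Multiplicative.toAdd (x : Multiplicative (Fin n → ℤ))) j : ℚ)) :
    B.index ≠ 0 := by
  obtain ⟨D, hD, hz⟩ := inste_den
    (fun p : Fin n × Fin n => ((A⁻¹ : GL (Fin n) ℚ) : Matrix (Fin n) (Fin n) ℚ) p.1 p.2)
  choose z hz using hz
  have hN : L'.index * D ≠ 0 := Nat.mul_ne_zero hL hD.ne'
  have h1 := Subgroup.finiteIndex_range_powMonoidHom_of_fg (Multiplicative (Fin n → ℤ)) hN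
  have h2 : (powMonoidHom (L'.index * D) : Multiplicative (Fin n → ℤ) →* _).range ≤ B := by
    rintro _ ⟨y, rfl⟩
    let w : Multiplicative (Fin n → ℤ) :=
      Multiplicative.ofAdd fun i => ∑ j, z (i, j) * Multiplicative.toAdd y j
    have hw : (fun i => ((Multiplicative.toAdd w) i : ℚ)) = (D : ℚ) •
        (((A⁻¹ : GL (Fin n) ℚ) : Matrix (Fin n) (Fin n) ℚ) *ᵥ fun j => (Multiplicative.toAdd y j : ℚ)) := by
      funext i
      simp only [w, toAdd_ofAdd, Int.cast_sum, Int.cast_mul, hz, Pi.smul_apply, smul_eq_mul, mulVec,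
        dotProduct, Finset.mul_sum, mul_assoc]
    have h3 := hφ ⟨w ^ L'.index, L'.pow_index_mem w⟩
    rw [inste_pow, hw, mulVec_smul, mulVec_smul, ← inste_mul, mul_inv_cancel, inste_one, smul_smul,
      ← Nat.cast_mul, ← inste_pow] at h3
    rw [powMonoidHom_apply, ← inste_inj h3]
    exact (φ _).2
  exact (Subgroup.finiteIndex_of_le h2).index_ne_zero

theorem inste_zpow {n : ℕ} {E : Type} [NormedAddCommGroup E] [InnerProductSpace ℝ E] (F : (Fin n → ℚ) → E)
    (R : E ≃ₗᵢ[ℝ] E) (A : GL (Fin n) ℚ) (h : ∀ v, R (F v) = F ((A : Matrix (Fin n) (Fin n) ℚ) *ᵥ v)) (k : ℤ)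
    (v : Fin n → ℚ) : (R ^ k) (F v) = F (((A ^ k : GL (Fin n) ℚ) : Matrix (Fin n) (Fin n) ℚ) *ᵥ v) := by
  let S : Subgroup ((E ≃ₗᵢ[ℝ] E) × GL (Fin n) ℚ) :=
    { carrier := {p | ∀ v, p.1 (F v) = F ((p.2 : Matrix (Fin n) (Fin n) ℚ) *ᵥ v)}
      mul_mem' := by
        intro a b ha hb v
        rw [Prod.fst_mul, Prod.snd_mul, inste_mul, ← ha, ← hb]
        rfl
      one_mem' := by
        intro v
        rw [Prod.fst_one, Prod.snd_one, inste_one]
        rfl
      inv_mem' := by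
        intro a ha v
        apply a.1.injective
        rw [ha, Prod.snd_inv, ← inste_mul, mul_inv_cancel, inste_one]
        exact a.1.apply_symm_apply _ }
  exact S.zpow_mem (x := (R, A)) h k v

theorem inste_iso {n : ℕ} (Q : Matrix (Fin n) (Fin n) ℝ) (hQ : Q ∈ Matrix.orthogonalGroup (Fin n) ℝ) :
    ∃ R : EuclideanSpace ℝ (Fin n) ≃ₗᵢ[ℝ] EuclideanSpace ℝ (Fin n), ∀ v, R v = WithLp.toLp 2 (Q *ᵥ v.ofLp) := by
  have h1 : Qᵀ * Q = 1 := (Matrix.mem_orthogonalGroup_iff' _ _).1 hQ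
  let f : EuclideanSpace ℝ (Fin n) →ₗ[ℝ] EuclideanSpace ℝ (Fin n) := Matrix.toEuclideanLin Q
  have hf : ∀ v, f v = WithLp.toLp 2 (Q *ᵥ v.ofLp) := fun v => rfl
  have h2 : ∀ x y, inner ℝ (f x) (f y) = inner ℝ x y := by
    intro x y
    rw [hf, hf, EuclideanSpace.inner_eq_star_dotProduct, EuclideanSpace.inner_eq_star_dotProduct]
    simp only [star_trivial]
    rw [dotProduct_mulVec, vecMul_mulVec, h1, vecMul_one]
  exact ⟨(f.isometryOfInner h2).toLinearIsometryEquiv rfl, fun v => rfl⟩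

/-- `T = P`, `R` the isometry with matrix `(P A P⁻¹) ^ u`; `e` and `τ` come from `HNNExtension.lift` to
`Multiplicative ℤ` (`t ↦ u`) and to the permutations `v ↦ v + P x`, `v ↦ P A P⁻¹ v` of the Euclidean space, `τ g`
being the image of `0` (by `HNNExtension.induction_on`, `g` acts as `v ↦ R ^ (e g) v + τ g`). -/
theorem hnn_cocycle {n : ℕ} (A : GL (Fin n) ℚ) (L' B : Subgroup (Multiplicative (Fin n → ℤ))) (φ : L' ≃* B)
    (hφ : ∀ x : L', (fun i => ((Multiplicative.toAdd (φ x : Multiplicative (Fin n → ℤ))) i : ℚ)) =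
      (A : Matrix (Fin n) (Fin n) ℚ) *ᵥ fun j => ((Multiplicative.toAdd (x : Multiplicative (Fin n → ℤ))) j : ℚ))
    (P : GL (Fin n) ℝ)
    (hP : (P : Matrix (Fin n) (Fin n) ℝ) * (A : Matrix (Fin n) (Fin n) ℚ).map (fun a => (a : ℝ)) *
      ((P⁻¹ : GL (Fin n) ℝ) : Matrix (Fin n) (Fin n) ℝ) ∈ Matrix.orthogonalGroup (Fin n) ℝ) (u : ℤˣ) :
    ∃ (T : (Fin n → ℝ) ≃ₗ[ℝ] EuclideanSpace ℝ (Fin n)) (R : EuclideanSpace ℝ (Fin n) ≃ₗᵢ[ℝ] EuclideanSpace ℝ (Fin n))
      (e : HNNExtension (Multiplicative (Fin n → ℤ)) L' B φ → ℤ)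
      (τ : HNNExtension (Multiplicative (Fin n → ℤ)) L' B φ → EuclideanSpace ℝ (Fin n)),
      (∀ g h, e (g * h) = e g + e h) ∧ (∀ x, e (HNNExtension.of x) = 0) ∧ e (HNNExtension.t ^ (u : ℤ)) = 1 ∧
      (∀ g h, τ (g * h) = τ g + (R ^ e g) (τ h)) ∧
      (∀ x : Fin n → ℤ, τ (HNNExtension.of (Multiplicative.ofAdd x)) = T fun i => (x i : ℝ)) ∧
      ∀ (m : ℕ) (v : Fin n → ℚ), (R ^ m) (T fun i => (v i : ℝ)) =
        T fun i => ((((A ^ ((u : ℤ) * m) : GL (Fin n) ℚ) : Matrix (Fin n) (Fin n) ℚ) *ᵥ v) i : ℝ) := by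
  obtain ⟨R₀, hR₀⟩ := inste_iso _ hP
  let T : (Fin n → ℝ) ≃ₗ[ℝ] EuclideanSpace ℝ (Fin n) :=
    (Matrix.toLin'OfInv P.inv_mul P.mul_inv).trans (WithLp.linearEquiv 2 ℝ (Fin n → ℝ)).symm
  have hT : ∀ v, T v = WithLp.toLp 2 ((P : Matrix (Fin n) (Fin n) ℝ) *ᵥ v) := fun v => rfl
  have h1 : ∀ v : Fin n → ℚ, R₀ (T fun i => (v i : ℝ)) =
      T fun i => (((A : Matrix (Fin n) (Fin n) ℚ) *ᵥ v) i : ℝ) := by
    intro v
    rw [hR₀, hT, hT, mulVec_mulVec, mul_assoc, P.inv_mul, mul_one, ← mulVec_mulVec]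
    congr 2
    funext i
    simp [mulVec, dotProduct]
  let f : Multiplicative (Fin n → ℤ) →* Equiv.Perm (EuclideanSpace ℝ (Fin n)) :=
    { toFun := fun x => Equiv.addRight (T fun i => (Multiplicative.toAdd x i : ℝ))
      map_one' := by
        ext1 v
        have : (fun i => ((Multiplicative.toAdd (1 : Multiplicative (Fin n → ℤ)) i : ℤ) : ℝ)) = 0 := by
          funext i; simp
        rw [this, map_zero]
        simp
      map_mul' := by
        intro x y
        ext1 v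
        have : (fun i => ((Multiplicative.toAdd (x * y) i : ℤ) : ℝ)) =
            (fun i => ((Multiplicative.toAdd y i : ℤ) : ℝ)) + fun i => ((Multiplicative.toAdd x i : ℤ) : ℝ) := by
          funext i; simp [add_comm]
        rw [this, map_add]
        simp [add_assoc] }
  have hf : ∀ x v, f x v = v + T fun i => (Multiplicative.toAdd x i : ℝ) := fun x v => rfl
  have h2 : ∀ a : L', R₀.toEquiv * f a = f (φ a : Multiplicative (Fin n → ℤ)) * R₀.toEquiv := by
    intro a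
    ext1 v
    have h3 := h1 fun i => (Multiplicative.toAdd (a : Multiplicative (Fin n → ℤ)) i : ℚ)
    rw [← hφ a] at h3
    simp only [Rat.cast_intCast] at h3
    change R₀ (f a v) = f _ (R₀ v)
    rw [hf, hf, map_add, h3]
  let ρ := HNNExtension.lift (φ := φ) f R₀.toEquiv h2
  let ε := HNNExtension.lift (φ := φ) (1 : Multiplicative (Fin n → ℤ) →* Multiplicative ℤ)
    (Multiplicative.ofAdd (u : ℤ)) (by simp)
  have huu : (u : ℤ) * u = 1 := by rw [← Units.val_mul, Int.units_mul_self, Units.val_one]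
  have he : ∀ g h, Multiplicative.toAdd (ε (g * h)) = Multiplicative.toAdd (ε g) + Multiplicative.toAdd (ε h) := by
    intro g h
    rw [map_mul, toAdd_mul]
  have key : ∀ g v w, ρ g v - ρ g w = ((R₀ ^ (u : ℤ)) ^ Multiplicative.toAdd (ε g)) (v - w) := by
    intro g
    induction g using HNNExtension.induction_on with
    | of x =>
      intro v w
      simp only [ρ, ε, HNNExtension.lift_of, hf, MonoidHom.one_apply, toAdd_one, zpow_zero]
      simp
    | t =>
      intro v w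
      simp only [ρ, ε, HNNExtension.lift_t, toAdd_ofAdd]
      rw [← _root_.zpow_mul, huu, zpow_one, map_sub]
      rfl
    | mul x y hx hy =>
      intro v w
      rw [he, _root_.zpow_add, map_mul, Equiv.Perm.mul_apply, Equiv.Perm.mul_apply, hx, hy]
      rfl
    | inv x hx =>
      intro v w
      have h3 := hx (ρ x⁻¹ v) (ρ x⁻¹ w)
      rw [← Equiv.Perm.mul_apply, ← Equiv.Perm.mul_apply, ← map_mul, mul_inv_cancel, map_one,
        Equiv.Perm.one_apply, Equiv.Perm.one_apply] at h3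
      rw [h3, map_inv ε, toAdd_inv, _root_.zpow_neg]
      exact (LinearIsometryEquiv.symm_apply_apply _ _).symm
  refine ⟨T, R₀ ^ (u : ℤ), fun g => Multiplicative.toAdd (ε g), fun g => ρ g 0, he, ?_, ?_, ?_, ?_, ?_⟩
  · intro x
    simp only [ε, HNNExtension.lift_of, MonoidHom.one_apply, toAdd_one]
  · simp only [ε, map_zpow, HNNExtension.lift_t, toAdd_zpow, toAdd_ofAdd, smul_eq_mul, huu]
  · intro g h
    have h3 := key g (ρ h 0) 0
    rw [sub_zero] at h3
    simp only [map_mul, Equiv.Perm.mul_apply]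
    rw [← h3, add_sub_cancel]
  · intro x
    simp only [ρ, HNNExtension.lift_of, hf, zero_add, toAdd_ofAdd]
  · intro m v
    rw [← _root_.zpow_natCast, ← _root_.zpow_mul]
    exact inste_zpow (fun v => T fun i => (v i : ℝ)) R₀ A h1 _ v

theorem inste_fix {n : ℕ} (g : GL (Fin n) ℚ) (x : Fin n → ℚ) (h : (g : Matrix (Fin n) (Fin n) ℚ) *ᵥ x = x) (j : ℤ) :
    ((g ^ j : GL (Fin n) ℚ) : Matrix (Fin n) (Fin n) ℚ) *ᵥ x = x := by
  let S : Subgroup (GL (Fin n) ℚ) :=
    { carrier := {p | (p : Matrix (Fin n) (Fin n) ℚ) *ᵥ x = x}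
      mul_mem' := by
        intro a b ha hb
        rw [Set.mem_ofPred_eq] at ha hb ⊢
        rw [inste_mul, hb, ha]
      one_mem' := inste_one x
      inv_mem' := by
        intro a ha
        rw [Set.mem_ofPred_eq] at ha ⊢
        conv_lhs => rw [← ha]
        rw [← inste_mul, inv_mul_cancel, inste_one] }
  exact S.zpow_mem (x := g) h j

/-- For a periodic `x` choose `D` such that the finitely many vectors `D • A ^ i x` are integral and lie in `L' ⊓ B`;
their set is stable under conjugation by `of g`, `t`, `t⁻¹` (`HNNExtension.induction_on`, `t_mul_of`). -/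
theorem hnn_core {n : ℕ} (A : GL (Fin n) ℚ) (L' B : Subgroup (Multiplicative (Fin n → ℤ))) (φ : L' ≃* B)
    (hL : L'.index ≠ 0)
    (hφ : ∀ x : L', (fun i => ((Multiplicative.toAdd (φ x : Multiplicative (Fin n → ℤ))) i : ℚ)) =
      (A : Matrix (Fin n) (Fin n) ℚ) *ᵥ fun j => ((Multiplicative.toAdd (x : Multiplicative (Fin n → ℤ))) j : ℚ))
    (x : Fin n → ℤ) (m : ℕ) (hm : 0 < m)
    (hx : ((A ^ m : GL (Fin n) ℚ) : Matrix (Fin n) (Fin n) ℚ) *ᵥ (fun j => (x j : ℚ)) = fun j => (x j : ℚ)) :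
    ∃ D : ℕ, 0 < D ∧ (HNNExtension.of (Multiplicative.ofAdd x) : HNNExtension _ L' B φ) ^ D ∈
      (HNNExtension.of : _ →* HNNExtension (Multiplicative (Fin n → ℤ)) L' B φ).range.normalCore := by
  have hB := index_image A L' B φ hL hφ
  obtain ⟨D, hD, hz⟩ := inste_den (fun p : Fin m × Fin n =>
    (((A ^ ((p.1 : ℕ) : ℤ) : GL (Fin n) ℚ) : Matrix (Fin n) (Fin n) ℚ) *ᵥ fun j => (x j : ℚ)) p.2)
  choose z hz using hz
  let Ω : Multiplicative (Fin n → ℤ) → Prop := fun y => ∃ k : ℤ, (fun i => ((Multiplicative.toAdd y) i : ℚ)) =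
    ((L'.index * B.index * D : ℕ) : ℚ) •
      (((A ^ k : GL (Fin n) ℚ) : Matrix (Fin n) (Fin n) ℚ) *ᵥ fun j => (x j : ℚ))
  have hm' : (0 : ℤ) < m := by exact_mod_cast hm
  have h1 : ∀ y, Ω y → y ∈ L' ∧ y ∈ B := by
    rintro y ⟨k, hk⟩
    have h2 := Int.emod_nonneg k hm'.ne'
    have h3 := Int.emod_lt_of_pos k hm'
    let r : Fin m := ⟨(k % m).toNat, by omega⟩
    have hr : ((r : ℕ) : ℤ) = k % m := Int.toNat_of_nonneg h2
    have h4 : A ^ k = A ^ ((r : ℕ) : ℤ) * (A ^ m) ^ (k / m) := by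
      rw [← _root_.zpow_natCast A m, ← _root_.zpow_mul, ← _root_.zpow_add, hr, Int.emod_add_mul_ediv]
    let w : Multiplicative (Fin n → ℤ) := Multiplicative.ofAdd fun i => z (r, i)
    have hw : (fun i => ((Multiplicative.toAdd w) i : ℚ)) = (D : ℚ) •
        (((A ^ ((r : ℕ) : ℤ) : GL (Fin n) ℚ) : Matrix (Fin n) (Fin n) ℚ) *ᵥ fun j => (x j : ℚ)) := by
      funext i
      simp only [w, toAdd_ofAdd, hz, Pi.smul_apply, smul_eq_mul]
    rw [h4, inste_mul, inste_fix _ _ hx, Nat.cast_mul, ← smul_smul, ← hw, ← inste_pow] at hk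
    rw [inste_inj hk]
    constructor
    · rw [mul_comm, pow_mul]
      exact L'.pow_index_mem _
    · rw [pow_mul]
      exact B.pow_index_mem _
  have key : ∀ b : HNNExtension _ L' B φ,
      (∀ y, Ω y → ∃ y', Ω y' ∧ b * HNNExtension.of y * b⁻¹ = HNNExtension.of y') ∧
      ∀ y, Ω y → ∃ y', Ω y' ∧ b⁻¹ * HNNExtension.of y * b = HNNExtension.of y' := by
    intro b
    induction b using HNNExtension.induction_on with
    | of g =>
      refine ⟨fun y hy => ⟨y, hy, ?_⟩, fun y hy => ⟨y, hy, ?_⟩⟩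
      · rw [← map_inv, ← map_mul, ← map_mul, mul_inv_cancel_comm]
      · rw [← map_inv, ← map_mul, ← map_mul, inv_mul_cancel_comm]
    | t =>
      refine ⟨fun y hy => ?_, fun y hy => ?_⟩
      · refine ⟨φ ⟨y, (h1 y hy).1⟩, ?_, (HNNExtension.equiv_eq_conj ⟨y, (h1 y hy).1⟩).symm⟩
        obtain ⟨k, hk⟩ := hy
        refine ⟨1 + k, ?_⟩
        rw [hφ, _root_.zpow_add, zpow_one, inste_mul, ← mulVec_smul, ← hk]
      · have hyB := (h1 y hy).2
        refine ⟨φ.symm ⟨y, hyB⟩, ?_, (HNNExtension.equiv_symm_eq_conj ⟨y, hyB⟩).symm⟩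
        have h2 := hφ (φ.symm ⟨y, hyB⟩)
        rw [MulEquiv.apply_symm_apply] at h2
        obtain ⟨k, hk⟩ := hy
        refine ⟨-1 + k, ?_⟩
        rw [_root_.zpow_add, _root_.zpow_neg_one, inste_mul, ← mulVec_smul, ← hk, h2, ← inste_mul, inv_mul_cancel, inste_one]
    | mul a b ha hb =>
      refine ⟨fun y hy => ?_, fun y hy => ?_⟩
      · obtain ⟨y₁, g1, g2⟩ := hb.1 y hy
        obtain ⟨y₂, g3, g4⟩ := ha.1 y₁ g1
        exact ⟨y₂, g3, by rw [← g4, ← g2]; group⟩
      · obtain ⟨y₁, g1, g2⟩ := ha.2 y hy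
        obtain ⟨y₂, g3, g4⟩ := hb.2 y₁ g1
        exact ⟨y₂, g3, by rw [← g4, ← g2]; group⟩
    | inv a ha =>
      rw [inv_inv]
      exact ⟨ha.2, ha.1⟩
  refine ⟨L'.index * B.index * D, Nat.mul_pos (Nat.pos_of_ne_zero (Nat.mul_ne_zero hL hB)) hD, fun b => ?_⟩
  obtain ⟨y, -, hy⟩ := (key b).1 (Multiplicative.ofAdd x ^ (L'.index * B.index * D))
    ⟨0, by rw [inste_pow, zpow_zero, inste_one]; rfl⟩
  exact ⟨y, by rw [← hy, map_pow]⟩

end Pool.Agent.MP_6674cc_al

/-! The HNN extensions `G(A, L')` and their products with `ℤ ^ k` are setups. -/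

namespace Pool.Agent.MP_6674cc_al

open Matrix

theorem insta_sign {n : ℕ} (A : GL (Fin n) ℚ) (u : ℤˣ) (m : ℕ) (v : Fin n → ℚ) :
    ((A ^ ((u : ℤ) * m) : GL (Fin n) ℚ) : Matrix (Fin n) (Fin n) ℚ) *ᵥ v = v ↔
      ((A ^ m : GL (Fin n) ℚ) : Matrix (Fin n) (Fin n) ℚ) *ᵥ v = v := by
  rcases Int.units_eq_one_or u with rfl | rfl
  · rw [Units.val_one, one_mul, zpow_natCast]
  · rw [Units.val_neg, Units.val_one, neg_one_mul, _root_.zpow_neg, zpow_natCast]
    generalize A ^ m = C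
    constructor
    · intro h
      conv_lhs => rw [← h]
      rw [mulVec_mulVec, Units.mul_inv, one_mulVec]
    · intro h
      conv_lhs => rw [← h]
      rw [mulVec_mulVec, Units.inv_mul, one_mulVec]

theorem insta_key {n : ℕ} {A : GL (Fin n) ℚ} {u : ℤˣ} {T : (Fin n → ℝ) ≃ₗ[ℝ] EuclideanSpace ℝ (Fin n)}
    {R : EuclideanSpace ℝ (Fin n) ≃ₗᵢ[ℝ] EuclideanSpace ℝ (Fin n)}
    (hR : ∀ (m : ℕ) (v : Fin n → ℚ), (R ^ m) (T fun i => (v i : ℝ)) =
      T fun i => ((((A ^ ((u : ℤ) * m) : GL (Fin n) ℚ) : Matrix (Fin n) (Fin n) ℚ) *ᵥ v) i : ℝ))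
    (m : ℕ) (x : Fin n → ℤ) :
    (R ^ m) (T fun i => (x i : ℝ)) = T (fun i => (x i : ℝ)) ↔
      ((A ^ m : GL (Fin n) ℚ) : Matrix (Fin n) (Fin n) ℚ) *ᵥ (fun j => (x j : ℚ)) = fun j => (x j : ℚ) := by
  have e : (fun i => (x i : ℝ)) = fun i => (((x i : ℚ)) : ℝ) := funext fun i => (Rat.cast_intCast _).symm
  rw [← insta_sign A u, e, hR m fun j => (x j : ℚ), T.injective.eq_iff, funext_iff, funext_iff]
  exact forall_congr' fun i => Rat.cast_inj

/-- Assemble `hnn_tree`, `hnn_cocycle`, `hnn_core` (`I = Fin n`, `ι = of`).  If all lattice vectors are periodic then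
they have a common period `m` (`exists_period`) and `A ^ (u m)` fixes the unit vectors. -/
theorem exists_setup_hnn {n : ℕ} (A : GL (Fin n) ℚ) (L' B : Subgroup (Multiplicative (Fin n → ℤ))) (φ : L' ≃* B)
    (hL : L'.index ≠ 0)
    (hφ : ∀ x : L', (fun i => ((Multiplicative.toAdd (φ x : Multiplicative (Fin n → ℤ))) i : ℚ)) =
      (A : Matrix (Fin n) (Fin n) ℚ) *ᵥ fun j => ((Multiplicative.toAdd (x : Multiplicative (Fin n → ℤ))) j : ℚ))
    (P : GL (Fin n) ℝ)
    (hP : (P : Matrix (Fin n) (Fin n) ℝ) * (A : Matrix (Fin n) (Fin n) ℚ).map (fun a => (a : ℝ)) *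
      ((P⁻¹ : GL (Fin n) ℝ) : Matrix (Fin n) (Fin n) ℝ) ∈ Matrix.orthogonalGroup (Fin n) ℝ) (u : ℤˣ) :
    ∃ S : Setup (HNNExtension (Multiplicative (Fin n → ℤ)) L' B φ),
      S.L = (HNNExtension.of : _ →* HNNExtension (Multiplicative (Fin n → ℤ)) L' B φ).range ∧
      S.t = HNNExtension.t ^ (u : ℤ) ∧ ((∀ x, S.Per (S.vec x)) ↔ IsOfFinOrder A) := by
  obtain ⟨β, Λ, Up, Y, fY, rep, a1, a2, a3, a4, a5, a6, a7, a8, a9, a10⟩ :=
    hnn_tree L' B φ hL (index_image A L' B φ hL hφ) u _ rfl _ rfl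
  obtain ⟨T, R, e, τ, b1, b2, b3, b4, b5, b6⟩ := hnn_cocycle A L' B φ hφ P hP u
  let S : Setup (HNNExtension (Multiplicative (Fin n → ℤ)) L' B φ) :=
    { I := Fin n, ι := HNNExtension.of, t := HNNExtension.t ^ (u : ℤ), T := T, R := R, e := e, e_mul := b1,
      e_ι := b2, e_t := b3, τ := τ, τ_mul := b4, τ_ι := b5, β := β, Λ := Λ, Λ_one := a1, Λ_eq := a2,
      step := a3, parent := a4, letters := a5, Up := Up, up_nil := a6, up_step := a7, Y := Y, rep := rep,
      rep_mem := a8, asc_step := a9, asc_inj := a10,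
      core := by
        rintro _ ⟨x, rfl⟩ ⟨m, hm, h⟩
        have h5 := b5 (Multiplicative.toAdd x)
        rw [ofAdd_toAdd] at h5
        rw [h5] at h
        exact hnn_core A L' B φ hL hφ (Multiplicative.toAdd x) m hm ((insta_key b6 m _).1 h) }
  refine ⟨S, rfl, rfl, fun h => ?_, fun h x => ?_⟩
  · obtain ⟨m, hm, hp⟩ := S.exists_period
    refine isOfFinOrder_iff_pow_eq_one.2 ⟨m, hm, Units.ext (Matrix.ext fun i j => ?_)⟩
    have h1 := congrFun ((insta_key b6 m (Pi.single j 1)).1 (hp _ (h (Pi.single j 1)))) i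
    have e1 : (fun k => ((Pi.single j 1 : Fin n → ℤ) k : ℚ)) = Pi.single j 1 := by
      funext k
      by_cases hk : k = j <;> simp [hk]
    rw [e1, mulVec_single_one, Matrix.col_apply] at h1
    rw [h1, Units.val_one, Matrix.one_apply, Pi.single_apply]
    split_ifs <;> simp
  · obtain ⟨m, hm, h1⟩ := isOfFinOrder_iff_pow_eq_one.1 h
    exact ⟨m, hm, (insta_key b6 m x).2 (by rw [h1, Units.val_one, one_mulVec])⟩

end Pool.Agent.MP_6674cc_al

/-! The HNN extensions `G(A, L')` and their products with `ℤ ^ k` are setups. -/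

namespace Pool.Agent.MP_6674cc_al

open Matrix

section
variable {I J : Type}

/-- concatenation of a Euclidean vector and further coordinates -/
def inst_join (v : EuclideanSpace ℝ I) (w : J → ℝ) : EuclideanSpace ℝ (I ⊕ J) :=
  WithLp.toLp 2 (Sum.elim (fun i => v i) w)

/-- the first block of coordinates -/
def inst_left (v : EuclideanSpace ℝ (I ⊕ J)) : EuclideanSpace ℝ I := WithLp.toLp 2 fun i => v (Sum.inl i)

@[simp] theorem inst_join_inl (v : EuclideanSpace ℝ I) (w : J → ℝ) (i : I) : inst_join v w (Sum.inl i) = v i := rfl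

@[simp] theorem inst_join_inr (v : EuclideanSpace ℝ I) (w : J → ℝ) (j : J) : inst_join v w (Sum.inr j) = w j := rfl

@[simp] theorem inst_left_apply (v : EuclideanSpace ℝ (I ⊕ J)) (i : I) : inst_left v i = v (Sum.inl i) := rfl

@[simp] theorem inst_left_join (v : EuclideanSpace ℝ I) (w : J → ℝ) : inst_left (inst_join v w) = v := rfl

theorem inst_join_left (v : EuclideanSpace ℝ (I ⊕ J)) : inst_join (inst_left v) (fun j => v (Sum.inr j)) = v := by
  ext i
  cases i <;> rfl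

theorem inst_left_add (v w : EuclideanSpace ℝ (I ⊕ J)) : inst_left (v + w) = inst_left v + inst_left w := rfl

theorem inst_left_smul (c : ℝ) (v : EuclideanSpace ℝ (I ⊕ J)) : inst_left (c • v) = c • inst_left v := rfl

theorem inst_join_add (v v' : EuclideanSpace ℝ I) (w w' : J → ℝ) :
    inst_join (v + v') (w + w') = inst_join v w + inst_join v' w' := by
  ext i
  cases i <;> rfl

theorem inst_join_smul (c : ℝ) (v : EuclideanSpace ℝ I) (w : J → ℝ) :
    inst_join (c • v) (c • w) = c • inst_join v w := by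
  ext i
  cases i <;> rfl

/-- a linear equivalence extended by the identity -/
def inst_extT (T : (I → ℝ) ≃ₗ[ℝ] EuclideanSpace ℝ I) : (I ⊕ J → ℝ) ≃ₗ[ℝ] EuclideanSpace ℝ (I ⊕ J) where
  toFun x := inst_join (T fun i => x (Sum.inl i)) fun j => x (Sum.inr j)
  invFun v := Sum.elim (T.symm (inst_left v)) fun j => v (Sum.inr j)
  map_add' x y := by
    rw [← inst_join_add, ← map_add]
    rfl
  map_smul' c x := by
    rw [RingHom.id_apply, ← inst_join_smul, ← map_smul]
    rfl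
  left_inv x := by
    funext i
    cases i with
    | inl i => simp
    | inr j => rfl
  right_inv v := by
    have h : (fun i => Sum.elim (T.symm (inst_left v)) (fun j => v (Sum.inr j)) (Sum.inl i)) =
        T.symm (inst_left v) := rfl
    simp only [h, LinearEquiv.apply_symm_apply]
    exact inst_join_left v

theorem inst_extT_apply (T : (I → ℝ) ≃ₗ[ℝ] EuclideanSpace ℝ I) (x : I ⊕ J → ℝ) :
    inst_extT T x = inst_join (T fun i => x (Sum.inl i)) fun j => x (Sum.inr j) := rfl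

variable [Fintype I] [Fintype J]

theorem inst_norm_join (v : EuclideanSpace ℝ I) (w : J → ℝ) : ‖inst_join v w‖ ^ 2 = ‖v‖ ^ 2 + ∑ j, ‖w j‖ ^ 2 := by
  rw [EuclideanSpace.norm_sq_eq, EuclideanSpace.norm_sq_eq, Fintype.sum_sum_type]
  rfl

/-- an isometry extended by the identity -/
noncomputable def inst_extR (f : EuclideanSpace ℝ I ≃ₗᵢ[ℝ] EuclideanSpace ℝ I) :
    EuclideanSpace ℝ (I ⊕ J) ≃ₗᵢ[ℝ] EuclideanSpace ℝ (I ⊕ J) where
  toFun v := inst_join (f (inst_left v)) fun j => v (Sum.inr j)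
  invFun v := inst_join (f.symm (inst_left v)) fun j => v (Sum.inr j)
  map_add' v w := by
    rw [← inst_join_add, ← map_add]
    rfl
  map_smul' c v := by
    rw [RingHom.id_apply, ← inst_join_smul, ← map_smul]
    rfl
  left_inv v := by
    simp only [inst_left_join, inst_join_inr, LinearIsometryEquiv.symm_apply_apply]
    exact inst_join_left v
  right_inv v := by
    simp only [inst_left_join, inst_join_inr, LinearIsometryEquiv.apply_symm_apply]
    exact inst_join_left v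
  norm_map' v := by
    have h1 : ‖inst_join (f (inst_left v)) fun j => v (Sum.inr j)‖ ^ 2 = ‖v‖ ^ 2 := by
      rw [inst_norm_join, f.norm_map, ← inst_norm_join, inst_join_left]
    exact (pow_left_inj₀ (norm_nonneg _) (norm_nonneg _) two_ne_zero).1 h1

theorem inst_extR_apply (f : EuclideanSpace ℝ I ≃ₗᵢ[ℝ] EuclideanSpace ℝ I) (v : EuclideanSpace ℝ (I ⊕ J)) :
    inst_extR f v = inst_join (f (inst_left v)) fun j => v (Sum.inr j) := rfl

/-- extension by the identity is multiplicative -/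
noncomputable def inst_extH : (EuclideanSpace ℝ I ≃ₗᵢ[ℝ] EuclideanSpace ℝ I) →*
    (EuclideanSpace ℝ (I ⊕ J) ≃ₗᵢ[ℝ] EuclideanSpace ℝ (I ⊕ J)) :=
  MonoidHom.mk' inst_extR fun _ _ => LinearIsometryEquiv.ext fun _ => rfl

theorem inst_zpow_join (f : EuclideanSpace ℝ I ≃ₗᵢ[ℝ] EuclideanSpace ℝ I) (n : ℤ) (v : EuclideanSpace ℝ I)
    (w : J → ℝ) : ((inst_extH f : EuclideanSpace ℝ (I ⊕ J) ≃ₗᵢ[ℝ] EuclideanSpace ℝ (I ⊕ J)) ^ n) (inst_join v w) =
      inst_join ((f ^ n) v) w := by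
  rw [← map_zpow]
  rfl

theorem inst_pow_join (f : EuclideanSpace ℝ I ≃ₗᵢ[ℝ] EuclideanSpace ℝ I) (n : ℕ) (v : EuclideanSpace ℝ I)
    (w : J → ℝ) : ((inst_extH f : EuclideanSpace ℝ (I ⊕ J) ≃ₗᵢ[ℝ] EuclideanSpace ℝ (I ⊕ J)) ^ n) (inst_join v w) =
      inst_join ((f ^ n) v) w := by
  rw [← map_pow]
  rfl

end

/-- the lattice of the product -/
def inst_iota {Γ I J : Type} [Group Γ] (ι : Multiplicative (I → ℤ) →* Γ) :
    Multiplicative (I ⊕ J → ℤ) →* Γ × Multiplicative (J → ℤ) :=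
  MonoidHom.mk' (fun x => (ι (Multiplicative.ofAdd fun i => Multiplicative.toAdd x (Sum.inl i)),
    Multiplicative.ofAdd fun j => Multiplicative.toAdd x (Sum.inr j))) fun x y => by
      rw [Prod.mk_mul_mk, ← map_mul]
      rfl

theorem inst_mem_iota {Γ I J : Type} [Group Γ] (ι : Multiplicative (I → ℤ) →* Γ) (g : Γ × Multiplicative (J → ℤ)) :
    g ∈ (inst_iota (J := J) ι).range ↔ g.1 ∈ ι.range := by
  constructor
  · rintro ⟨x, rfl⟩
    exact ⟨_, rfl⟩
  · rintro ⟨x, hx⟩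
    exact ⟨Multiplicative.ofAdd (Sum.elim (Multiplicative.toAdd x) (Multiplicative.toAdd g.2)), Prod.ext hx rfl⟩

theorem inst_fst_prod {Γ H Y : Type} [Group Γ] [Group H] (t : Γ) (r : Y → Γ) (l : List Y) :
    ((l.map fun y => ((t, 1) : Γ × H) * (r y, 1)).prod).1 = (l.map fun y => t * r y).prod := by
  induction l with
  | nil => rfl
  | cons y l ih =>
    rw [List.map_cons, List.prod_cons, List.map_cons, List.prod_cons, Prod.fst_mul, ih]
    rfl

/-- the product setup -/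
noncomputable def inst_prod {Γ : Type} [Group Γ] (S : Setup Γ) (k : ℕ) : Setup (Γ × Multiplicative (Fin k → ℤ)) where
  I := S.I ⊕ Fin k
  ι := inst_iota S.ι
  t := (S.t, 1)
  T := inst_extT S.T
  R := inst_extH S.R
  e g := S.e g.1
  e_mul g h := S.e_mul g.1 h.1
  e_ι _ := S.e_ι _
  e_t := S.e_t
  τ g := inst_join (S.τ g.1) fun j => (Multiplicative.toAdd g.2 j : ℝ)
  τ_mul g h := by
    rw [inst_zpow_join, ← inst_join_add, Prod.fst_mul, S.τ_mul]
    congr 1
    funext j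
    simp
  τ_ι x := by
    rw [inst_extT_apply, ← S.τ_ι fun i => x (Sum.inl i)]
    rfl
  β := S.β
  Λ g := S.Λ g.1
  Λ_one := S.Λ_one
  Λ_eq g h := by
    rw [inst_mem_iota]
    exact S.Λ_eq g.1 h.1
  step g a ha := by
    refine S.step g.1 a.1 ?_
    rcases ha with rfl | rfl
    · exact Or.inl rfl
    · exact Or.inr rfl
  parent g c l h := by
    obtain ⟨g', a, ha, h1, h2⟩ := S.parent g.1 c l h
    refine ⟨(g', 1), (a, 1), ?_, h1, (inst_mem_iota _ _).2 h2⟩
    rcases ha with rfl | rfl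
    · exact Or.inl rfl
    · exact Or.inr (Prod.ext rfl inv_one.symm)
  letters := by
    obtain ⟨s, hs, h⟩ := S.letters
    exact ⟨s, hs, fun g => h g.1⟩
  Up := S.Up
  up_nil := S.up_nil
  up_step g h := S.up_step g.1 h
  Y := S.Y
  rep y := (S.rep y, 1)
  rep_mem y := (inst_mem_iota _ _).2 (S.rep_mem y)
  asc_step x hx := by
    obtain ⟨x', hx', y, h⟩ := S.asc_step x.1 ((inst_mem_iota _ _).1 hx)
    exact ⟨(x', x.2), (inst_mem_iota _ _).2 hx', y, Prod.ext h (by simp)⟩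
  asc_inj x hx l l' h := by
    refine S.asc_inj x.1 ((inst_mem_iota _ _).1 hx) l l' ?_
    have h1 := congrArg Prod.fst h
    rwa [Prod.fst_mul, inst_fst_prod, inst_fst_prod] at h1
  core x hx h := by
    obtain ⟨m, hm, h⟩ := h
    rw [inst_pow_join] at h
    obtain ⟨D, hD, h1⟩ := S.core x.1 ((inst_mem_iota _ _).1 hx) ⟨m, hm, congrArg inst_left h⟩
    exact ⟨D, hD, fun b => (inst_mem_iota _ _).2 (h1 b.1)⟩

theorem inst_per {Γ : Type} [Group Γ] (S : Setup Γ) (k : ℕ) (x : S.I ⊕ Fin k → ℤ) :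
    (inst_prod S k).Per ((inst_prod S k).vec x) ↔ S.Per (S.vec fun i => x (Sum.inl i)) := by
  have h0 : ∀ m : ℕ, ((inst_prod S k).R ^ m) ((inst_prod S k).vec x) =
      inst_join ((S.R ^ m) (S.vec fun i => x (Sum.inl i))) fun j => (x (Sum.inr j) : ℝ) :=
    fun m => inst_pow_join S.R m _ _
  constructor
  · rintro ⟨m, hm, h⟩
    rw [h0] at h
    exact ⟨m, hm, congrArg inst_left h⟩
  · rintro ⟨m, hm, h⟩
    refine ⟨m, hm, ?_⟩
    rw [h0, h]
    rfl

/-- Product with `ℤ ^ k`: `I ⊕ Fin k`, stacks and exponents of the first coordinate, `R` extended by the identity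
(`EuclideanSpace ℝ (I ⊕ Fin k)` splits isometrically). -/
theorem exists_setup_prod {Γ : Type} [Group Γ] (S : Setup Γ) (k : ℕ) :
    ∃ S' : Setup (Γ × Multiplicative (Fin k → ℤ)), S'.L = S.L.prod ⊤ ∧ S'.t = (S.t, 1) ∧
      ((∀ x, S'.Per (S'.vec x)) ↔ ∀ x, S.Per (S.vec x)) := by
  refine ⟨inst_prod S k, ?_, rfl, fun h x => ?_, fun h x => (inst_per S k x).2 (h _)⟩
  · ext g
    rw [Subgroup.mem_prod]
    exact (inst_mem_iota S.ι g).trans ⟨fun h => ⟨h, trivial⟩, fun h => h.1⟩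
  · exact (inst_per S k (Sum.elim x 0)).1 (h _)

/-- if `t` normalises the lattice, orbits of lattice vectors are finite -/
theorem periodic_of_normal {Γ : Type} [Group Γ] (S : Setup Γ) (h : ∀ x ∈ S.L, S.t * x * S.t⁻¹ ∈ S.L)
    (x : S.I → ℤ) : S.Per (S.vec x) := by
  have h1 : ∀ y, ∃ y', S.vec y' = S.R (S.vec y) := by
    intro y
    obtain ⟨y', hy'⟩ := S.mem_L.1 (h _ (S.io_mem y))
    refine ⟨y', ?_⟩
    rw [← S.τ_io, hy', S.τ_conj _ (S.e_L (S.io_mem y)), S.e_t, zpow_one, S.τ_io]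
  have h2 : ∀ n : ℕ, ∃ y, S.vec y = (S.R ^ n) (S.vec x) := by
    intro n
    induction n with
    | zero => exact ⟨x, rfl⟩
    | succ n ih =>
      obtain ⟨y, hy⟩ := ih
      obtain ⟨y', hy'⟩ := h1 y
      exact ⟨y', by rw [hy', hy, pow_succ']; rfl⟩
  choose f hf using h2
  have h3 : ∀ n, f n ∈ {y | ‖S.vec y‖ ≤ ‖S.vec x‖} := fun n => by
    rw [Set.mem_ofPred_eq, hf, LinearIsometryEquiv.norm_map]
  obtain ⟨a, b, hab, he⟩ := (S.finite_lattice_ball ‖S.vec x‖).exists_lt_map_eq_of_forall_mem h3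
  refine ⟨b - a, Nat.sub_pos_of_lt hab, (S.R ^ a).injective ?_⟩
  have h4 : S.R ^ b = S.R ^ a * S.R ^ (b - a) := by rw [← pow_add, Nat.add_sub_cancel' hab.le]
  have h5 : (S.R ^ b) (S.vec x) = (S.R ^ a) (S.vec x) := by rw [← hf, ← hf, he]
  rw [← h5, h4]
  rfl

end Pool.Agent.MP_6674cc_al

end

-- part MP_6674cc_al.Main
section

/-! Assembly. -/

namespace Pool.Agent.MP_6674cc_al

open Matrix

theorem periodic_of_automatic {Γ : Type} [Group Γ] (S : Setup Γ) (hbr : S.Branch) (h : IsAutomatic Γ)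
    (x : S.I → ℤ) : S.Per (S.vec x) := by
  obtain ⟨s⟩ := str_of_automatic h
  obtain ⟨s₁, h₁⟩ := str_subdivide S.GoodEl (Or.inl S.L.one_mem) S.gen_good s
  obtain ⟨Z, hZ, s₂, h₂, h₃⟩ := remove_all S s₁ h₁
  obtain ⟨M, hM⟩ := climb S s₂ hZ h₂ hbr h₃
  exact periodic_of_climb S s₂ hZ h₂ hM x

theorem conv_map {X Y : Type} (f : X → Y) (u v : List X) :
    (conv u v).map (Prod.map (Option.map f) (Option.map f)) = conv (u.map f) (v.map f) := by
  simp [conv, Function.comp_def]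

theorem IsAutomatic.of_equiv {G H : Type} [Group G] [Group H] (e : G ≃* H) (h : IsAutomatic G) : IsAutomatic H := by
  classical
  obtain ⟨A, L, h1, h2, h3, h4, h5⟩ := h
  let f : A → A.image e := fun a => ⟨e a, Finset.mem_image_of_mem _ a.2⟩
  have hf : ∀ w : List A, evalWord (w.map f) = e (evalWord w) := fun w => by
    simp [evalWord, map_list_prod, Function.comp_def, f]
  refine ⟨A.image e, {w | ∃ k ∈ L, k.map f = w}, fun a ha => ?_, ?_, regular_map h3 f, fun g => ?_, fun a ha => ?_⟩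
  · obtain ⟨b, hb, rfl⟩ := Finset.mem_image.1 ha
    exact Finset.mem_image.2 ⟨b⁻¹, h1 b hb, map_inv e b⟩
  · rw [Finset.coe_image, ← MulEquiv.coe_toMonoidHom, ← MonoidHom.map_closure, h2]
    exact Subgroup.map_top_of_surjective _ e.surjective
  · obtain ⟨w, hw, he⟩ := h4 (e.symm g)
    exact ⟨_, ⟨w, hw, rfl⟩, by rw [hf, he, e.apply_symm_apply]⟩
  · obtain ⟨b, rfl⟩ := e.surjective a
    have hb : b = 1 ∨ b ∈ A := by
      rcases ha with ha | ha
      · exact Or.inl (e.map_eq_one_iff.1 ha)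
      · obtain ⟨c, hc, he⟩ := Finset.mem_image.1 ha
        exact Or.inr (e.injective he ▸ hc)
    refine (congrArg Language.IsRegular ?_).mp (regular_map (h5 b hb) (Prod.map (Option.map f) (Option.map f)))
    ext p
    constructor
    · rintro ⟨_, ⟨u, hu, v, hv, rfl, he⟩, rfl⟩
      exact ⟨_, ⟨u, hu, rfl⟩, _, ⟨v, hv, rfl⟩, conv_map f u v, by rw [hf, hf, ← map_mul, he]⟩
    · rintro ⟨_, ⟨u, hu, rfl⟩, _, ⟨v, hv, rfl⟩, rfl, he⟩
      rw [hf, hf, ← map_mul] at he
      exact ⟨_, ⟨u, hu, v, hv, rfl, e.injective he⟩, conv_map f u v⟩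

section
variable {n : ℕ} (k : ℕ) (A : GL (Fin n) ℚ) (L' B : Subgroup (Multiplicative (Fin n → ℤ))) (φ : L' ≃* B)
  (hL : L'.index ≠ 0)
  (hφ : ∀ x : L', (fun i => ((Multiplicative.toAdd (φ x : Multiplicative (Fin n → ℤ))) i : ℚ)) =
    (A : Matrix (Fin n) (Fin n) ℚ) *ᵥ fun j => ((Multiplicative.toAdd (x : Multiplicative (Fin n → ℤ))) j : ℚ))
  (P : GL (Fin n) ℝ)
  (hP : (P : Matrix (Fin n) (Fin n) ℝ) * (A : Matrix (Fin n) (Fin n) ℚ).map (fun a => (a : ℝ)) *
    ((P⁻¹ : GL (Fin n) ℝ) : Matrix (Fin n) (Fin n) ℝ) ∈ Matrix.orthogonalGroup (Fin n) ℝ)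
include hL hφ hP

theorem finite_order
    (h : IsAutomatic (HNNExtension (Multiplicative (Fin n → ℤ)) L' B φ × Multiplicative (Fin k → ℤ))) :
    IsOfFinOrder A := by
  obtain ⟨S, hS1, hS2, hS3⟩ := exists_setup_hnn A L' B φ hL hφ P hP 1
  by_cases hn : ∀ x ∈ S.L, S.t * x * S.t⁻¹ ∈ S.L
  · exact hS3.1 (periodic_of_normal S hn)
  obtain ⟨S₀, h1, h2, h3⟩ := exists_setup_hnn A L' B φ hL hφ P hP (-1)
  obtain ⟨S', h4, h5, h6⟩ := exists_setup_prod S₀ k
  refine h3.1 (h6.1 (periodic_of_automatic S' ?_ h))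
  push Not at hn
  obtain ⟨x, hx, hx'⟩ := hn
  refine ⟨(x, 1), ?_, fun hm => hx' ?_⟩
  · rw [h4, h1, ← hS1]
    exact ⟨hx, trivial⟩
  · rw [h4, h5, h1, ← hS1, h2] at hm
    have := hm.1
    rw [hS2]
    simpa using this

theorem retract_automatic
    (h : IsAutomatic (HNNExtension (Multiplicative (Fin n → ℤ)) L' B φ × Multiplicative (Fin k → ℤ)))
    (H : Type) [Group H] (i : H →* HNNExtension (Multiplicative (Fin n → ℤ)) L' B φ × Multiplicative (Fin k → ℤ))
    (r : HNNExtension (Multiplicative (Fin n → ℤ)) L' B φ × Multiplicative (Fin k → ℤ) →* H)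
    (hr : ∀ x, r (i x) = x) : IsAutomatic H := by
  obtain ⟨S, -, -, h3⟩ := exists_setup_hnn A L' B φ hL hφ P hP 1
  obtain ⟨S', -, -, h6⟩ := exists_setup_prod S k
  have := fg_of_automatic h
  exact automatic_of_periodic S' (h6.2 (h3.2 (finite_order k A L' B φ hL hφ P hP h))) i
    (Function.LeftInverse.injective hr) (Group.fg_of_surjective (f := r) (Function.LeftInverse.surjective hr))

theorem automatic_iff :
    IsAutomatic (HNNExtension (Multiplicative (Fin n → ℤ)) L' B φ × Multiplicative (Fin k → ℤ)) ↔ IsOfFinOrder A := by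
  refine ⟨finite_order k A L' B φ hL hφ P hP, fun h => ?_⟩
  obtain ⟨S, -, -, h3⟩ := exists_setup_hnn A L' B φ hL hφ P hP 1
  obtain ⟨S', -, -, h6⟩ := exists_setup_prod S k
  obtain ⟨S₀, h1, h2⟩ := S'.gen_finite
  refine automatic_of_periodic S' (h6.2 (h3.2 h)) (MonoidHom.id _) Function.injective_id
    (Group.fg_iff.2 ⟨S₀, eq_top_iff.2 fun g _ => ?_, h1⟩)
  obtain ⟨l, h4, rfl⟩ := h2 g
  exact Subgroup.list_prod_mem _ fun a ha => Subgroup.subset_closure (h4 a ha)

end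

end Pool.Agent.MP_6674cc_al

end
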