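import Pool.Agent.MP_6674cc_al.Defs

-- part MP_6674cc_al.Tree
section

/-! Working structures: regular normal forms modulo a subgroup, and groups acting on a tree and on Euclidean space. -/

namespace Pool.Agent.MP_6674cc_al

/-- value of a word -/
def ev {X Γ : Type} [Group Γ] (lab : X → Γ) (w : List X) : Γ := (w.map lab).prod

section
variable {X Γ : Type} [Group Γ] (lab : X → Γ)

@[simp] theorem ev_nil : ev lab [] = 1 := rfl

@[simp] theorem ev_cons (x : X) (w : List X) : ev lab (x :: w) = lab x * ev lab w := by simp [ev]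

@[simp] theorem ev_append (u v : List X) : ev lab (u ++ v) = ev lab u * ev lab v := by simp [ev]

theorem ev_single (x : X) : ev lab [x] = lab x := by simp [ev]

theorem finite_ev_le [Finite X] (n : ℕ) : {g | ∃ w : List X, w.length ≤ n ∧ ev lab w = g}.Finite :=
  ((List.finite_length_le X n).image (ev lab)).subset fun _ ⟨w, h1, h2⟩ => ⟨w, h1, h2⟩

end

/-- A language is regular as soon as membership is read off a right congruence with finitely many values. -/
theorem regular_of_cong {X K : Type} (L : Language X) (κ : List X → K) (hfin : (Set.range κ).Finite)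
    (hstep : ∀ a b x, κ a = κ b → κ (a ++ [x]) = κ (b ++ [x])) (hmem : ∀ a b, κ a = κ b → a ∈ L → b ∈ L) :
    L.IsRegular := by
  have h1 : ∀ v a b, κ a = κ b → κ (a ++ v) = κ (b ++ v) := by
    intro v
    induction v with
    | nil => simp
    | cons x v ih =>
      intro a b h
      have := ih _ _ (hstep a b x h)
      simpa using this
  refine Language.IsRegular.of_finite_range_leftQuotient ?_
  classical
  let f : K → Language X := fun k => if h : ∃ a, κ a = k then L.leftQuotient h.choose else 0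
  refine (hfin.image f).subset ?_
  rintro _ ⟨a, rfl⟩
  refine ⟨κ a, ⟨a, rfl⟩, ?_⟩
  have h : ∃ b, κ b = κ a := ⟨a, rfl⟩
  simp only [f, dif_pos h]
  ext v
  exact ⟨hmem _ _ (h1 v _ _ h.choose_spec), hmem _ _ (h1 v _ _ h.choose_spec.symm)⟩

/-- Regular normal forms, with uniqueness and fellow travelling, for the coset space `Z \ Γ`. -/
structure Str (Γ : Type) [Group Γ] (Z : Subgroup Γ) where
  X : Type
  Q : Type
  [fX : Finite X]
  [fQ : Finite Q]
  M : DFA X Q
  lab : X → Γ
  uniq : ∀ u ∈ M.accepts, ∀ v ∈ M.accepts, ∀ z ∈ Z, ev lab v = z * ev lab u → u = v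
  onto : ∀ g, ∃ w ∈ M.accepts, ∃ z ∈ Z, ev lab w = z * g
  ft : ∀ a : Γ, ∃ D : Set Γ, D.Finite ∧ ∀ u ∈ M.accepts, ∀ v ∈ M.accepts, ∀ z ∈ Z,
    ev lab u * a = z * ev lab v → ∀ s, (ev lab (u.take s))⁻¹ * z * ev lab (v.take s) ∈ D

attribute [instance] Str.fX Str.fQ

/-- Regular normal forms with fellow travelling (no uniqueness, but a length bound) for `Z \ H`. -/
structure WStr (H : Type) [Group H] (Z : Subgroup H) where
  X : Type
  [fX : Finite X]
  L : Language X
  reg : L.IsRegular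
  lab : X → H
  onto : ∀ g, ∃ w ∈ L, ∃ z ∈ Z, ev lab w = z * g
  ft : ∀ a : H, ∃ D : Set H, D.Finite ∧ ∃ C : ℕ, ∀ u ∈ L, ∀ v ∈ L, ∀ z ∈ Z,
    ev lab u * a = z * ev lab v →
      v.length ≤ u.length + C ∧ ∀ s, (ev lab (u.take s))⁻¹ * z * ev lab (v.take s) ∈ D

attribute [instance] WStr.fX

/-- A group with a lattice `L = ι (ℤ ^ I)` and a stable letter `t`, acting on Euclidean space by the isometries
`v ↦ R ^ (e g) v + τ g` and on a rooted tree whose vertices are the cosets `g L`, coded by the stacks `Λ g`. -/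
structure Setup (Γ : Type) [Group Γ] where
  I : Type
  [fI : Fintype I]
  [dI : DecidableEq I]
  ι : Multiplicative (I → ℤ) →* Γ
  t : Γ
  T : (I → ℝ) ≃ₗ[ℝ] EuclideanSpace ℝ I
  R : EuclideanSpace ℝ I ≃ₗᵢ[ℝ] EuclideanSpace ℝ I
  e : Γ → ℤ
  e_mul : ∀ g h, e (g * h) = e g + e h
  e_ι : ∀ x, e (ι x) = 0
  e_t : e t = 1
  τ : Γ → EuclideanSpace ℝ I
  τ_mul : ∀ g h, τ (g * h) = τ g + (R ^ e g) (τ h)
  τ_ι : ∀ x : I → ℤ, τ (ι (Multiplicative.ofAdd x)) = T fun i => (x i : ℝ)
  β : Type
  Λ : Γ → List β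
  Λ_one : Λ 1 = []
  Λ_eq : ∀ g h, Λ g = Λ h ↔ g⁻¹ * h ∈ ι.range
  step : ∀ g a, (a = t ∨ a = t⁻¹) → (∃ c, Λ (g * a) = c :: Λ g) ∨ ∃ c, Λ g = c :: Λ (g * a)
  parent : ∀ g c l, Λ g = c :: l → ∃ g' a, (a = t ∨ a = t⁻¹) ∧ Λ g' = l ∧ (g' * a)⁻¹ * g ∈ ι.range
  letters : ∃ s : Set β, s.Finite ∧ ∀ g, ∀ c ∈ Λ g, c ∈ s
  Up : List β → Prop
  up_nil : Up []
  up_step : ∀ g, Up (Λ g) → (∃ c, Λ (g * t) = c :: Λ g) ∧ Up (Λ (g * t))
  Y : Type
  [fY : Fintype Y]
  rep : Y → Γ
  rep_mem : ∀ y, rep y ∈ ι.range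
  asc_step : ∀ x ∈ ι.range, ∃ x' ∈ ι.range, ∃ y, t * x = x' * t * rep y
  asc_inj : ∀ x ∈ ι.range, ∀ l l' : List Y,
    x * (l.map fun y => t * rep y).prod = (l'.map fun y => t * rep y).prod → l = l'
  core : ∀ x ∈ ι.range, (∃ m : ℕ, 0 < m ∧ (R ^ m) (τ x) = τ x) →
    ∃ D : ℕ, 0 < D ∧ x ^ D ∈ ι.range.normalCore

attribute [instance] Setup.fI Setup.dI Setup.fY

namespace Setup

variable {Γ : Type} [Group Γ] (S : Setup Γ)

/-- the Euclidean space -/
abbrev V : Type := EuclideanSpace ℝ S.I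

/-- the lattice -/
abbrev L : Subgroup Γ := S.ι.range

/-- lattice element with given coordinates -/
def io (x : S.I → ℤ) : Γ := S.ι (Multiplicative.ofAdd x)

/-- its translation vector -/
noncomputable def vec (x : S.I → ℤ) : S.V := S.T fun i => (x i : ℝ)

/-- periodic vectors -/
def Per (v : S.V) : Prop := ∃ m : ℕ, 0 < m ∧ (S.R ^ m) v = v

/-- the ascending normal words -/
def kk (l : List S.Y) : Γ := (l.map fun y => S.t * S.rep y).prod

/-- letters that move by at most one edge of the tree -/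
def GoodEl (a : Γ) : Prop := a ∈ S.L ∨ a = S.t ∨ a = S.t⁻¹

def Good {X : Type} (lab : X → Γ) : Prop := ∀ x, S.GoodEl (lab x)

/-- products with at most `D` stable letters -/
inductive TL : ℕ → Γ → Prop
  | base {x : Γ} : x ∈ S.L → TL 0 x
  | mono {D : ℕ} {g : Γ} : TL D g → TL (D + 1) g
  | step {D : ℕ} {g a x : Γ} : TL D g → (a = S.t ∨ a = S.t⁻¹) → x ∈ S.L → TL (D + 1) (g * a * x)

/-- the set `(L t) ^ j L` -/
inductive Asc : ℕ → Γ → Prop
  | base {x : Γ} : x ∈ S.L → Asc 0 x
  | step {j : ℕ} {g x : Γ} : Asc j g → x ∈ S.L → Asc (j + 1) (g * S.t * x)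

/-- the tree branches in the direction of `t` -/
def Branch : Prop := ∃ x ∈ S.L, S.t⁻¹ * x * S.t ∉ S.L

/-- a word that climbs one level and never comes back to the vertex it starts from -/
def Seg {X : Type} (lab : X → Γ) (u : List X) : Prop :=
  S.Asc 1 (ev lab u) ∧ ∀ p, p ≠ [] → p <+: u → ev lab p ∉ S.L

end Setup

namespace Str

variable {Γ : Type} [Group Γ] {Z : Subgroup Γ} (s : Str Γ Z)

/-- state after a word -/
def st (w : List s.X) : s.Q := s.M.eval w

/-- transition -/
def δ (q : s.Q) (w : List s.X) : s.Q := s.M.evalFrom q w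

def Acc (q : s.Q) : Prop := ∃ p, s.st p = q

def Co (q : s.Q) : Prop := ∃ v, s.δ q v ∈ s.M.accept

/-- number of states reachable from `q` -/
noncomputable def rank (q : s.Q) : ℕ := {q' | ∃ w, s.δ q w = q'}.ncard

/-- states on a simple cycle that fixes a vertex of the tree -/
def Est (S : Setup Γ) (q : s.Q) : Prop :=
  s.Acc q ∧ s.Co q ∧ (∀ y₁ y₂, s.δ q y₁ = q → s.δ q y₂ = q → y₁ <+: y₂ ∨ y₂ <+: y₁) ∧
    ∃ z, z ≠ [] ∧ s.δ q z = q ∧ ev s.lab z ∈ S.L

@[simp] theorem δ_nil (q : s.Q) : s.δ q [] = q := rfl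

theorem δ_append (q : s.Q) (u v : List s.X) : s.δ q (u ++ v) = s.δ (s.δ q u) v :=
  s.M.evalFrom_of_append q u v

theorem st_append (u v : List s.X) : s.st (u ++ v) = s.δ (s.st u) v := s.M.evalFrom_of_append _ u v

theorem mem_acc {w : List s.X} : w ∈ s.M.accepts ↔ s.st w ∈ s.M.accept := Iff.rfl

theorem append_mem_acc {u v : List s.X} : u ++ v ∈ s.M.accepts ↔ s.δ (s.st u) v ∈ s.M.accept := by
  rw [mem_acc, st_append]

/-- the normal form of `h` is read by climbing from the vertex of `g` in steps of length at most `M` -/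
def Bd (S : Setup Γ) (M : ℕ) (g h : Γ) : Prop :=
  ∃ (w₀ : List s.X) (us : List (List s.X)), w₀ ++ us.flatten ∈ s.M.accepts ∧
    (∃ z ∈ Z, ev s.lab (w₀ ++ us.flatten) = z * h) ∧ S.Λ (ev s.lab w₀) = S.Λ g ∧
    ∀ u ∈ us, S.Seg s.lab u ∧ u.length ≤ M

end Str

end Pool.Agent.MP_6674cc_al

/-! Elementary geometry of a `Setup`: the lattice, the cocycle, the tree of stacks. -/

namespace Pool.Agent.MP_6674cc_al

namespace Setup

variable {Γ : Type} [Group Γ] (S : Setup Γ)

/-! ### lattice and cocycle -/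

theorem io_mem (x : S.I → ℤ) : S.io x ∈ S.L := ⟨_, rfl⟩

theorem mem_L {g : Γ} : g ∈ S.L ↔ ∃ x, S.io x = g := by
  constructor
  · rintro ⟨y, rfl⟩
    exact ⟨y.toAdd, rfl⟩
  · rintro ⟨x, rfl⟩
    exact S.io_mem x

theorem io_add (x y : S.I → ℤ) : S.io (x + y) = S.io x * S.io y := by
  simp only [io, ofAdd_add, map_mul]

theorem io_zero : S.io 0 = 1 := by
  simp only [io, ofAdd_zero, map_one]

theorem io_neg (x : S.I → ℤ) : S.io (-x) = (S.io x)⁻¹ := by
  simp only [io, ofAdd_neg, map_inv]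

theorem L_comm {x y : Γ} (hx : x ∈ S.L) (hy : y ∈ S.L) : x * y = y * x := by
  obtain ⟨a, rfl⟩ := hx
  obtain ⟨b, rfl⟩ := hy
  rw [← map_mul, ← map_mul, mul_comm]

theorem e_one : S.e 1 = 0 := by
  have := S.e_mul 1 1
  rw [mul_one] at this
  omega

theorem e_inv (g : Γ) : S.e g⁻¹ = -S.e g := by
  have := S.e_mul g g⁻¹
  rw [mul_inv_cancel, S.e_one] at this
  omega

theorem e_L {x : Γ} (hx : x ∈ S.L) : S.e x = 0 := by
  obtain ⟨a, rfl⟩ := hx
  exact S.e_ι a

theorem e_pow (g : Γ) (n : ℕ) : S.e (g ^ n) = n * S.e g := by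
  induction n with
  | zero => simp [S.e_one]
  | succ n ih =>
    rw [pow_succ, S.e_mul, ih]
    push_cast
    ring

theorem τ_one : S.τ 1 = 0 := by
  have := S.τ_mul 1 1
  rw [mul_one, S.e_one, zpow_zero] at this
  simpa using this

theorem τ_io (x : S.I → ℤ) : S.τ (S.io x) = S.vec x := S.τ_ι x

theorem vec_add (x y : S.I → ℤ) : S.vec (x + y) = S.vec x + S.vec y := by
  rw [vec, vec, vec, ← map_add]
  congr 1
  funext i
  simp

theorem vec_sub (x y : S.I → ℤ) : S.vec (x - y) = S.vec x - S.vec y := by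
  rw [vec, vec, vec, ← map_sub]
  congr 1
  funext i
  simp

theorem vec_injective : Function.Injective S.vec := by
  intro x y h
  have h1 := S.T.injective h
  funext i
  exact_mod_cast congrFun h1 i

theorem io_injective : Function.Injective S.io := by
  intro x y h
  apply S.vec_injective
  rw [← S.τ_io, ← S.τ_io, h]

theorem τ_inj {x y : Γ} (hx : x ∈ S.L) (hy : y ∈ S.L) (h : S.τ x = S.τ y) : x = y := by
  obtain ⟨a, rfl⟩ := S.mem_L.1 hx
  obtain ⟨b, rfl⟩ := S.mem_L.1 hy
  rw [S.τ_io, S.τ_io] at h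
  rw [S.vec_injective h]

theorem τ_conj (p : Γ) {γ : Γ} (h : S.e γ = 0) : S.τ (p * γ * p⁻¹) = (S.R ^ S.e p) (S.τ γ) := by
  have h1 := S.τ_mul p p⁻¹
  rw [mul_inv_cancel, S.τ_one] at h1
  rw [mul_assoc, S.τ_mul, S.τ_mul, h, zpow_zero, map_add]
  have h2 : (1 : S.V ≃ₗᵢ[ℝ] S.V) (S.τ p⁻¹) = S.τ p⁻¹ := rfl
  rw [h2, add_left_comm, ← h1, add_zero]

theorem τ_pow {γ : Γ} (h : S.e γ = 0) (n : ℕ) : S.τ (γ ^ n) = (n : ℝ) • S.τ γ := by
  induction n with
  | zero => simp [S.τ_one]
  | succ n ih =>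
    rw [pow_succ', S.τ_mul, h, zpow_zero, ih]
    have h2 : (1 : S.V ≃ₗᵢ[ℝ] S.V) ((n : ℝ) • S.τ γ) = (n : ℝ) • S.τ γ := rfl
    rw [h2, Nat.cast_succ, add_smul, one_smul, add_comm]

theorem norm_τ_mul (g h : Γ) : ‖S.τ (g * h)‖ ≤ ‖S.τ g‖ + ‖S.τ h‖ := by
  rw [S.τ_mul]
  refine (norm_add_le _ _).trans ?_
  rw [LinearIsometryEquiv.norm_map]

theorem norm_τ_inv_mul (g h : Γ) : ‖S.τ (g⁻¹ * h)‖ = ‖S.τ h - S.τ g‖ := by
  have h1 := S.τ_mul g (g⁻¹ * h)
  rw [mul_inv_cancel_left] at h1
  rw [h1, add_sub_cancel_left, LinearIsometryEquiv.norm_map]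

/-- the lattice spans: an isometry power fixing all lattice vectors is trivial -/
theorem ext_vec {f g : S.V →ₗ[ℝ] S.V} (h : ∀ x, f (S.vec x) = g (S.vec x)) : f = g := by
  refine ((Pi.basisFun ℝ S.I).map S.T).ext fun i => ?_
  have h1 : ((Pi.basisFun ℝ S.I).map S.T) i = S.vec (Pi.single i 1) := by
    rw [Module.Basis.map_apply, Pi.basisFun_apply, vec]
    congr 1
    funext j
    by_cases hj : j = i
    · subst hj
      simp
    · simp [hj]
  rw [h1]
  exact h _

theorem treea_coord : ∃ C : ℕ, ∀ (s : ℕ) (x : S.I → ℤ), ‖S.vec x‖ ≤ s →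
    x ∈ Fintype.piFinset fun _ : S.I => Finset.Icc (-((C * s : ℕ) : ℤ)) ((C * s : ℕ) : ℤ) := by
  let A : S.V →L[ℝ] (S.I → ℝ) := LinearMap.toContinuousLinearMap (S.T.symm : S.V →ₗ[ℝ] (S.I → ℝ))
  refine ⟨⌈‖A‖⌉₊, fun s x hx => Fintype.mem_piFinset.2 fun i => ?_⟩
  have h1 : A (S.vec x) = fun i => (x i : ℝ) := S.T.symm_apply_apply _
  have h2 : ‖A (S.vec x) i‖ ≤ (⌈‖A‖⌉₊ : ℝ) * s :=
    (norm_le_pi_norm _ i).trans ((A.le_opNorm _).trans
      (mul_le_mul (Nat.le_ceil _) hx (norm_nonneg _) (Nat.cast_nonneg _)))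
  rw [h1, Real.norm_eq_abs] at h2
  have h4 : |(x i : ℝ)| ≤ (⌈‖A‖⌉₊ : ℝ) * s := h2
  have h3 : |x i| ≤ ((⌈‖A‖⌉₊ * s : ℕ) : ℤ) := by exact_mod_cast h4
  exact Finset.mem_Icc.2 (abs_le.1 h3)

theorem treea_fix {m n : ℕ} (h : m ∣ n) {v : S.V} (hv : (S.R ^ m) v = v) : (S.R ^ n) v = v := by
  obtain ⟨k, rfl⟩ := h
  induction k with
  | zero => rfl
  | succ k ih =>
    rw [Nat.mul_succ, pow_add]
    change (S.R ^ (m * k)) ((S.R ^ m) v) = v
    rw [hv, ih]

/-- coordinates are bounded by a multiple of the norm (continuity of `T.symm`) -/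
theorem card_lattice_ball : ∃ c : ℕ, ∀ (s : ℕ) (F : Finset (S.I → ℤ)), (∀ x ∈ F, ‖S.vec x‖ ≤ s) →
    F.card ≤ (c * s + 1) ^ Fintype.card S.I := by
  obtain ⟨C, hC⟩ := S.treea_coord
  refine ⟨2 * C, fun s F hF => ?_⟩
  have h1 : F ⊆ Fintype.piFinset fun _ : S.I => Finset.Icc (-((C * s : ℕ) : ℤ)) ((C * s : ℕ) : ℤ) :=
    fun x hx => hC s x (hF x hx)
  refine (Finset.card_le_card h1).trans (le_of_eq ?_)
  rw [Fintype.card_piFinset, Finset.prod_const, Finset.card_univ, Int.card_Icc]
  congr 1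
  have : ((C * s : ℕ) : ℤ) + 1 - -((C * s : ℕ) : ℤ) = ((2 * C * s + 1 : ℕ) : ℤ) := by
    push_cast
    ring
  rw [this, Int.toNat_natCast]

theorem finite_lattice_ball (s : ℝ) : {x | ‖S.vec x‖ ≤ s}.Finite := by
  obtain ⟨C, hC⟩ := S.treea_coord
  refine (Finset.finite_toSet (Fintype.piFinset fun _ : S.I =>
    Finset.Icc (-((C * ⌈s⌉₊ : ℕ) : ℤ)) ((C * ⌈s⌉₊ : ℕ) : ℤ))).subset fun x hx => ?_
  exact hC ⌈s⌉₊ x (le_trans hx (Nat.le_ceil s))

/-- Periodic vectors form a finite-dimensional subspace, hence have a common period: the kernels of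
`R ^ n! - 1` form an increasing chain of subspaces. -/
theorem exists_period : ∃ P : ℕ, 0 < P ∧ ∀ v, S.Per v → (S.R ^ P) v = v := by
  let K : ℕ →o Submodule ℝ S.V :=
    { toFun := fun n => LinearMap.eqLocus ((S.R ^ n.factorial).toLinearEquiv : S.V →ₗ[ℝ] S.V)
        LinearMap.id
      monotone' := fun a b hab v hv => S.treea_fix (Nat.factorial_dvd_factorial hab) hv }
  obtain ⟨N, hN⟩ := monotone_stabilizes_iff_noetherian.2 (inferInstance : IsNoetherian ℝ S.V) K
  refine ⟨N.factorial, N.factorial_pos, ?_⟩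
  rintro v ⟨m, hm, hv⟩
  have h1 : v ∈ K (max N m) := S.treea_fix (Nat.dvd_factorial hm (le_max_right _ _)) hv
  rw [← hN _ (le_max_left _ _)] at h1
  exact h1

theorem core_le {η : Γ} (h : η ∈ S.L.normalCore) : η ∈ S.L := Subgroup.normalCore_le _ h

/-- Conjugates lie in `L` and have translation vectors of the same norm. -/
theorem finite_conj {η : Γ} (h : η ∈ S.L.normalCore) : {γ | ∃ g, γ = g⁻¹ * η * g}.Finite := by
  refine ((S.finite_lattice_ball ‖S.τ η‖).image S.io).subset ?_
  rintro γ ⟨g, rfl⟩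
  have h1 : g⁻¹ * η * g⁻¹⁻¹ ∈ S.L := h g⁻¹
  have h2 := S.τ_conj g⁻¹ (S.e_L (S.core_le h))
  rw [inv_inv] at h1 h2
  obtain ⟨x, hx⟩ := S.mem_L.1 h1
  refine ⟨x, ?_, hx⟩
  change ‖S.vec x‖ ≤ _
  rw [← S.τ_io, hx, h2, LinearIsometryEquiv.norm_map]

end Setup

end Pool.Agent.MP_6674cc_al

/-! Elementary geometry of a `Setup`: the lattice, the cocycle, the tree of stacks. -/

namespace Pool.Agent.MP_6674cc_al

namespace Setup

variable {Γ : Type} [Group Γ] (S : Setup Γ)

/-! ### the tree -/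

theorem Λ_mul_L (g : Γ) {x : Γ} (hx : x ∈ S.L) : S.Λ (g * x) = S.Λ g := by
  refine (S.Λ_eq _ _).2 ?_
  have : (g * x)⁻¹ * g = x⁻¹ := by group
  rw [this]
  exact S.L.inv_mem hx

theorem Λ_core {z : Γ} (hz : z ∈ S.L.normalCore) (g : Γ) : S.Λ (z * g) = S.Λ g := by
  refine (S.Λ_eq _ _).2 ?_
  have h := (S.L.normalCore.inv_mem hz) g⁻¹
  have : (z * g)⁻¹ * g = g⁻¹ * z⁻¹ * g⁻¹⁻¹ := by group
  rw [this]
  exact h

theorem Λ_L {x : Γ} (hx : x ∈ S.L) : S.Λ x = [] := by
  have := S.Λ_mul_L 1 hx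
  rwa [one_mul, S.Λ_one] at this

variable {S}

theorem TL.le {D D' : ℕ} {g : Γ} (h : S.TL D g) (hD : D ≤ D') : S.TL D' g := by
  induction hD with
  | refl => exact h
  | step _ ih => exact ih.mono

theorem TL.of_L {x : Γ} (hx : x ∈ S.L) (D : ℕ) : S.TL D x := (TL.base hx).le (Nat.zero_le _)

theorem treeb_mul_L {D : ℕ} {g x : Γ} (hg : S.TL D g) (hx : x ∈ S.L) : S.TL D (g * x) := by
  induction hg with
  | base hy => exact TL.base (S.L.mul_mem hy hx)
  | mono _ ih => exact ih.mono
  | step hg ha hy _ =>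
    rw [mul_assoc]
    exact TL.step hg ha (S.L.mul_mem hy hx)

theorem TL.mul {D D' : ℕ} {g h : Γ} (hg : S.TL D g) (hh : S.TL D' h) : S.TL (D + D') (g * h) := by
  induction hh with
  | base hx => exact treeb_mul_L hg hx
  | mono _ ih => exact ih.mono
  | step _ ha hx ih =>
    have := TL.step ih ha hx
    simpa only [mul_assoc, ← Nat.add_assoc] using this

theorem TL.inv {D : ℕ} {g : Γ} (hg : S.TL D g) : S.TL D g⁻¹ := by
  induction hg with
  | base hx => exact TL.base (S.L.inv_mem hx)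
  | mono _ ih => exact ih.mono
  | @step D g a x _ ha hx ih =>
    have ha' : a⁻¹ = S.t ∨ a⁻¹ = S.t⁻¹ := by
      rcases ha with rfl | rfl
      · exact Or.inr rfl
      · exact Or.inl (inv_inv _)
    have h1 := (TL.step (TL.base (S.L.inv_mem hx)) ha' S.L.one_mem).mul ih
    have h2 : (g * a * x)⁻¹ = x⁻¹ * a⁻¹ * 1 * g⁻¹ := by group
    rw [h2]
    exact h1.le (by omega)

theorem GoodEl.tl {a : Γ} (h : S.GoodEl a) : S.TL 1 a := by
  rcases h with h | h
  · exact TL.of_L h 1
  · simpa using TL.step (TL.base S.L.one_mem) h S.L.one_mem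

theorem TL.e_le {D : ℕ} {g : Γ} (hg : S.TL D g) : |S.e g| ≤ D := by
  induction hg with
  | base hx => simp [S.e_L hx]
  | mono _ ih => push_cast; omega
  | step _ ha hx ih =>
    rw [S.e_mul, S.e_mul, S.e_L hx]
    rw [abs_le] at ih ⊢
    rcases ha with rfl | rfl
    · rw [S.e_t]; push_cast; omega
    · rw [S.e_inv, S.e_t]; push_cast; omega

/-- two vertices at distance at most `D` have stacks that agree below the top `D` letters -/
theorem TL.stack {D : ℕ} {γ : Γ} (h : S.TL D γ) (g : Γ) :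
    ∃ a b z, S.Λ g = a ++ z ∧ S.Λ (g * γ) = b ++ z ∧ a.length + b.length ≤ D := by
  induction h with
  | base hx => exact ⟨[], [], S.Λ g, rfl, S.Λ_mul_L g hx, le_rfl⟩
  | mono _ ih =>
    obtain ⟨a, b, z, h1, h2, h3⟩ := ih
    exact ⟨a, b, z, h1, h2, h3.trans (Nat.le_succ _)⟩
  | @step D γ s x _ hs hx ih =>
    obtain ⟨a, b, z, h1, h2, h3⟩ := ih
    have h4 : S.Λ (g * (γ * s * x)) = S.Λ (g * γ * s) := by
      rw [← S.Λ_mul_L (g * γ * s) hx]; simp only [mul_assoc]
    rw [h4]
    rcases S.step (g * γ) s hs with ⟨c, hc⟩ | ⟨c, hc⟩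
    · exact ⟨a, c :: b, z, h1, by rw [hc, h2]; rfl, by simp only [List.length_cons]; omega⟩
    · rw [h2] at hc
      cases b with
      | nil =>
        refine ⟨a ++ [c], [], S.Λ (g * γ * s), ?_, rfl, by simp at h3 ⊢; omega⟩
        rw [h1]
        simp only [List.nil_append] at hc
        rw [hc]; simp
      | cons c' b =>
        simp only [List.cons_append, List.cons.injEq] at hc
        exact ⟨a, b, z, h1, hc.2.symm, by simp only [List.length_cons] at h3; omega⟩

theorem treeb_down {g : Γ} {a z : List S.β} (hg : S.Λ g = a ++ z) :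
    ∃ k, S.Λ k = z ∧ S.TL a.length (k⁻¹ * g) := by
  induction a generalizing g with
  | nil => exact ⟨g, hg, TL.base (by rw [inv_mul_cancel]; exact S.L.one_mem)⟩
  | cons c a ih =>
    obtain ⟨g', s, hs, h1, h2⟩ := S.parent g c (a ++ z) hg
    obtain ⟨k, h3, h4⟩ := ih h1
    refine ⟨k, h3, ?_⟩
    have h5 : k⁻¹ * g = k⁻¹ * g' * s * ((g' * s)⁻¹ * g) := by group
    rw [h5]
    exact TL.step h4 hs h2

/-- converse of `TL.stack`; walk down with `parent` -/
theorem tl_of_stack {g h : Γ} {a b z : List S.β} (hg : S.Λ g = a ++ z) (hh : S.Λ h = b ++ z) :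
    S.TL (a.length + b.length) (g⁻¹ * h) := by
  obtain ⟨k₁, h1, h2⟩ := treeb_down hg
  obtain ⟨k₂, h3, h4⟩ := treeb_down hh
  have h5 : k₁⁻¹ * k₂ ∈ S.L := (S.Λ_eq _ _).1 (h1.trans h3.symm)
  have h6 := (treeb_mul_L h2.inv h5).mul h4
  have h7 : g⁻¹ * h = (k₁⁻¹ * g)⁻¹ * (k₁⁻¹ * k₂) * (k₂⁻¹ * h) := by group
  rw [h7]
  exact h6

theorem tl_length (g : Γ) : S.TL (S.Λ g).length g := by
  have := tl_of_stack (S := S) (g := 1) (h := g) (a := []) (b := S.Λ g) (z := []) S.Λ_one (by simp)
  simpa using this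

theorem TL.length_le {D : ℕ} {g h : Γ} (hd : S.TL D (g⁻¹ * h)) : (S.Λ h).length ≤ (S.Λ g).length + D := by
  obtain ⟨a, b, z, h1, h2, h3⟩ := hd.stack g
  rw [mul_inv_cancel_left] at h2
  rw [h1, h2]
  simp only [List.length_append]
  omega

theorem treeb_length {D : ℕ} {g : Γ} (hg : S.TL D g) : (S.Λ g).length ≤ D := by
  have := TL.length_le (S := S) (D := D) (g := 1) (h := g) (by simpa using hg)
  simpa [S.Λ_one] using this

theorem TL.drop_suffix {D : ℕ} {g h : Γ} (hd : S.TL D (g⁻¹ * h)) {y : List S.β} (hy : y <:+ S.Λ g) :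
    y.drop D <:+ S.Λ h := by
  obtain ⟨a, b, z, h1, h2, h3⟩ := hd.stack g
  rw [mul_inv_cancel_left] at h2
  rw [h1] at hy
  rw [h2]
  have h4 := hy.length_le
  simp only [List.length_append] at h4
  refine (List.suffix_of_suffix_length_le ((List.drop_suffix D y).trans hy) (List.suffix_append a z) ?_).trans
    (List.suffix_append b z)
  simp only [List.length_drop]
  omega

/-- a short jump into the subtree above `k` passes through `k` -/
theorem TL.enter {D : ℕ} {g h k : Γ} (hd : S.TL D (g⁻¹ * h)) (h1 : S.Λ k <:+ S.Λ h) (h2 : ¬S.Λ k <:+ S.Λ g) :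
    S.TL D (g⁻¹ * k) ∧ S.TL D (k⁻¹ * h) := by
  obtain ⟨a, b, z, h3, h4, h5⟩ := hd.stack g
  rw [mul_inv_cancel_left] at h4
  have h6 : z <:+ S.Λ h := h4 ▸ List.suffix_append b z
  have h7 : z <:+ S.Λ k := by
    by_cases hl : z.length ≤ (S.Λ k).length
    · exact List.suffix_of_suffix_length_le h6 h1 hl
    · exact absurd ((List.suffix_of_suffix_length_le h1 h6 (by omega)).trans (h3 ▸ List.suffix_append a z)) h2
  obtain ⟨b₂, h8⟩ := h7
  obtain ⟨b₁, h9⟩ := h1
  have h10 : b₁.length + b₂.length = b.length := by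
    have := congrArg List.length h9
    rw [← h8, h4] at this
    simp only [List.length_append] at this
    omega
  refine ⟨(tl_of_stack h3 h8.symm).le (by omega), ?_⟩
  exact (tl_of_stack (a := []) (z := S.Λ k) rfl h9.symm).le (by simp only [List.length_nil]; omega)

theorem exists_tl_of_finite {D : Set Γ} (hD : D.Finite) : ∃ K : ℕ, ∀ d ∈ D, S.TL K d := by
  obtain ⟨K, hK⟩ := (hD.image fun d => (S.Λ d).length).bddAbove
  exact ⟨K, fun d hd => (tl_length d).le (hK ⟨d, hd, rfl⟩)⟩

theorem Good.tl {X : Type} {lab : X → Γ} (h : S.Good lab) (w : List X) : S.TL w.length (ev lab w) := by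
  induction w with
  | nil => exact TL.base S.L.one_mem
  | cons x w ih =>
    rw [ev_cons]
    exact ((h x).tl.mul ih).le (by simp only [List.length_cons]; omega)

theorem GoodEl.enter {g a : Γ} (ha : S.GoodEl a) {c : S.β} {z : List S.β} (h1 : c :: z <:+ S.Λ (g * a))
    (h2 : ¬c :: z <:+ S.Λ g) : S.Λ g = z ∧ S.Λ (g * a) = c :: z := by
  rcases ha with ha | ha
  · rw [S.Λ_mul_L g ha] at h1
    exact absurd h1 h2
  · rcases S.step g a ha with ⟨c', hc⟩ | ⟨c', hc⟩
    · rw [hc] at h1 ⊢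
      rcases List.suffix_cons_iff.1 h1 with h3 | h3
      · exact ⟨(List.cons.inj h3).2.symm, h3.symm⟩
      · exact absurd h3 h2
    · exact absurd (hc ▸ h1.trans (List.suffix_cons _ _)) h2

/-- last visit of a vertex below the end point -/
theorem Good.last_visit {X : Type} {lab : X → Γ} (h : S.Good lab) {w : List X} {y : List S.β}
    (hy : y <:+ S.Λ (ev lab w)) :
    ∃ a b, w = a ++ b ∧ S.Λ (ev lab a) = y ∧ ∀ p, p ≠ [] → p <+: b → S.Λ (ev lab (a ++ p)) ≠ y := by
  induction w using List.reverseRecOn with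
  | nil =>
    refine ⟨[], [], rfl, ?_, fun p hp hp' => absurd (List.prefix_nil.1 hp') hp⟩
    rw [ev_nil, S.Λ_one] at hy ⊢
    exact (List.suffix_nil.1 hy).symm
  | append_singleton w x ih =>
    by_cases he : S.Λ (ev lab (w ++ [x])) = y
    · exact ⟨w ++ [x], [], by simp, he, fun p hp hp' => absurd (List.prefix_nil.1 hp') hp⟩
    · have h1 : y <:+ S.Λ (ev lab w) := by
        cases y with
        | nil => exact List.nil_suffix
        | cons c z =>
          by_contra h2
          rw [ev_append, ev_single] at hy he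
          exact he ((h x).enter hy h2).2
      obtain ⟨a, b, h2, h3, h4⟩ := ih h1
      refine ⟨a, b ++ [x], by rw [h2, List.append_assoc], h3, fun p hp hp' => ?_⟩
      rcases List.prefix_concat_iff.1 hp' with h5 | h5
      · rw [h5, ← List.append_assoc, ← h2]
        exact he
      · exact h4 p hp h5

/-- a path that starts at a vertex, never comes back and ends above one of its children stays above that child -/
theorem Good.stay_child {X : Type} {lab : X → Γ} (h : S.Good lab) {g : Γ} {b : List X} {c : S.β}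
    (hb : ∀ p, p ≠ [] → p <+: b → S.Λ (g * ev lab p) ≠ S.Λ g) (hc : c :: S.Λ g <:+ S.Λ (g * ev lab b)) :
    ∀ p, p ≠ [] → p <+: b → c :: S.Λ g <:+ S.Λ (g * ev lab p) := by
  induction b using List.reverseRecOn with
  | nil => exact fun p hp hp' => absurd (List.prefix_nil.1 hp') hp
  | append_singleton b x ih =>
    intro p hp hp'
    rcases List.prefix_concat_iff.1 hp' with h5 | h5
    · rw [h5]
      exact hc
    · have hb' : b ≠ [] := by
        rintro rfl
        exact hp (List.prefix_nil.1 h5)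
      refine ih (fun q hq hq' => hb q hq (hq'.trans (List.prefix_append _ _))) ?_ p hp h5
      by_contra h2
      rw [ev_append, ev_single, ← mul_assoc] at hc
      exact hb b hb' (List.prefix_append _ _) ((h x).enter hc h2).1

theorem Good.stay {X : Type} {lab : X → Γ} (h : S.Good lab) {g : Γ} {b : List X}
    (hb : ∀ p, p ≠ [] → p <+: b → S.Λ (g * ev lab p) ≠ S.Λ g) (hc : S.Λ g <:+ S.Λ (g * ev lab b)) :
    ∀ p, p <+: b → S.Λ g <:+ S.Λ (g * ev lab p) := by
  intro p hp
  by_cases hp0 : p = []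
  · rw [hp0, ev_nil, mul_one]
  · have hb' : b ≠ [] := by
      rintro rfl
      exact hp0 (List.prefix_nil.1 hp)
    obtain ⟨u, hu⟩ := hc
    rcases List.eq_nil_or_concat u with rfl | ⟨u', c, rfl⟩
    · exact absurd hu.symm (hb b hb' List.prefix_rfl)
    · have h1 : c :: S.Λ g <:+ S.Λ (g * ev lab b) := ⟨u', by rw [← hu]; simp⟩
      exact (List.suffix_cons _ _).trans (h.stay_child hb h1 p hp0 hp)

variable (S)

theorem gen_good (g : Γ) : ∃ l : List Γ, (∀ a ∈ l, S.GoodEl a) ∧ l.prod = g := by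
  have key : ∀ D g, S.TL D g → ∃ l : List Γ, (∀ a ∈ l, S.GoodEl a) ∧ l.prod = g := by
    intro D g hg
    induction hg with
    | @base x hx => exact ⟨[x], fun a ha => Or.inl (List.mem_singleton.1 ha ▸ hx), by simp⟩
    | mono _ ih => exact ih
    | @step D g a x _ ha hx ih =>
      obtain ⟨l, h1, rfl⟩ := ih
      refine ⟨l ++ [a, x], fun b hb => ?_, by simp [mul_assoc]⟩
      simp only [List.mem_append, List.mem_cons, List.not_mem_nil, or_false] at hb
      rcases hb with hb | rfl | rfl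
      · exact h1 b hb
      · exact Or.inr ha
      · exact Or.inl hx
  exact key _ g (tl_length g)

include S in
/-- `t`, `t⁻¹` and the unit vectors with their negatives -/
theorem gen_finite : ∃ S₀ : Set Γ, S₀.Finite ∧ ∀ g, ∃ l : List Γ, (∀ a ∈ l, a ∈ S₀) ∧ l.prod = g := by
  let S₀ : Set Γ := {S.t, S.t⁻¹} ∪ (Set.range (fun i => S.io (Pi.single i 1)) ∪
    Set.range (fun i => S.io (-Pi.single i 1)))
  refine ⟨S₀, (Set.toFinite _).union ((Set.finite_range _).union (Set.finite_range _)), fun g => ?_⟩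
  refine Submonoid.exists_list_of_mem_closure ?_
  let N : AddSubmonoid (S.I → ℤ) :=
    { carrier := {x | S.io x ∈ Submonoid.closure S₀}
      zero_mem' := by
        show S.io 0 ∈ Submonoid.closure S₀
        rw [S.io_zero]
        exact one_mem _
      add_mem' := fun {x y} hx hy => by
        show S.io (x + y) ∈ Submonoid.closure S₀
        rw [S.io_add]
        exact mul_mem hx hy }
  have h1 : ∀ i (n : ℤ), Pi.single i n ∈ N := by
    intro i n
    have ha : Pi.single i 1 ∈ N := Submonoid.subset_closure (Or.inr (Or.inl ⟨i, rfl⟩))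
    have hb : -Pi.single i 1 ∈ N := Submonoid.subset_closure (Or.inr (Or.inr ⟨i, rfl⟩))
    induction n using Int.induction_on with
    | zero => rw [Pi.single_zero]; exact N.zero_mem
    | succ n ih => rw [Pi.single_add]; exact N.add_mem ih ha
    | pred n ih => rw [Pi.single_sub, sub_eq_add_neg]; exact N.add_mem ih hb
  have h2 : ∀ x, x ∈ N := fun x => by
    rw [← Finset.univ_sum_single x]
    exact N.sum_mem fun i _ => h1 i _
  obtain ⟨l, hl, rfl⟩ := S.gen_good g
  refine Submonoid.list_prod_mem _ fun a ha => ?_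
  rcases hl a ha with h | h
  · obtain ⟨x, rfl⟩ := S.mem_L.1 h
    exact h2 x
  · exact Submonoid.subset_closure (Or.inl h)

theorem finite_stacks (D : ℕ) : {y | ∃ g, S.TL D g ∧ S.Λ g = y}.Finite := by
  obtain ⟨s, hs, h⟩ := S.letters
  have := hs.to_subtype
  refine ((List.finite_length_le s D).image (List.map Subtype.val)).subset ?_
  rintro _ ⟨g, hg, rfl⟩
  refine ⟨(S.Λ g).attachWith (· ∈ s) (h g), ?_, by simp⟩
  simpa using treeb_length hg

/-- Volume of balls: an element is determined by its stack (a list of length at most `D` over a finite set of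
letters) and, given the stack, by a lattice vector of norm at most `2 s`. -/
theorem card_ball : ∃ b c : ℕ, ∀ (D s : ℕ) (F : Finset Γ), (∀ γ ∈ F, S.TL D γ ∧ ‖S.τ γ‖ ≤ s) →
    F.card ≤ b ^ D * (c * s + 1) ^ Fintype.card S.I := by
  classical
  obtain ⟨s₀, hs, hl⟩ := S.letters
  obtain ⟨c, hc⟩ := S.card_lattice_ball
  refine ⟨(Finset.insertNone hs.toFinset).card, c * 2, fun D s F hF => ?_⟩
  have h1 : (F.image S.Λ).card ≤ (Finset.insertNone hs.toFinset).card ^ D := by
    have h2 : (Fintype.piFinset fun _ : Fin D => Finset.insertNone hs.toFinset).card =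
        (Finset.insertNone hs.toFinset).card ^ D := by simp
    rw [← h2]
    refine Finset.card_le_card_of_injOn (fun y i => y[i.1]?) ?_ ?_
    · intro y hy
      obtain ⟨g, -, rfl⟩ := Finset.mem_image.1 hy
      simp only [Finset.mem_coe, Fintype.mem_piFinset, Finset.mem_insertNone]
      intro i a ha
      exact hs.mem_toFinset.2 (hl g a (List.mem_of_getElem? ha))
    · intro y hy y' hy' he
      obtain ⟨g, hg, rfl⟩ := Finset.mem_image.1 hy
      obtain ⟨g', hg', rfl⟩ := Finset.mem_image.1 hy'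
      have h3 := treeb_length (hF g hg).1
      have h4 := treeb_length (hF g' hg').1
      refine List.ext_getElem? fun i => ?_
      by_cases hi : i < D
      · exact congrFun he ⟨i, hi⟩
      · rw [List.getElem?_eq_none (by omega), List.getElem?_eq_none (by omega)]
  have h5 : ∀ y ∈ F.image S.Λ, (F.filter fun γ => S.Λ γ = y).card ≤ (c * 2 * s + 1) ^ Fintype.card S.I := by
    intro y hy
    obtain ⟨g, hg, rfl⟩ := Finset.mem_image.1 hy
    have hi : Function.Injective fun x => g * S.io x := fun x x' h => S.io_injective (mul_left_cancel h)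
    have h6 := hc (2 * s) (F.preimage (fun x => g * S.io x) hi.injOn) (by
      intro x hx
      have h7 := (hF _ (Finset.mem_preimage.1 hx)).2
      have h8 := S.norm_τ_inv_mul g (g * S.io x)
      rw [inv_mul_cancel_left, S.τ_io] at h8
      have h9 := norm_sub_le (S.τ (g * S.io x)) (S.τ g)
      have h10 := (hF g hg).2
      push_cast
      linarith)
    rw [mul_assoc]
    refine le_trans ?_ h6
    refine Finset.card_le_card_of_surjOn (fun x => g * S.io x) ?_
    intro γ hγ
    obtain ⟨h7, h8⟩ := Finset.mem_filter.1 hγ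
    obtain ⟨x, hx⟩ := S.mem_L.1 ((S.Λ_eq _ _).1 h8.symm)
    have h9 : g * S.io x = γ := by rw [hx, mul_inv_cancel_left]
    exact ⟨x, Finset.mem_preimage.2 (h9 ▸ h7), h9⟩
  calc F.card ≤ (c * 2 * s + 1) ^ Fintype.card S.I * (F.image S.Λ).card :=
        Finset.card_le_mul_card_image F _ h5
    _ ≤ _ := by
      rw [mul_comm]
      exact Nat.mul_le_mul_right _ h1

end Setup

end Pool.Agent.MP_6674cc_al

/-! Elementary geometry of a `Setup`: the lattice, the cocycle, the tree of stacks. -/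

namespace Pool.Agent.MP_6674cc_al

namespace Setup

variable {Γ : Type} [Group Γ] (S : Setup Γ)

/-! ### ascending elements -/

variable {S}

theorem Asc.e_eq {j : ℕ} {k : Γ} (h : S.Asc j k) : S.e k = j := by
  induction h with
  | base hx => simpa using S.e_L hx
  | step _ hx ih => rw [S.e_mul, S.e_mul, ih, S.e_t, S.e_L hx]; push_cast; ring

theorem tree_mul_L {j : ℕ} {g x : Γ} (hg : S.Asc j g) (hx : x ∈ S.L) : S.Asc j (g * x) := by
  cases hg with
  | base hy => exact Asc.base (S.L.mul_mem hy hx)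
  | step hk hy => rw [mul_assoc]; exact Asc.step hk (S.L.mul_mem hy hx)

theorem Asc.mul {i j : ℕ} {g h : Γ} (hg : S.Asc i g) (hh : S.Asc j h) : S.Asc (i + j) (g * h) := by
  induction hh with
  | base hx => exact tree_mul_L hg hx
  | step _ hx ih =>
    rw [← mul_assoc, ← mul_assoc, ← add_assoc]
    exact Asc.step ih hx

theorem Asc.tl {j : ℕ} {k : Γ} (h : S.Asc j k) : S.TL j k := by
  induction h with
  | base hx => exact TL.base hx
  | step _ hx ih => exact TL.step ih (Or.inl rfl) hx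

theorem Asc.zero_iff {k : Γ} : S.Asc 0 k ↔ k ∈ S.L := by
  refine ⟨fun h => ?_, Asc.base⟩
  cases h with
  | base hx => exact hx

theorem Asc.succ_iff {j : ℕ} {k : Γ} : S.Asc (j + 1) k ↔ ∃ g x, S.Asc j g ∧ x ∈ S.L ∧ k = g * S.t * x := by
  constructor
  · intro h
    cases h with
    | step hg hx => exact ⟨_, _, hg, hx, rfl⟩
  · rintro ⟨g, x, hg, hx, rfl⟩
    exact Asc.step hg hx

theorem asc_t_pow (j : ℕ) : S.Asc j (S.t ^ j) := by
  induction j with
  | zero => rw [pow_zero]; exact Asc.base S.L.one_mem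
  | succ j ih =>
    have := Asc.step ih S.L.one_mem
    rwa [mul_one, ← pow_succ] at this

theorem Asc.up {j : ℕ} {k g : Γ} (h : S.Asc j k) (hg : S.Up (S.Λ g)) :
    S.Up (S.Λ (g * k)) ∧ ∃ b : List S.β, b.length = j ∧ S.Λ (g * k) = b ++ S.Λ g := by
  induction h with
  | base hx => rw [S.Λ_mul_L g hx]; exact ⟨hg, [], rfl, rfl⟩
  | step _ hx ih =>
    obtain ⟨h1, b, hb, h2⟩ := ih
    obtain ⟨⟨c, hc⟩, h3⟩ := S.up_step _ h1
    rw [← mul_assoc, ← mul_assoc, S.Λ_mul_L _ hx]
    exact ⟨h3, c :: b, by simp [hb], by rw [hc, h2]; rfl⟩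

theorem tree_up_one {k g : Γ} (h : S.Asc 1 k) (hg : S.Up (S.Λ g)) :
    S.Up (S.Λ (g * k)) ∧ ∃ c, S.Λ (g * k) = c :: S.Λ g := by
  obtain ⟨h1, b, hb, h2⟩ := h.up hg
  obtain ⟨c, rfl⟩ := List.length_eq_one_iff.1 hb
  exact ⟨h1, c, h2⟩

theorem kk_nil : S.kk [] = 1 := rfl

theorem kk_cons (y : S.Y) (l : List S.Y) : S.kk (y :: l) = S.t * S.rep y * S.kk l := by simp [kk]

theorem tree_kk_append (l l' : List S.Y) : S.kk (l ++ l') = S.kk l * S.kk l' := by simp [kk]

theorem asc_kk (l : List S.Y) : S.Asc l.length (S.kk l) := by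
  induction l with
  | nil => exact Asc.base S.L.one_mem
  | cons y l ih =>
    have h1 := (Asc.step (Asc.base S.L.one_mem) (S.rep_mem y)).mul ih
    rw [one_mul, zero_add, add_comm] at h1
    rw [kk_cons]
    exact h1

/-- induction on `l` with `asc_step` -/
theorem kk_mul_L (l : List S.Y) {x : Γ} (hx : x ∈ S.L) :
    ∃ x' ∈ S.L, ∃ l' : List S.Y, l'.length = l.length ∧ S.kk l * x = x' * S.kk l' := by
  induction l with
  | nil => exact ⟨x, hx, [], rfl, by simp [kk_nil]⟩
  | cons y l ih =>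
    obtain ⟨x', hx', l', h1, h2⟩ := ih
    obtain ⟨x'', hx'', y', h3⟩ := S.asc_step (S.rep y * x') (S.L.mul_mem (S.rep_mem y) hx')
    refine ⟨x'', hx'', y' :: l', by simp [h1], ?_⟩
    rw [kk_cons, kk_cons, mul_assoc, h2, ← mul_assoc, mul_assoc S.t, h3]
    simp only [mul_assoc]

theorem Asc.exists_kk {j : ℕ} {k : Γ} (h : S.Asc j k) :
    ∃ x ∈ S.L, ∃ l : List S.Y, l.length = j ∧ k = x * S.kk l := by
  induction h with
  | base hx => exact ⟨_, hx, [], rfl, by simp [kk_nil]⟩
  | @step j g x _ hx ih =>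
    obtain ⟨x₀, hx₀, l, h1, rfl⟩ := ih
    obtain ⟨x', hx', y, h2⟩ := S.asc_step x hx
    obtain ⟨x'', hx'', l', h3, h4⟩ := kk_mul_L l hx'
    refine ⟨x₀ * x'', S.L.mul_mem hx₀ hx'', l' ++ [y], by simp [h1, h3], ?_⟩
    rw [tree_kk_append, kk_cons, kk_nil, mul_one, mul_assoc (x₀ * S.kk l), h2, mul_assoc x₀ x'',
      ← mul_assoc x'', ← h4]
    simp only [mul_assoc]

theorem kk_inj {x x' : Γ} (hx : x ∈ S.L) (hx' : x' ∈ S.L) {l l' : List S.Y} (h : x * S.kk l = x' * S.kk l') :
    x = x' ∧ l = l' := by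
  have h1 : l = l' := S.asc_inj (x'⁻¹ * x) (S.L.mul_mem (S.L.inv_mem hx') hx) l l' (by
    change x'⁻¹ * x * S.kk l = S.kk l'
    rw [mul_assoc, h, inv_mul_cancel_left])
  subst h1
  exact ⟨mul_right_cancel h, rfl⟩

theorem card_Y_pos : 0 < Fintype.card S.Y := by
  obtain ⟨-, -, y, -⟩ := S.asc_step 1 S.L.one_mem
  exact Fintype.card_pos_iff.2 ⟨y⟩

/-- segments: product and canonical decomposition -/
theorem asc_flatten {X : Type} {lab : X → Γ} {us : List (List X)} (h : ∀ u ∈ us, S.Seg lab u) :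
    S.Asc us.length (ev lab us.flatten) := by
  induction us with
  | nil => exact Asc.base S.L.one_mem
  | cons u us ih =>
    have h1 := (h u (by simp)).1.mul (ih fun v hv => h v (by simp [hv]))
    rw [add_comm] at h1
    rw [List.flatten_cons, ev_append]
    exact h1

theorem Seg.ne_nil {X : Type} {lab : X → Γ} {u : List X} (h : S.Seg lab u) : u ≠ [] := by
  rintro rfl
  have h1 := h.1.e_eq
  rw [ev_nil, S.e_one] at h1
  simp at h1

/-- After the start, a chain of segments read from an `Up` vertex never comes back; more precisely it stays above the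
end of the first segment.  Induction on `us` (generalizing `g`) with `Good.stay_child`, `Asc.up`. -/
theorem Good.seg_above {X : Type} {lab : X → Γ} (h : S.Good lab) {g : Γ} (hg : S.Up (S.Λ g)) {u : List X}
    {us : List (List X)} (hu : S.Seg lab u) (hus : ∀ v ∈ us, S.Seg lab v) :
    ∀ p, p ≠ [] → p <+: u ++ us.flatten → S.Λ (g * ev lab u) <:+ S.Λ (g * ev lab p) := by
  induction us generalizing g u with
  | nil =>
    intro p hp hpu
    obtain ⟨-, c, hc⟩ := tree_up_one hu.1 hg
    rw [List.flatten_nil, List.append_nil] at hpu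
    rw [hc]
    refine h.stay_child (fun q hq hqu he => hu.2 q hq hqu ?_) (by rw [hc]) p hp hpu
    simpa using (S.Λ_eq _ _).1 he.symm
  | cons v us ih =>
    intro p hp hpu
    obtain ⟨hup, c, hc⟩ := tree_up_one hu.1 hg
    rcases List.prefix_or_prefix_of_prefix hpu (List.prefix_append u _) with h1 | ⟨q, rfl⟩
    · rw [hc]
      refine h.stay_child (fun q hq hqu he => hu.2 q hq hqu ?_) (by rw [hc]) p hp h1
      simpa using (S.Λ_eq _ _).1 he.symm
    · by_cases hq : q = []
      · rw [hq, List.append_nil]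
      rw [List.prefix_append_right_inj, List.flatten_cons] at hpu
      have hv := hus v (by simp)
      obtain ⟨-, c', hc'⟩ := tree_up_one hv.1 hup
      have h2 := ih hup hv (fun w hw => hus w (by simp [hw])) q hq hpu
      rw [ev_append, ← mul_assoc]
      rw [hc'] at h2
      exact (List.suffix_cons _ _).trans h2

theorem Good.seg_last {X : Type} {lab : X → Γ} (h : S.Good lab) {g : Γ} (hg : S.Up (S.Λ g))
    {us : List (List X)} (hus : ∀ v ∈ us, S.Seg lab v) :
    ∀ p, p ≠ [] → p <+: us.flatten → (S.Λ g).length < (S.Λ (g * ev lab p)).length := by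
  intro p hp hpu
  cases us with
  | nil => exact absurd (List.prefix_nil.1 hpu) hp
  | cons u us =>
    have hu := hus u (by simp)
    obtain ⟨-, c, hc⟩ := tree_up_one hu.1 hg
    have h1 := (h.seg_above hg hu (fun w hw => hus w (by simp [hw])) p hp hpu).length_le
    rw [hc, List.length_cons] at h1
    omega

theorem tree_cut {X : Type} {lab : X → Γ} (h : S.Good lab) {g : Γ} {a p r : List X} {us : List (List X)}
    (hg : S.Up (S.Λ (g * ev lab a))) (hus : ∀ v ∈ us, S.Seg lab v)
    (he : (S.Λ (g * ev lab a)).length = (S.Λ (g * ev lab (a ++ p))).length)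
    (hw : a ++ us.flatten = a ++ p ++ r) : p = [] := by
  by_contra hp
  rw [List.append_assoc, List.append_right_inj] at hw
  have h1 := h.seg_last hg hus p hp ⟨r, hw.symm⟩
  rw [ev_append, ← mul_assoc] at he
  omega

theorem tree_cut_eq {X : Type} {lab : X → Γ} (h : S.Good lab) {g : Γ} {a a' : List X} {us us' : List (List X)}
    (hg : S.Up (S.Λ (g * ev lab a))) (hg' : S.Up (S.Λ (g * ev lab a'))) (hus : ∀ v ∈ us, S.Seg lab v)
    (hus' : ∀ v ∈ us', S.Seg lab v)
    (he : (S.Λ (g * ev lab a)).length = (S.Λ (g * ev lab a')).length)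
    (hw : a ++ us.flatten = a' ++ us'.flatten) : a = a' := by
  rcases List.prefix_or_prefix_of_prefix (List.prefix_append a us.flatten)
    (hw ▸ List.prefix_append a' us'.flatten) with ⟨p, rfl⟩ | ⟨p, rfl⟩
  · rw [tree_cut h hg hus he hw, List.append_nil]
  · rw [tree_cut h hg' hus' he.symm hw.symm, List.append_nil]

theorem tree_segs_eq {X : Type} {lab : X → Γ} (h : S.Good lab) {us us' : List (List X)} {g : Γ}
    (hg : S.Up (S.Λ g)) (hus : ∀ v ∈ us, S.Seg lab v) (hus' : ∀ v ∈ us', S.Seg lab v)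
    (hw : us.flatten = us'.flatten) : us = us' := by
  induction us generalizing g us' with
  | nil =>
    cases us' with
    | nil => rfl
    | cons u' us' =>
      rw [List.flatten_nil, List.flatten_cons] at hw
      exact absurd (List.append_eq_nil_iff.1 hw.symm).1 (hus' u' (by simp)).ne_nil
  | cons u us ih =>
    cases us' with
    | nil =>
      rw [List.flatten_nil, List.flatten_cons] at hw
      exact absurd (List.append_eq_nil_iff.1 hw).1 (hus u (by simp)).ne_nil
    | cons u' us' =>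
      obtain ⟨h1, c, hc⟩ := tree_up_one (hus u (by simp)).1 hg
      obtain ⟨h1', c', hc'⟩ := tree_up_one (hus' u' (by simp)).1 hg
      have k1 : ∀ v ∈ us, S.Seg lab v := fun w hw => hus w (by simp [hw])
      have k2 : ∀ v ∈ us', S.Seg lab v := fun w hw => hus' w (by simp [hw])
      rw [List.flatten_cons, List.flatten_cons] at hw
      have h2 : u = u' := tree_cut_eq h h1 h1' k1 k2 (by rw [hc, hc']; rfl) hw
      subst h2
      rw [ih h1 k1 k2 (List.append_cancel_left hw)]

/-- uniqueness of the cut at the last visit and of the decomposition into segments -/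
theorem Good.seg_unique {X : Type} {lab : X → Γ} (h : S.Good lab) {w₀ w₀' : List X} {us us' : List (List X)}
    (hg : S.Up (S.Λ (ev lab w₀))) (he : S.Λ (ev lab w₀) = S.Λ (ev lab w₀')) (hus : ∀ v ∈ us, S.Seg lab v)
    (hus' : ∀ v ∈ us', S.Seg lab v) (hw : w₀ ++ us.flatten = w₀' ++ us'.flatten) : w₀ = w₀' ∧ us = us' := by
  have h1 : w₀ = w₀' := tree_cut_eq (g := 1) h (by rwa [one_mul]) (by rwa [one_mul, ← he]) hus hus'
    (by rw [one_mul, one_mul, he]) hw
  subst h1
  exact ⟨rfl, tree_segs_eq h hg hus hus' (List.append_cancel_left hw)⟩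

/-- existence of the decomposition: induction on `j` (generalizing `w`, `k`), cutting at the last visit of the
vertex one level below the end -/
theorem Good.seg_exists {X : Type} {lab : X → Γ} (h : S.Good lab) {g : Γ} (hg : S.Up (S.Λ g)) {j : ℕ} {k : Γ}
    (hk : S.Asc j k) {w : List X} (hw : ev lab w = g * k) :
    ∃ (w₀ : List X) (us : List (List X)), w = w₀ ++ us.flatten ∧ us.length = j ∧ S.Λ (ev lab w₀) = S.Λ g ∧
      ∀ u ∈ us, S.Seg lab u := by
  induction j generalizing w k with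
  | zero =>
    exact ⟨w, [], by simp, rfl, by rw [hw, S.Λ_mul_L g (Asc.zero_iff.1 hk)], by simp⟩
  | succ j ih =>
    obtain ⟨k', x, hk', hx, rfl⟩ := Asc.succ_iff.1 hk
    obtain ⟨⟨c, hc⟩, -⟩ := S.up_step _ (hk'.up hg).1
    have h1 : S.Λ (g * k') <:+ S.Λ (ev lab w) := by
      rw [hw, ← mul_assoc, ← mul_assoc, S.Λ_mul_L _ hx, hc]
      exact List.suffix_cons _ _
    obtain ⟨a, b, rfl, h2, h3⟩ := h.last_visit h1
    have h4 : (g * k')⁻¹ * ev lab a ∈ S.L := (S.Λ_eq _ _).1 h2.symm
    obtain ⟨w₀, us, h5, h6, h7, h8⟩ := ih (tree_mul_L hk' h4) (w := a) (by group)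
    refine ⟨w₀, us ++ [b], by simp [h5], by simp [h6], h7, fun u hu => ?_⟩
    rcases List.mem_append.1 hu with hu | hu
    · exact h8 u hu
    rw [List.mem_singleton.1 hu]
    refine ⟨?_, fun p hp hpb hm => h3 p hp hpb ?_⟩
    · have h9 : ev lab b = ((g * k')⁻¹ * ev lab a)⁻¹ * S.t * x := by
        rw [ev_append] at hw
        rw [eq_inv_mul_of_mul_eq hw]
        group
      rw [h9]
      exact Asc.step (Asc.base (S.L.inv_mem h4)) hx
    · rw [ev_append, S.Λ_mul_L _ hm, h2]

end Setup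

end Pool.Agent.MP_6674cc_al

end

-- part MP_6674cc_al.Vel
section

/-! Loops of the word acceptor that do not move far in the tree. -/

namespace Pool.Agent.MP_6674cc_al

namespace Str

variable {Γ : Type} [Group Γ] {Z : Subgroup Γ} (s : Str Γ Z)

theorem loopa_sub (q : s.Q) (w : List s.X) :
    {q' | ∃ v, s.δ (s.δ q w) v = q'} ⊆ {q' | ∃ v, s.δ q v = q'} := by
  rintro _ ⟨v, rfl⟩
  exact ⟨w ++ v, s.δ_append q w v⟩

theorem rank_le (q : s.Q) (w : List s.X) : s.rank (s.δ q w) ≤ s.rank q := by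
  exact Set.ncard_le_ncard (s.loopa_sub q w) (Set.toFinite _)

theorem rank_le_card (q : s.Q) : s.rank q ≤ Nat.card s.Q := by
  exact Set.ncard_le_card _

/-- equal rank: the reachable sets are equal, so one can come back -/
theorem back_of_rank {q : s.Q} {w : List s.X} (h : s.rank (s.δ q w) = s.rank q) :
    ∃ b, s.δ (s.δ q w) b = q := by
  have h1 := Set.eq_of_subset_of_ncard_le (s.loopa_sub q w) h.ge (Set.toFinite _)
  have h2 : q ∈ {q' | ∃ v, s.δ q v = q'} := ⟨[], rfl⟩
  rw [← h1] at h2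
  exact h2

theorem rank_of_back {q : s.Q} {w b : List s.X} (h : s.δ (s.δ q w) b = q) : s.rank (s.δ q w) = s.rank q := by
  refine le_antisymm (s.rank_le q w) ?_
  have := s.rank_le (s.δ q w) b
  rwa [h] at this

/-- finitely many pairs of states -/
theorem short_paths : ∃ n : ℕ, (∀ q w, ∃ b, b.length ≤ n ∧ s.δ q b = s.δ q w) ∧
    ∀ q, s.Co q → ∃ v, v.length ≤ n ∧ s.δ q v ∈ s.M.accept := by
  have h1 : ∀ x : s.Q × s.Q, ∃ n : ℕ, (∃ w, s.δ x.1 w = x.2) → ∃ b, b.length ≤ n ∧ s.δ x.1 b = x.2 := by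
    intro x
    by_cases h : ∃ w, s.δ x.1 w = x.2
    · obtain ⟨w, hw⟩ := h
      exact ⟨w.length, fun _ => ⟨w, le_rfl, hw⟩⟩
    · exact ⟨0, fun h' => absurd h' h⟩
  choose f hf using h1
  obtain ⟨n, hn⟩ := (Set.finite_range f).bddAbove
  have h2 : ∀ q w, ∃ b, b.length ≤ n ∧ s.δ q b = s.δ q w := by
    intro q w
    obtain ⟨b, hb, hb'⟩ := hf (q, s.δ q w) ⟨w, rfl⟩
    exact ⟨b, hb.trans (hn ⟨_, rfl⟩), hb'⟩
  refine ⟨n, h2, ?_⟩
  rintro q ⟨v, hv⟩
  obtain ⟨b, hb, hb'⟩ := h2 q v
  exact ⟨b, hb, hb' ▸ hv⟩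

theorem Co.of_δ {q : s.Q} {w : List s.X} (h : s.Co (s.δ q w)) : s.Co q := by
  obtain ⟨v, hv⟩ := h
  exact ⟨w ++ v, by rwa [δ_append]⟩

theorem Acc.δ {q : s.Q} (h : s.Acc q) (w : List s.X) : s.Acc (s.δ q w) := by
  obtain ⟨p, rfl⟩ := h
  exact ⟨p ++ w, s.st_append p w⟩

theorem co_take {w : List s.X} (hw : w ∈ s.M.accepts) (n : ℕ) : s.Co (s.st (w.take n)) := by
  refine ⟨w.drop n, ?_⟩
  rw [← s.append_mem_acc, List.take_append_drop]
  exact hw

/-- different words between the same states have different values, even modulo `Z` -/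
theorem eq_of_ev {p u v : List s.X} (hc : s.Co (s.δ (s.st p) u)) (h : s.δ (s.st p) u = s.δ (s.st p) v) {z : Γ}
    (hz : z ∈ Z) (he : ev s.lab (p ++ v) = z * ev s.lab (p ++ u)) : u = v := by
  obtain ⟨y, hy⟩ := hc
  have h1 : p ++ u ++ y ∈ s.M.accepts := by
    rw [s.append_mem_acc, s.st_append]
    exact hy
  have h2 : p ++ v ++ y ∈ s.M.accepts := by
    rw [s.append_mem_acc, s.st_append, ← h]
    exact hy
  have h3 := s.uniq _ h1 _ h2 z hz (by rw [ev_append, he, ev_append s.lab (p ++ u), mul_assoc])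
  exact List.append_cancel_left (List.append_cancel_right h3)

/-- An accepted word spends a bounded time in a finite set: two times with the same state and the same value would
give a loop with trivial value. -/
theorem time_le {w : List s.X} (hw : w ∈ s.M.accepts) {F : Finset Γ} {a b : ℕ} (hb : b ≤ w.length)
    (h : ∀ n, a ≤ n → n ≤ b → ev s.lab (w.take n) ∈ F) : b + 1 ≤ a + Nat.card s.Q * F.card ∨ b < a := by
  classical
  by_contra hcon
  rw [not_or, not_le, not_lt] at hcon
  obtain ⟨h1, h2⟩ := hcon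
  let _ := Fintype.ofFinite s.Q
  have key : ∀ n m, n < m → m ≤ b → s.st (w.take n) = s.st (w.take m) →
      ev s.lab (w.take n) = ev s.lab (w.take m) → False := by
    intro n m hnm hm e1 e2
    have e0 : w.take n ++ (w.take m).drop n = w.take m := by
      have : w.take n = (w.take m).take n := by
        rw [List.take_take, min_eq_left hnm.le]
      rw [this, List.take_append_drop]
    have := s.eq_of_ev (p := w.take n) (u := []) (v := (w.take m).drop n) (s.co_take hw n)
      (by rw [← s.st_append, ← s.st_append, e0, List.append_nil, e1]) Z.one_mem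
      (by rw [e0, List.append_nil, one_mul, e2])
    have hl := congrArg List.length this
    simp only [List.length_nil, List.length_drop, List.length_take] at hl
    omega
  have hcard : (Finset.univ ×ˢ F : Finset (s.Q × Γ)).card < (Finset.Icc a b).card := by
    rw [Finset.card_product, Finset.card_univ, Nat.card_Icc, ← Nat.card_eq_fintype_card]
    omega
  obtain ⟨n, hn, m, hm, hne, he⟩ := Finset.exists_ne_map_eq_of_card_lt_of_maps_to hcard
    (f := fun n => (s.st (w.take n), ev s.lab (w.take n))) (by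
      intro n hn
      have hn' := Finset.mem_Icc.1 (Finset.mem_coe.1 hn)
      exact Finset.mem_coe.2 (Finset.mem_product.2 ⟨Finset.mem_univ _, h n hn'.1 hn'.2⟩))
  have hn' := Finset.mem_Icc.1 hn
  have hm' := Finset.mem_Icc.1 hm
  obtain ⟨e1, e2⟩ := Prod.mk.inj he
  rcases lt_or_gt_of_ne hne with hlt | hlt
  · exact key n m hlt hm'.2 e1 e2
  · exact key m n hlt hn'.2 e1.symm e2.symm

theorem loopa_pow {q : s.Q} {z : List s.X} (hz : s.δ q z = q) (k : ℕ) :
    s.δ q (List.replicate k z).flatten = q := by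
  induction k with
  | zero => rfl
  | succ k ih => rw [List.replicate_succ, List.flatten_cons, s.δ_append, hz, ih]

theorem loopa_len {X : Type} (z : List X) (k : ℕ) : (List.replicate k z).flatten.length = k * z.length := by
  induction k with
  | zero => simp
  | succ k ih => rw [List.replicate_succ, List.flatten_cons, List.length_append, ih]; ring

theorem loopa_tl (S : Setup Γ) (hg : S.Good s.lab) {z : List s.X} (hz : ev s.lab z ∈ S.L) (k : ℕ) :
    ∀ u, u <+: (List.replicate k z).flatten → S.TL z.length (ev s.lab u) := by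
  induction k with
  | zero =>
    intro u hu
    have : u = [] := by simpa using hu
    subst this
    exact Setup.TL.of_L S.L.one_mem _
  | succ k ih =>
    intro u hu
    rw [List.replicate_succ, List.flatten_cons] at hu
    rcases List.prefix_or_prefix_of_prefix hu (List.prefix_append z _) with h | h
    · exact (hg.tl u).le h.length_le
    · obtain ⟨u', rfl⟩ := h
      have h2 := ih u' ((List.prefix_append_right_inj z).1 hu)
      have h3 := (Setup.TL.base hz).mul h2
      rwa [zero_add, ← ev_append] at h3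

/-- Inside such a cycle the tree displacement is bounded: `u ++ b` is a loop, comparable with all powers of `z`, so
`u` is a power of `z` followed by an initial segment of `z`. -/
theorem est_tl (S : Setup Γ) (hg : S.Good s.lab) : ∃ C : ℕ, ∀ q u, s.Est S q → s.rank (s.δ q u) = s.rank q →
    S.TL C (ev s.lab u) := by
  have h1 : ∀ q : s.Q, ∃ C : ℕ, ∀ u, s.Est S q → s.rank (s.δ q u) = s.rank q → S.TL C (ev s.lab u) := by
    intro q
    by_cases hq : s.Est S q
    · obtain ⟨-, -, hcmp, z, hz0, hz, hzL⟩ := hq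
      refine ⟨z.length, fun u _ hr => ?_⟩
      obtain ⟨b, hb⟩ := s.back_of_rank hr
      rw [← s.δ_append] at hb
      have hpos : 0 < z.length := List.length_pos_iff.2 hz0
      rcases hcmp _ _ hb (s.loopa_pow hz ((u ++ b).length + 1)) with h | h
      · exact s.loopa_tl S hg hzL _ u ((List.prefix_append u b).trans h)
      · have h2 := h.length_le
        rw [loopa_len] at h2
        nlinarith
    · exact ⟨0, fun u h => absurd h hq⟩
  choose f hf using h1
  obtain ⟨C, hC⟩ := (Set.finite_range f).bddAbove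
  exact ⟨C, fun q u hq hr => (hf q u hq hr).le (hC ⟨q, rfl⟩)⟩

end Str

end Pool.Agent.MP_6674cc_al

/-! Loops of the word acceptor that do not move far in the tree. -/

namespace Pool.Agent.MP_6674cc_al

namespace Str

variable {Γ : Type} [Group Γ] {Z : Subgroup Γ} (s : Str Γ Z)

theorem loopb_poly (K d : ℕ) : ∃ m : ℕ, (K * m + 1) ^ d < 2 ^ m := by
  have h := (tendsto_pow_const_div_const_pow_of_one_lt d (r := (2 : ℝ)) (by norm_num)).eventually
    (gt_mem_nhds (show (0 : ℝ) < 1 / (K + 1) ^ d by positivity))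
  obtain ⟨m, h1, h2⟩ := (h.and (Filter.eventually_ge_atTop 1)).exists
  refine ⟨m, lt_of_le_of_lt (Nat.pow_le_pow_left (show K * m + 1 ≤ (K + 1) * m by nlinarith) d) ?_⟩
  rw [div_lt_div_iff₀ (by positivity) (by positivity), one_mul, ← mul_pow, mul_comm] at h1
  exact_mod_cast h1

theorem loopb_code {X J : Type} {c : J → List X} (hc : ∀ i j, c i <+: c j → i = j) :
    ∀ l l' : List J, l.length = l'.length → (l.map c).flatten = (l'.map c).flatten → l = l'
  | [], [], _, _ => rfl
  | [], _ :: _, h, _ => by simp at h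
  | _ :: _, [], h, _ => by simp at h
  | i :: l, j :: l', h, e => by
    simp only [List.map_cons, List.flatten_cons] at e
    have hij : i = j := by
      rcases List.prefix_or_prefix_of_prefix (List.prefix_append (c i) (l.map c).flatten)
        (e ▸ List.prefix_append (c j) (l'.map c).flatten) with h1 | h1
      · exact hc _ _ h1
      · exact (hc _ _ h1).symm
    subst hij
    rw [loopb_code hc l l' (by simpa using h) (List.append_cancel_left e)]

theorem loopb_loop {J : Type} {c : J → List s.X} {q : s.Q} (h : ∀ i, s.δ q (c i) = q) (l : List J) :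
    s.δ q (l.map c).flatten = q := by
  induction l with
  | nil => rfl
  | cons i l ih => rw [List.map_cons, List.flatten_cons, δ_append, h, ih]

theorem loopb_size (S : Setup Γ) {J : Type} {c : J → List s.X} {D ρ : ℕ} (h1 : ∀ i, S.TL D (ev s.lab (c i)))
    (h2 : ∀ i, ‖S.τ (ev s.lab (c i))‖ ≤ ρ) (l : List J) :
    S.TL (D * l.length) (ev s.lab (l.map c).flatten) ∧
      ‖S.τ (ev s.lab (l.map c).flatten)‖ ≤ (ρ * l.length : ℕ) := by
  induction l with
  | nil => exact ⟨Setup.TL.base (one_mem _), by simp [S.τ_one]⟩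
  | cons i l ih =>
    rw [List.map_cons, List.flatten_cons, ev_append, List.length_cons, Nat.mul_succ, Nat.mul_succ, add_comm,
      add_comm (ρ * _), Nat.cast_add]
    exact ⟨(h1 i).mul ih.1, (S.norm_τ_mul _ _).trans (add_le_add (h2 i) ih.2)⟩

/-- Growth bound.  If `c i` (`i : Fin n`) are pairwise incomparable loops (none is an initial segment of another) at
an accessible and co-accessible state, each with `TL D`, then the `n ^ m` concatenations of `m` of them are different
words, hence have different values (`eq_of_ev`), all with `TL (m * D)` and `‖τ‖ ≤ m * ρ`; `card_ball` gives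
`n ^ m ≤ b ^ (m * D) * (c * m * ρ + 1) ^ d` for all `m`, which forces `n < 2 * b ^ D + 1`. -/
theorem code_bound (S : Setup Γ) (D : ℕ) : ∃ N : ℕ, ∀ (q : s.Q) (n : ℕ) (c : Fin n → List s.X), s.Acc q → s.Co q →
    (∀ i, s.δ q (c i) = q) → (∀ i j, c i <+: c j → i = j) → (∀ i, S.TL D (ev s.lab (c i))) → n ≤ N := by
  classical
  obtain ⟨b, k, hb⟩ := S.card_ball
  refine ⟨2 * b ^ D, fun q n c ⟨p, hp⟩ hco hq hc ht => ?_⟩
  obtain ⟨ρ, hρ⟩ : ∃ ρ : ℕ, ∀ i, ‖S.τ (ev s.lab (c i))‖ ≤ ρ := by
    obtain ⟨r, hr⟩ := (Set.finite_range fun i => ‖S.τ (ev s.lab (c i))‖).bddAbove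
    exact ⟨⌈r⌉₊, fun i => (hr ⟨i, rfl⟩).trans (Nat.le_ceil r)⟩
  have key : ∀ m, n ^ m ≤ (b ^ D) ^ m * (k * ρ * m + 1) ^ Fintype.card S.I := fun m => by
    have hinj : Function.Injective fun g : Fin m → Fin n => ev s.lab ((List.ofFn g).map c).flatten := by
      intro g g' e
      refine List.ofFn_injective (loopb_code hc _ _ (by simp) ?_)
      refine s.eq_of_ev (p := p) (by rw [hp, s.loopb_loop hq]; exact hco)
        (by rw [hp, s.loopb_loop hq, s.loopb_loop hq]) (one_mem _) ?_
      rw [one_mul, ev_append, ev_append]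
      exact congrArg _ e.symm
    have h := hb (D * m) (ρ * m) (Finset.univ.image fun g : Fin m → Fin n =>
      ev s.lab ((List.ofFn g).map c).flatten) fun γ hγ => by
        obtain ⟨g, -, rfl⟩ := Finset.mem_image.1 hγ
        simpa only [List.length_ofFn] using s.loopb_size S ht hρ (List.ofFn g)
    rw [Finset.card_image_of_injective _ hinj, Finset.card_univ, Fintype.card_fun, Fintype.card_fin,
      Fintype.card_fin, pow_mul, ← mul_assoc] at h
    exact h
  by_contra hn
  rcases Nat.eq_zero_or_pos (b ^ D) with h0 | h0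
  · have := key 1
    rw [h0] at this hn
    simp only [pow_one, zero_mul] at this
    omega
  · obtain ⟨m, hm⟩ := loopb_poly (k * ρ) (Fintype.card S.I)
    have h1 : (2 * b ^ D) ^ m ≤ n ^ m := Nat.pow_le_pow_left (by omega) m
    have h2 := Nat.mul_lt_mul_of_pos_left hm (Nat.pow_pos (n := m) h0)
    rw [mul_pow, mul_comm] at h1
    have := key m
    omega

end Str

end Pool.Agent.MP_6674cc_al

/-! Loops of the word acceptor that do not move far in the tree. -/

namespace Pool.Agent.MP_6674cc_al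

namespace Str

variable {Γ : Type} [Group Γ] {Z : Subgroup Γ} (s : Str Γ Z)

theorem loop_seq {X : Type} (P : List X → Prop) (h : ∀ M, ∃ y, P y ∧ M ≤ y.length) (c : ℕ) :
    ∃ f : ℕ → List X, (∀ k, P (f k)) ∧ ∀ k l, k < l → (f k).length + c < (f l).length := by
  choose g hg hg' using h
  let f : ℕ → List X := fun k => Nat.rec (g 0) (fun _ y => g (y.length + c + 1)) k
  have h1 : ∀ k, (f k).length + c < (f (k + 1)).length := fun k => hg' _
  refine ⟨f, fun k => ?_, fun k l hkl => ?_⟩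
  · cases k <;> exact hg _
  · induction l, hkl using Nat.le_induction with
    | base => exact h1 k
    | succ l _ ih => have := h1 l; omega

theorem loop_cmp (S : Setup Γ) (hg : S.Good s.lab) {E : ℕ} {q : s.Q} (ha : s.Acc q) (hc : s.Co q)
    (h : ∀ M, ∃ y, (s.δ q y = q ∧ S.TL E (ev s.lab y)) ∧ M ≤ y.length) {s₁ s₂ : List s.X} (h₁ : s.δ q s₁ = q)
    (h₂ : s.δ q s₂ = q) : s₁ <+: s₂ ∨ s₂ <+: s₁ := by
  by_contra hn
  obtain ⟨f, hf, hl⟩ := loop_seq _ h (s₁.length + s₂.length)
  obtain ⟨N, hN⟩ := s.code_bound S (E + (s₁.length + s₂.length))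
  obtain ⟨g, hg' | hg'⟩ := exists_increasing_or_nonincreasing_subseq (fun a b : List s.X => a <+: b) f
  · have h1 : ∀ k, ∃ σ, (σ = s₁ ∨ σ = s₂) ∧ ¬f (g k) ++ σ <+: f (g (k + 1)) := by
      intro k
      by_contra hh
      push Not at hh
      rcases List.prefix_or_prefix_of_prefix (hh s₁ (Or.inl rfl)) (hh s₂ (Or.inr rfl)) with h2 | h2
      · exact hn (Or.inl ((List.prefix_append_right_inj _).1 h2))
      · exact hn (Or.inr ((List.prefix_append_right_inj _).1 h2))
    choose σ hσ hσ' using h1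
    have h2 : ∀ k, (σ k).length ≤ s₁.length + s₂.length := by
      intro k
      rcases hσ k with e | e <;> rw [e] <;> omega
    have h3 : ∀ k, s.δ q (σ k) = q := by
      intro k
      rcases hσ k with e | e <;> rw [e] <;> assumption
    have := hN q (N + 1) (fun i => f (g i) ++ σ i) ha hc (fun i => by rw [δ_append, (hf _).1, h3])
      (fun i j hij => ?_) (fun i => ?_)
    · omega
    · rcases lt_trichotomy (i : ℕ) j with h4 | h4 | h4
      · exfalso
        have h5 : f (g (i + 1)) <+: f (g j) := by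
          rcases Nat.eq_or_lt_of_le (Nat.succ_le_of_lt h4) with e | e
          · rw [← e]
          · exact hg' _ _ e
        refine hσ' i (List.prefix_of_prefix_length_le hij (h5.trans (List.prefix_append _ _)) ?_)
        have h6 := hl _ _ (g.strictMono (Nat.lt_succ_self i))
        have h7 := h2 i
        rw [List.length_append]
        exact (Nat.add_le_add_left h7 _).trans h6.le
      · exact Fin.ext h4
      · exfalso
        have h5 := hij.length_le
        have h6 := hl _ _ (g.strictMono h4)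
        have h7 := h2 j
        simp only [List.length_append] at h5
        omega
    · rw [ev_append]
      exact (hf _).2.mul ((hg.tl _).le (h2 i))
  · have := hN q (N + 1) (fun i => f (g i)) ha hc (fun i => (hf _).1) (fun i j hij => ?_)
      (fun i => (hf _).2.le (Nat.le_add_right _ _))
    · omega
    · rcases lt_trichotomy (i : ℕ) j with h4 | h4 | h4
      · exact absurd hij (hg' _ _ h4)
      · exact Fin.ext h4
      · have h5 := hij.length_le
        have h6 := hl _ _ (g.strictMono h4)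
        omega

theorem loop_core (S : Setup Γ) (hg : S.Good s.lab) {E : ℕ} {q : s.Q} (ha : s.Acc q) (hc : s.Co q)
    (h : ∀ M, ∃ y, (s.δ q y = q ∧ S.TL E (ev s.lab y)) ∧ M ≤ y.length) : s.Est S q := by
  refine ⟨ha, hc, fun y₁ y₂ h₁ h₂ => s.loop_cmp S hg ha hc h h₁ h₂, ?_⟩
  obtain ⟨f, hf, hl⟩ := loop_seq _ h 0
  obtain ⟨k, l, hkl, he⟩ := Set.Finite.exists_lt_map_eq_of_forall_mem (f := fun k => S.Λ (ev s.lab (f k)))
    (fun k => (⟨_, (hf k).2, rfl⟩ : _ ∈ {y | ∃ g, S.TL E g ∧ S.Λ g = y})) (S.finite_stacks E)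
  have h1 := hl k l hkl
  obtain ⟨z, hz⟩ : f k <+: f l := by
    rcases s.loop_cmp S hg ha hc h (hf k).1 (hf l).1 with h2 | h2
    · exact h2
    · have := h2.length_le
      omega
  refine ⟨z, ?_, ?_, ?_⟩
  · rintro rfl
    rw [List.append_nil] at hz
    rw [hz] at h1
    omega
  · have h2 := (hf l).1
    rwa [← hz, δ_append, (hf k).1] at h2
  · have h2 := (S.Λ_eq _ _).1 he
    rwa [← hz, ev_append, inv_mul_cancel_left] at h2

/-- Main lemma.  Suppose not; by finiteness of `Q` some state `q`, not `Est`, has such words `u` of unbounded length;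
close them up with `short_paths` to loops `y k` at `q` of unbounded length with `TL (D + n)`.
If two loops `s₁ s₂` at `q` are incomparable: pass to a subsequence whose lengths increase by more than
`|s₁| + |s₂|`, apply `exists_increasing_or_nonincreasing_subseq` to the relation `<+:`; an antichain contradicts
`code_bound`; for a chain `f 0 <+: f 1 <+: ...` choose `s` among `s₁ s₂` with `f k ++ s` not an initial segment of
`f (k + 1)`, these form an antichain.  If all loops at `q` are comparable: two of the `y k` of different lengths have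
the same stack (`finite_stacks`), `y l = y k ++ z`, and `z` is a loop with value in `L`, so `q` is `Est`. -/
theorem loop_bound (S : Setup Γ) (hg : S.Good s.lab) (D : ℕ) : ∃ M : ℕ, ∀ q u, s.Acc q → s.Co (s.δ q u) →
    s.rank (s.δ q u) = s.rank q → S.TL D (ev s.lab u) → M ≤ u.length → s.Est S q := by
  obtain ⟨n, hn, -⟩ := s.short_paths
  have h1 : ∀ q, ∃ M : ℕ, ∀ u, s.Acc q → s.Co (s.δ q u) → s.rank (s.δ q u) = s.rank q →
      S.TL D (ev s.lab u) → M ≤ u.length → s.Est S q := by
    intro q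
    by_contra hh
    push Not at hh
    obtain ⟨u₀, ha, hc, -, -, -, he⟩ := hh 0
    refine he (s.loop_core S hg (E := D + n) ha (Co.of_δ s hc) fun M => ?_)
    obtain ⟨u, -, -, hr, ht, hM, -⟩ := hh M
    obtain ⟨b, hb⟩ := s.back_of_rank hr
    obtain ⟨b', h2, h3⟩ := hn (s.δ q u) b
    refine ⟨u ++ b', ⟨by rw [δ_append, h3, hb], ?_⟩, ?_⟩
    · rw [ev_append]
      exact ht.mul ((hg.tl _).le h2)
    · rw [List.length_append]
      omega
  choose M hM using h1
  obtain ⟨M₀, hM₀⟩ := (Set.finite_range M).bddAbove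
  exact ⟨M₀, fun q u ha hc hr ht hl => hM q u ha hc hr ht ((hM₀ ⟨q, rfl⟩).trans hl)⟩

end Str

end Pool.Agent.MP_6674cc_al

/-! Velocity of the elliptic cycles; it is inherited by fellow travellers. -/

namespace Pool.Agent.MP_6674cc_al

namespace Str

variable {Γ : Type} [Group Γ] {Z : Subgroup Γ} (s : Str Γ Z) (S : Setup Γ)

open Classical in
/-- translation per letter along the cycle through `q` -/
noncomputable def vel (q : s.Q) : S.V :=
  if h : s.Est S q then ((h.2.2.2.choose.length : ℝ)⁻¹) • S.τ (ev s.lab h.2.2.2.choose) else 0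

/-- the same vector in the frame of the base point -/
noncomputable def av (p : List s.X) : S.V := (S.R ^ S.e (ev s.lab p)) (s.vel S (s.st p))

/-- a time window spent in one elliptic cycle, with velocity `Ω` -/
def Win (w : List s.X) (a b : ℕ) (Ω : S.V) : Prop :=
  a ≤ b ∧ b ≤ w.length ∧ ∀ n, a ≤ n → n ≤ b →
    s.Est S (s.st (w.take n)) ∧ s.rank (s.st (w.take n)) = s.rank (s.st (w.take a)) ∧ s.av S (w.take n) = Ω

variable {s S}

theorem Win.sub {w : List s.X} {a b a' b' : ℕ} {Ω : S.V} (h : s.Win S w a b Ω) (h1 : a ≤ a') (h2 : a' ≤ b')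
    (h3 : b' ≤ b) : s.Win S w a' b' Ω := by
  refine ⟨h2, h3.trans h.2.1, fun n hn hn' => ?_⟩
  obtain ⟨e1, e2, e3⟩ := h.2.2 n (h1.trans hn) (hn'.trans h3)
  exact ⟨e1, e2.trans (h.2.2 a' h1 (h2.trans h3)).2.1.symm, e3⟩

theorem vela_pow {q : s.Q} {y : List s.X} (hy : s.δ q y = q) (n : ℕ) :
    s.δ q (List.replicate n y).flatten = q ∧ ev s.lab (List.replicate n y).flatten = ev s.lab y ^ n ∧
      (List.replicate n y).flatten.length = n * y.length := by
  induction n with
  | zero => simp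
  | succ n ih =>
    rw [List.replicate_succ, List.flatten_cons, δ_append, hy, ev_append, List.length_append, ih.2.1,
      ih.2.2, pow_succ']
    exact ⟨ih.1, rfl, by ring⟩

theorem vela_spec {q : s.Q} (h : s.Est S q) : ∃ z, z ≠ [] ∧ s.δ q z = q ∧ ev s.lab z ∈ S.L ∧
    s.vel S q = ((z.length : ℝ)⁻¹) • S.τ (ev s.lab z) :=
  ⟨_, h.2.2.2.choose_spec.1, h.2.2.2.choose_spec.2.1, h.2.2.2.choose_spec.2.2, dif_pos h⟩

/-- With `z` the chosen loop: the `|z|`-th power of `y` and the `|y|`-th power of `z` are comparable loops of the same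
length, hence equal. -/
theorem Est.loop {q : s.Q} (h : s.Est S q) {y : List s.X} (hy : s.δ q y = q) :
    S.e (ev s.lab y) = 0 ∧ S.τ (ev s.lab y) = (y.length : ℝ) • s.vel S q := by
  obtain ⟨z, z0, z1, z2, z3⟩ := vela_spec h
  obtain ⟨a1, a2, a3⟩ := vela_pow hy z.length
  obtain ⟨b1, b2, b3⟩ := vela_pow z1 y.length
  have hl : (List.replicate z.length y).flatten.length = (List.replicate y.length z).flatten.length := by
    rw [a3, b3, mul_comm]
  have he : ev s.lab y ^ z.length = ev s.lab z ^ y.length := by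
    rw [← a2, ← b2]
    rcases h.2.2.1 _ _ a1 b1 with c | c
    · rw [c.eq_of_length hl]
    · rw [c.eq_of_length hl.symm]
  have hz : z.length ≠ 0 := fun e => z0 (List.length_eq_zero_iff.1 e)
  have e0 : S.e (ev s.lab y) = 0 := by
    have := congrArg S.e he
    rw [S.e_pow, S.e_pow, S.e_L z2, mul_zero] at this
    exact (mul_eq_zero.1 this).resolve_left (by exact_mod_cast hz)
  refine ⟨e0, ?_⟩
  have t := congrArg S.τ he
  rw [S.τ_pow e0, S.τ_pow (S.e_L z2)] at t
  rw [z3, smul_comm, ← t, inv_smul_smul₀ (by exact_mod_cast hz)]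

/-- otherwise the chosen loop has value `1`, against `eq_of_ev` -/
theorem Est.vel_ne {q : s.Q} (h : s.Est S q) : s.vel S q ≠ 0 := by
  intro h0
  obtain ⟨z, z0, z1, z2, -⟩ := vela_spec h
  obtain ⟨p, rfl⟩ := h.1
  have t := (h.loop z1).2
  rw [h0, smul_zero, ← S.τ_one] at t
  have e := S.τ_inj z2 (one_mem _) t
  exact z0 (s.eq_of_ev (p := p) (u := []) (v := z) h.2.1 z1.symm (one_mem Z) (by simp [e])).symm

/-- `u ++ b` is a loop at `q`, `b ++ u` is a loop at `δ q u`, and their values are conjugate -/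
theorem Est.vel_step {q : s.Q} {u : List s.X} (h : s.Est S q) (h' : s.Est S (s.δ q u))
    (hr : s.rank (s.δ q u) = s.rank q) : (S.R ^ S.e (ev s.lab u)) (s.vel S (s.δ q u)) = s.vel S q := by
  obtain ⟨b, hb⟩ := s.back_of_rank hr
  have t1 := (h.loop (y := u ++ b) (by rw [δ_append, hb])).2
  obtain ⟨e2, t2⟩ := h'.loop (y := b ++ u) (by rw [δ_append, hb])
  by_cases hu : u = []
  · subst hu
    simp [S.e_one]
  · have hn : ((u ++ b).length : ℝ) ≠ 0 := by
      have := List.length_pos_iff.2 hu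
      rw [List.length_append]
      positivity
    have c := S.τ_conj (ev s.lab u) e2
    rw [t2, ev_append, ← mul_assoc, mul_inv_cancel_right, ← ev_append, t1, map_smul,
      List.length_append (as := b), add_comm, ← List.length_append] at c
    exact (smul_right_injective _ hn c).symm

theorem vela_const {f : ℕ → ℕ} (hf : Antitone f) (k c : ℕ) :
    ∀ a, f a ≤ c → ∃ a', a ≤ a' ∧ a' + k ≤ a + (c + 1) * k ∧ f (a' + k) = f a' := by
  induction c with
  | zero =>
    intro a h
    have := hf (Nat.le_add_right a k)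
    exact ⟨a, le_rfl, by omega, by omega⟩
  | succ c ih =>
    intro a h
    have := hf (Nat.le_add_right a k)
    by_cases e : f (a + k) = f a
    · exact ⟨a, le_rfl, by nlinarith [Nat.zero_le (c * k)], e⟩
    · obtain ⟨a', h1, h2, h3⟩ := ih (a + k) (by omega)
      exact ⟨a', by omega, by nlinarith, h3⟩

theorem vela_take {X : Type} (w : List X) {n n' : ℕ} (h : n ≤ n') :
    w.take n' = w.take n ++ (w.take n').drop n := by
  conv_lhs => rw [← List.take_append_drop n (w.take n'), List.take_take, min_eq_left h]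

variable (s S)

/-- A long stay in a bounded part of the tree contains a long window.  The rank along `w` is non-increasing with values
in `[0, card Q]`, so it is constant on a subinterval of length `l + M` (`M` from `loop_bound`); the states in the first
`l + 1` places are `Est`, and `av` is constant by `Est.vel_step`. -/
theorem win_of_bounded (hg : S.Good s.lab) (D l : ℕ) : ∃ l' : ℕ, ∀ w ∈ s.M.accepts, ∀ a b, a + l' ≤ b →
    b ≤ w.length →
    (∀ n n', a ≤ n → n ≤ n' → n' ≤ b → S.TL D ((ev s.lab (w.take n))⁻¹ * ev s.lab (w.take n'))) →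
    ∃ a' Ω, a ≤ a' ∧ a' + l ≤ b ∧ s.Win S w a' (a' + l) Ω := by
  obtain ⟨M, hM⟩ := s.loop_bound S hg D
  refine ⟨(Nat.card s.Q + 1) * (l + M), fun w hw a b hab hb htl => ?_⟩
  have hd : ∀ {n n' : ℕ}, n ≤ n' → s.δ (s.st (w.take n)) ((w.take n').drop n) = s.st (w.take n') :=
    fun h => by rw [← st_append, ← vela_take w h]
  have hf : Antitone fun n => s.rank (s.st (w.take n)) := fun n n' h => by
    dsimp only
    rw [← hd h]
    exact s.rank_le _ _
  obtain ⟨a', h1, h2, h3⟩ := vela_const hf (l + M) _ a (s.rank_le_card _)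
  have hr : ∀ n, a' ≤ n → n ≤ a' + (l + M) → s.rank (s.st (w.take n)) = s.rank (s.st (w.take a')) :=
    fun n h h' => le_antisymm (hf h) (h3.symm.trans_le (hf h'))
  have he : ∀ n, a' ≤ n → n ≤ a' + l → s.Est S (s.st (w.take n)) := fun n h h' => by
    have h4 : n ≤ a' + (l + M) := by omega
    refine hM _ ((w.take (a' + (l + M))).drop n) ⟨_, rfl⟩ ?_ ?_ ?_ ?_
    · rw [hd h4]
      exact s.co_take hw _
    · rw [hd h4, hr n h h4]
      exact h3
    · have := htl n (a' + (l + M)) (by omega) h4 (by omega)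
      rwa [vela_take w h4, ev_append, inv_mul_cancel_left] at this
    · rw [List.length_drop, List.length_take]
      omega
  refine ⟨a', s.av S (w.take a'), h1, by omega, by omega, by omega, fun n h h' =>
    ⟨he n h h', hr n h (by omega), ?_⟩⟩
  have v := (he a' le_rfl (by omega)).vel_step (u := (w.take n).drop a') (by rw [hd h]; exact he n h h')
    (by rw [hd h]; exact hr n h (by omega))
  rw [av, av, ← v, hd h]
  conv_lhs => rw [vela_take w h, ev_append, S.e_mul, zpow_add, ← vela_take w h]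
  rfl

/-- without periodic velocities the exponent of a window is determined up to a constant by its velocity -/
theorem exp_rigid (h : ∀ q, s.Est S q → ¬S.Per (s.vel S q)) : ∃ C : ℕ, ∀ p p', s.Est S (s.st p) →
    s.Est S (s.st p') → s.av S p = s.av S p' → |S.e (ev s.lab p) - S.e (ev s.lab p')| ≤ C := by
  have k0 : ∀ (v : S.V) (k : ℤ), k ≠ 0 → (S.R ^ k) v = v → S.Per v := fun v k hk e => by
    refine ⟨k.natAbs, Int.natAbs_pos.2 hk, ?_⟩
    rcases Int.natAbs_eq k with c | c
    · rwa [c, zpow_natCast] at e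
    · rw [c, zpow_neg, zpow_natCast] at e
      conv_lhs => rw [← e]
      exact (S.R ^ k.natAbs).apply_symm_apply v
  have sub : ∀ (v v' : S.V) (k k' : ℤ), (S.R ^ k) v = (S.R ^ k') v' → (S.R ^ (k - k')) v = v' :=
    fun v v' k k' e => by
      rw [sub_eq_neg_add, zpow_add, zpow_neg]
      change (S.R ^ k').symm ((S.R ^ k) v) = v'
      rw [e, LinearIsometryEquiv.symm_apply_apply]
  have key : ∀ x : s.Q × s.Q, ∃ C : ℕ, ∀ k : ℤ, s.Est S x.1 → (S.R ^ k) (s.vel S x.1) = s.vel S x.2 →
      |k| ≤ C := fun x => by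
    by_cases e : ∃ k : ℤ, (S.R ^ k) (s.vel S x.1) = s.vel S x.2
    · obtain ⟨k, hk⟩ := e
      refine ⟨k.natAbs, fun k' he hk' => ?_⟩
      by_cases c : k' - k = 0
      · rw [sub_eq_zero.1 c, Int.natCast_natAbs]
      · exact absurd (k0 _ _ c (sub _ _ _ _ (hk'.trans hk.symm))) (h _ he)
    · exact ⟨0, fun k _ hk => absurd ⟨k, hk⟩ e⟩
  choose f hf using key
  obtain ⟨C, hC⟩ := (Set.finite_range f).bddAbove
  refine ⟨C, fun p p' e _ ha => (hf (s.st p, s.st p') _ e (sub _ _ _ _ ha)).trans ?_⟩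
  exact_mod_cast hC ⟨_, rfl⟩

end Str

end Pool.Agent.MP_6674cc_al

/-! Velocity of the elliptic cycles; it is inherited by fellow travellers. -/

namespace Pool.Agent.MP_6674cc_al

namespace Str

variable {Γ : Type} [Group Γ] {Z : Subgroup Γ} (s : Str Γ Z) (S : Setup Γ)

theorem vel_seg {X : Type} (w : List X) {n n' : ℕ} (h : n ≤ n') (h' : n' ≤ w.length) :
    ∃ y : List X, w.take n' = w.take n ++ y ∧ y.length = n' - n := by
  refine ⟨(w.take n').drop n, ?_, ?_⟩
  · conv_lhs => rw [← List.take_append_drop n (w.take n')]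
    rw [List.take_take, min_eq_left h]
  · rw [List.length_drop, List.length_take, min_eq_left h']

/-- Transfer to a fellow traveller.  Let `D` be the finite set of differences for `γ`, all with `TL K`.  The part of
the window after the end of `v` is short (`time_le`).  On the rest `v` stays in a bounded part of the tree (`est_tl`;
`z` is in the normal core, so `p⁻¹ * z * p ∈ L`), so `win_of_bounded` gives a long window for `v` with some `Ω'`.
In it two times `n < n'` have the same pair of states and the same difference; the two loops `y`, `y'` have the same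
length and `p * ev y * p⁻¹ = z * (p' * ev y' * p'⁻¹) * z⁻¹`; apply `τ_conj` and `Est.loop`. -/
theorem win_transfer (hg : S.Good s.lab) (hZ : Z ≤ S.L.normalCore) (γ : Γ) (l : ℕ) : ∃ l' : ℕ,
    ∀ u ∈ s.M.accepts, ∀ v ∈ s.M.accepts, ∀ z ∈ Z, ev s.lab u * γ = z * ev s.lab v → ∀ a b Ω, a + l' ≤ b →
      s.Win S u a b Ω → ∃ a', a ≤ a' ∧ a' + l ≤ b ∧ s.Win S v a' (a' + l) Ω := by
  classical
  obtain ⟨D, hD, hft⟩ := s.ft γ
  obtain ⟨K, hK⟩ := Setup.exists_tl_of_finite (S := S) hD
  obtain ⟨C, hC⟩ := s.est_tl S hg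
  have : Finite D := hD.to_subtype
  set N := Nat.card (s.Q × s.Q × D) with hN
  obtain ⟨l₁, hl₁⟩ := s.win_of_bounded S hg (K + C + K) (l + N)
  refine ⟨l₁ + Nat.card s.Q * hD.toFinset.card, ?_⟩
  intro u hu v hv z hz he a b Ω hab hw
  have hd := hft u hu v hv z hz he
  obtain ⟨-, hbu, hwin⟩ := id hw
  have h1 : b ≤ min b v.length + Nat.card s.Q * hD.toFinset.card := by
    have h2 := s.time_le hu (F := hD.toFinset.image fun d => z * ev s.lab v * d⁻¹) (a := v.length) hbu (by
      intro n hn _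
      refine Finset.mem_image.mpr ⟨_, hD.mem_toFinset.mpr (hd n), ?_⟩
      rw [List.take_of_length_le hn]
      group)
    have h3 : Nat.card s.Q * (hD.toFinset.image fun d => z * ev s.lab v * d⁻¹).card
        ≤ Nat.card s.Q * hD.toFinset.card := Nat.mul_le_mul_left _ Finset.card_image_le
    omega
  obtain ⟨a', Ω', ha', hb', hw'⟩ := hl₁ v hv a (min b v.length) (by omega) (min_le_right _ _) (by
    intro n n' hn hnn hn'
    have hn'b : n' ≤ b := hn'.trans (min_le_left _ _)
    obtain ⟨y, hy, -⟩ := vel_seg u hnn (hn'b.trans hbu)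
    have h2 := hC (s.st (u.take n)) y (hwin n hn (hnn.trans hn'b)).1 (by
      rw [← s.st_append, ← hy, (hwin n' (hn.trans hnn) hn'b).2.1, (hwin n hn (hnn.trans hn'b)).2.1])
    have h3 := ((hK _ (hd n)).inv.mul h2).mul (hK _ (hd n'))
    have h4 : (ev s.lab (v.take n))⁻¹ * ev s.lab (v.take n')
        = ((ev s.lab (u.take n))⁻¹ * z * ev s.lab (v.take n))⁻¹ * ev s.lab y *
          ((ev s.lab (u.take n'))⁻¹ * z * ev s.lab (v.take n')) := by
      rw [hy, ev_append]
      group
    rw [h4]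
    exact h3)
  have hb1 : a' + (l + N) ≤ b := hb'.trans (min_le_left _ _)
  have hb2 : a' + (l + N) ≤ v.length := hb'.trans (min_le_right _ _)
  have hΩ : Ω' = Ω := by
    have key : ∀ n n', a' ≤ n → n < n' → n' ≤ a' + N → s.st (u.take n) = s.st (u.take n') →
        s.st (v.take n) = s.st (v.take n') →
        (ev s.lab (u.take n))⁻¹ * z * ev s.lab (v.take n)
          = (ev s.lab (u.take n'))⁻¹ * z * ev s.lab (v.take n') → Ω' = Ω := by
      intro n n' hn hnn hn' e1 e2 e3
      obtain ⟨y, hy, hyl⟩ := vel_seg u hnn.le (by omega : n' ≤ u.length)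
      obtain ⟨y', hy', hyl'⟩ := vel_seg v hnn.le (by omega : n' ≤ v.length)
      obtain ⟨f1, -, f2⟩ := hwin n (by omega) (by omega)
      obtain ⟨g1, -, g2⟩ := hw'.2.2 n hn (by omega)
      obtain ⟨f3, f4⟩ := f1.loop (y := y) (by rw [← s.st_append, ← hy, e1])
      obtain ⟨g3, g4⟩ := g1.loop (y := y') (by rw [← s.st_append, ← hy', e2])
      rw [hy, hy', ev_append, ev_append] at e3
      have e4 : ev s.lab (u.take n) * ev s.lab y * (ev s.lab (u.take n))⁻¹
          = (z * ev s.lab (v.take n)) * ev s.lab y' * (z * ev s.lab (v.take n))⁻¹ := by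
        calc _ = ev s.lab (u.take n) * ev s.lab y *
              ((ev s.lab (u.take n))⁻¹ * z * ev s.lab (v.take n)) * (z * ev s.lab (v.take n))⁻¹ := by
              group
          _ = _ := by rw [e3]; group
      have e5 := congrArg S.τ e4
      rw [S.τ_conj _ f3, S.τ_conj _ g3, f4, g4, S.e_mul, S.e_L (S.core_le (hZ hz)), zero_add, map_smul,
        map_smul, hyl, hyl'] at e5
      have e6 : ((n' - n : ℕ) : ℝ) ≠ 0 := by
        have : n' - n ≠ 0 := by omega
        exact_mod_cast this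
      have e7 := smul_right_injective _ e6 e5
      rw [← f2, ← g2]
      exact e7.symm
    let f : Fin (N + 1) → s.Q × s.Q × D := fun i =>
      (s.st (u.take (a' + i)), s.st (v.take (a' + i)), ⟨_, hd (a' + i)⟩)
    have hni : ¬Function.Injective f := by
      intro hi
      have := Nat.card_le_card_of_injective f hi
      rw [Nat.card_eq_fintype_card, Fintype.card_fin] at this
      omega
    obtain ⟨i, j, hij, hne⟩ := Function.not_injective_iff.mp hni
    simp only [f, Prod.mk.injEq, Subtype.mk.injEq] at hij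
    have hi := i.2
    have hj := j.2
    rcases lt_or_gt_of_ne (fun h => hne (Fin.ext h) : (i : ℕ) ≠ j) with h | h
    · exact key (a' + i) (a' + j) (by omega) (by omega) (by omega) hij.1 hij.2.1 hij.2.2
    · exact key (a' + j) (a' + i) (by omega) (by omega) (by omega) hij.1.symm hij.2.1.symm hij.2.2.symm
  subst hΩ
  exact ⟨a', ha', by omega, hw'.sub le_rfl (by omega) (by omega)⟩

end Str

end Pool.Agent.MP_6674cc_al

end

-- part MP_6674cc_al.Rem
section

/-! Removing the cycles with periodic velocity by passing to a coset space. -/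

namespace Pool.Agent.MP_6674cc_al

variable {Γ : Type} [Group Γ] (S : Setup Γ)

theorem rema_δ_rep {Z : Subgroup Γ} (s : Str Γ Z) {q : s.Q} {z : List s.X} (hz : s.δ q z = q) (k : ℕ) :
    s.δ q (List.replicate k z).flatten = q := by
  induction k with
  | zero => simp
  | succ k ih => rw [List.replicate_succ, List.flatten_cons, Str.δ_append, hz, ih]

theorem rema_ev_rep {X : Type} (lab : X → Γ) (z : List X) (k : ℕ) :
    ev lab (List.replicate k z).flatten = ev lab z ^ k := by
  induction k with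
  | zero => simp
  | succ k ih => rw [List.replicate_succ, List.flatten_cons, ev_append, ih, pow_succ']

theorem rema_len_rep {X : Type} (z : List X) (k : ℕ) : (List.replicate k z).flatten.length = k * z.length := by
  induction k with
  | zero => simp
  | succ k ih => rw [List.replicate_succ, List.flatten_cons, List.length_append, ih]; ring

theorem rema_comm (m : ℕ) (k : ℤ) (v : S.V) : (S.R ^ m) ((S.R ^ k) v) = (S.R ^ k) ((S.R ^ m) v) := by
  have h : S.R ^ m * S.R ^ k = S.R ^ k * S.R ^ m := by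
    rw [← zpow_natCast, ← zpow_add, ← zpow_add, add_comm]
  have h1 : (S.R ^ m * S.R ^ k) v = (S.R ^ k * S.R ^ m) v := by rw [h]
  simpa only [LinearIsometryEquiv.coe_mul, Function.comp_apply] using h1

theorem rema_per_zpow (k : ℤ) (v : S.V) : S.Per ((S.R ^ k) v) ↔ S.Per v := by
  constructor
  · rintro ⟨m, hm, h⟩
    refine ⟨m, hm, (S.R ^ k).injective ?_⟩
    rw [← rema_comm, h]
  · rintro ⟨m, hm, h⟩
    exact ⟨m, hm, by rw [rema_comm, h]⟩

theorem rema_core_loop {Z : Subgroup Γ} (s : Str Γ Z) (q : s.Q) : ∃ (m : ℕ) (w : List s.X), 0 < m ∧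
    (s.Est S q → S.Per (s.vel S q) → w.length = m ∧ s.δ q w = q ∧ ev s.lab w ∈ S.L.normalCore) := by
  by_cases h : s.Est S q ∧ S.Per (s.vel S q)
  · obtain ⟨he, m, hm, hper⟩ := h
    obtain ⟨z, hz0, hz, hzL⟩ := he.2.2.2
    have hτ := (he.loop hz).2
    obtain ⟨D, hD, hc⟩ := S.core _ hzL ⟨m, hm, by rw [hτ, map_smul, hper]⟩
    refine ⟨D * z.length, (List.replicate D z).flatten, Nat.mul_pos hD (List.length_pos_iff.2 hz0), fun _ _ =>
      ⟨rema_len_rep z D, rema_δ_rep s hz D, ?_⟩⟩
    rw [rema_ev_rep]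
    exact hc
  · exact ⟨1, [], Nat.one_pos, fun h1 h2 => absurd ⟨h1, h2⟩ h⟩

/-- Common pumping element.  Let `Ω = av p₀` and call a word `a` *plus* if `Est (st a)` and `av a = Ω`.  For each `Est`
state `q` with periodic velocity take a nonempty loop with value in `L`, and a power of it with value in the normal
core (`S.core`, `Est.loop`); raise these finitely many loops to powers of one common length `n > 0`.  For a plus word
`a` (its velocity is periodic because `Ω` is) the element `ev a * ev (y (st a)) * (ev a)⁻¹` lies in the core and has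
`τ = n • Ω` (`τ_conj`, `Est.loop`), so it does not depend on `a` (`τ_inj`). -/
theorem exists_pump {Z : Subgroup Γ} (s : Str Γ Z) {p₀ : List s.X} (h₀ : s.Est S (s.st p₀))
    (hp : S.Per (s.vel S (s.st p₀))) :
    ∃ (η : Γ) (n : ℕ) (y : s.Q → List s.X), η ∈ S.L.normalCore ∧ 0 < n ∧
      ∀ a, s.Est S (s.st a) → s.av S a = s.av S p₀ →
        (y (s.st a)).length = n ∧ s.δ (s.st a) (y (s.st a)) = s.st a ∧
          ev s.lab (a ++ y (s.st a)) = η * ev s.lab a := by
  classical
  choose m w hm hw using rema_core_loop S s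
  have : Fintype s.Q := Fintype.ofFinite _
  set n : ℕ := ∏ q, m q with hn
  have hn0 : 0 < n := Finset.prod_pos fun q _ => hm q
  let y : s.Q → List s.X := fun q => (List.replicate (n / m q) (w q)).flatten
  have hy : ∀ q, s.Est S q → S.Per (s.vel S q) →
      (y q).length = n ∧ s.δ q (y q) = q ∧ ev s.lab (y q) ∈ S.L.normalCore := by
    intro q h1 h2
    obtain ⟨hl, hd, hc⟩ := hw q h1 h2
    refine ⟨?_, rema_δ_rep s hd _, ?_⟩
    · rw [rema_len_rep, hl]
      exact Nat.div_mul_cancel (Finset.dvd_prod_of_mem m (Finset.mem_univ q))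
    · rw [rema_ev_rep]
      exact pow_mem hc _
  have hper : ∀ a, s.av S a = s.av S p₀ → S.Per (s.vel S (s.st a)) := by
    intro a ha
    have h1 : S.Per (s.av S p₀) := (rema_per_zpow S _ _).2 hp
    rw [← ha] at h1
    exact (rema_per_zpow S _ _).1 h1
  have key : ∀ a, s.Est S (s.st a) → s.av S a = s.av S p₀ →
      ev s.lab a * ev s.lab (y (s.st a)) * (ev s.lab a)⁻¹ ∈ S.L.normalCore ∧
        S.τ (ev s.lab a * ev s.lab (y (s.st a)) * (ev s.lab a)⁻¹) = (n : ℝ) • s.av S p₀ := by
    intro a h1 h2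
    obtain ⟨hl, hd, hc⟩ := hy _ h1 (hper a h2)
    refine ⟨(Subgroup.normalCore_normal S.L).conj_mem _ hc _, ?_⟩
    obtain ⟨e0, hτ⟩ := h1.loop hd
    rw [S.τ_conj _ e0, hτ, hl, map_smul, ← h2]
    rfl
  refine ⟨ev s.lab p₀ * ev s.lab (y (s.st p₀)) * (ev s.lab p₀)⁻¹, n, y, (key p₀ h₀ rfl).1, hn0, fun a h1 h2 => ?_⟩
  obtain ⟨hl, hd, -⟩ := hy _ h1 (hper a h2)
  refine ⟨hl, hd, ?_⟩
  have heq := S.τ_inj (S.core_le (key a h1 h2).1) (S.core_le (key p₀ h₀ rfl).1)
    ((key a h1 h2).2.trans (key p₀ h₀ rfl).2.symm)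
  rw [ev_append, ← heq, inv_mul_cancel_right]

end Pool.Agent.MP_6674cc_al

/-! Removing the cycles with periodic velocity by passing to a coset space. -/

namespace Pool.Agent.MP_6674cc_al

variable {Γ : Type} [Group Γ] (S : Setup Γ)

/-- the words `t` such that `b ++ t` starts with `y` -/
theorem remr_res {X : Type} (b y : List X) : {t | y <+: b ++ t} = ∅ ∨
    ∃ r : List X, r.length ≤ y.length ∧ {t | y <+: b ++ t} = {t | r <+: t} := by
  induction b generalizing y with
  | nil => exact Or.inr ⟨y, le_rfl, rfl⟩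
  | cons x b ih =>
    cases y with
    | nil => exact Or.inr ⟨[], le_rfl, by simp⟩
    | cons z y =>
      by_cases h : z = x
      · have e : {t | z :: y <+: x :: b ++ t} = {t | y <+: b ++ t} := by
          ext t
          simp [h]
        rw [e]
        exact (ih y).imp id fun ⟨r, h1, h2⟩ => ⟨r, h1.trans (Nat.le_succ _), h2⟩
      · left
        ext t
        simp [h]

theorem remr_gen {X K : Type} [Finite X] (κ : List X → K) (hfin : (Set.range κ).Finite)
    (hstep : ∀ a b x, κ a = κ b → κ (a ++ [x]) = κ (b ++ [x])) (A P : List X → Prop)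
    (y : List X → List X) (hA : ∀ a b, κ a = κ b → A a → A b) (hP : ∀ a b, κ a = κ b → P a → P b)
    (hy : ∀ a b, κ a = κ b → y a = y b) (n : ℕ) (hn : ∀ a, P a → (y a).length = n) :
    Language.IsRegular ({w | A w ∧ ∃ a b, w = a ++ b ∧ P a ∧ (∀ a', a' <+: a → P a' → a' = a) ∧
      ¬y a <+: b} : Language X) := by
  let E : List X → Prop := fun w => ∃ a, a <+: w ∧ P a
  let C : List X → Set (List X) := fun w =>
    {t | ∃ a b, w = a ++ b ∧ P a ∧ (∀ a', a' <+: a → P a' → a' = a) ∧ ¬y a <+: b ++ t}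
  have hE : ∀ w x, E (w ++ [x]) ↔ E w ∨ P (w ++ [x]) := fun w x => by
    constructor
    · rintro ⟨a, h1, h2⟩
      rcases List.prefix_concat_iff.1 h1 with rfl | h1
      exacts [Or.inr h2, Or.inl ⟨a, h1, h2⟩]
    · rintro (⟨a, h1, h2⟩ | h)
      exacts [⟨a, h1.trans (List.prefix_append _ _), h2⟩, ⟨_, List.prefix_refl _, h⟩]
  have hC : ∀ w x t, t ∈ C (w ++ [x]) ↔
      x :: t ∈ C w ∨ (¬E w ∧ P (w ++ [x]) ∧ ¬y (w ++ [x]) <+: t) := fun w x t => by
    constructor
    · rintro ⟨a, b, h1, h2, h3, h4⟩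
      rcases List.eq_nil_or_concat' b with rfl | ⟨b', x', rfl⟩
      · rw [List.append_nil] at h1
        subst h1
        refine Or.inr ⟨fun ⟨a', k1, k2⟩ => ?_, h2, h4⟩
        have := congrArg List.length (h3 a' (k1.trans (List.prefix_append _ _)) k2)
        have := k1.length_le
        simp only [List.length_append, List.length_singleton] at *
        omega
      · rw [← List.append_assoc] at h1
        obtain ⟨rfl, h5⟩ := List.append_inj' h1 rfl
        obtain rfl : x = x' := by simpa using h5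
        exact Or.inl ⟨a, b', rfl, h2, h3, by simpa using h4⟩
    · rintro (⟨a, b, rfl, h2, h3, h4⟩ | ⟨h1, h2, h3⟩)
      · exact ⟨a, b ++ [x], List.append_assoc _ _ _, h2, h3, by simpa using h4⟩
      · refine ⟨w ++ [x], [], by simp, h2, fun a' k1 k2 => ?_, h3⟩
        exact (List.prefix_concat_iff.1 k1).resolve_right fun k => h1 ⟨a', k, k2⟩
  have hCf : (Set.range C).Finite := by
    refine ((((List.finite_length_le X n).image fun r => {t | r <+: t}ᶜ).insert Set.univ).insert
      ∅).subset ?_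
    rintro _ ⟨w, rfl⟩
    rcases (C w).eq_empty_or_nonempty with h | ⟨t₀, a, b, rfl, h2, h3, -⟩
    · exact Or.inl h
    have e : C (a ++ b) = {t | y a <+: b ++ t}ᶜ := by
      ext t
      refine ⟨?_, fun h => ⟨a, b, rfl, h2, h3, h⟩⟩
      rintro ⟨a', b', k1, k2, k3, k4⟩
      have : a' = a := by
        rcases List.prefix_or_prefix_of_prefix (List.prefix_append a b)
          (k1 ▸ List.prefix_append a' b') with k | k
        exacts [(k3 a k h2).symm, h3 a' k k2]
      subst this
      rw [List.append_cancel_left k1]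
      exact k4
    rw [e]
    rcases remr_res b (y a) with h | ⟨r, r1, r2⟩
    · exact Or.inr (Or.inl (by rw [h, Set.compl_empty]))
    · exact Or.inr (Or.inr ⟨r, r1.trans (hn a h2).le, by rw [r2]⟩)
  refine regular_of_cong _ (fun w => (κ w, E w, C w)) ?_ (fun a b x h => ?_) (fun a b h ha => ?_)
  · refine (hfin.prod ((Set.toFinite (Set.univ : Set Prop)).prod hCf)).subset ?_
    rintro _ ⟨w, rfl⟩
    exact ⟨⟨w, rfl⟩, trivial, w, rfl⟩
  · simp only [Prod.mk.injEq] at h ⊢
    obtain ⟨h1, h2, h3⟩ := h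
    have k := hstep a b x h1
    have p : P (a ++ [x]) ↔ P (b ++ [x]) := ⟨hP _ _ k, hP _ _ k.symm⟩
    refine ⟨k, by rw [hE, hE, h2, p], Set.ext fun t => ?_⟩
    rw [hC, hC, h2, h3, p, hy _ _ k]
  · simp only [Prod.mk.injEq] at h
    have k : [] ∈ C a := by simpa [C] using ha.2
    rw [h.2.2] at k
    exact ⟨hA _ _ h.1 ha.1, by simpa [C] using k⟩

theorem remr_orbit {Ω : S.V} (hΩ : S.Per Ω) : (Set.range fun k : ℤ => (S.R ^ k) Ω).Finite := by
  obtain ⟨m, hm, h⟩ := hΩ
  let H : Subgroup (S.V ≃ₗᵢ[ℝ] S.V) :=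
    { carrier := {g | g Ω = Ω}
      mul_mem' := fun {a b} ha hb => show a (b Ω) = Ω by rw [hb, ha]
      one_mem' := rfl
      inv_mem' := fun {a} ha => show a.symm Ω = Ω from a.symm_apply_eq.2 (Eq.symm ha) }
  refine ((Set.finite_Ico (0 : ℤ) m).image fun k : ℤ => (S.R ^ k) Ω).subset ?_
  rintro _ ⟨k, rfl⟩
  have m0 : (0 : ℤ) < m := by exact_mod_cast hm
  refine ⟨k % m, ⟨Int.emod_nonneg _ m0.ne', Int.emod_lt_of_pos _ m0⟩, ?_⟩
  have h1 : (S.R ^ m) ^ (k / m) ∈ H := H.zpow_mem h _
  have h2 : S.R ^ k = S.R ^ (k % m) * (S.R ^ m) ^ (k / m) := by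
    rw [← zpow_natCast, ← zpow_mul, ← zpow_add, Int.emod_add_mul_ediv]
  show (S.R ^ (k % m)) Ω = (S.R ^ k) Ω
  rw [h2]
  exact congrArg _ (Eq.symm h1)

/-- The words whose first plus initial segment `a` is not followed by `y (st a)` form a regular language.  Use
`regular_of_cong` with `κ w = (st w, e (ev w) mod P, status w)`, where `P` is a period of `Ω` and the status is `none`
before the first plus initial segment `a` and `some (st a, b.take n)` for `w = a ++ b` (or build the status by a left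
fold); being plus depends only on the first two components. -/
theorem regular_cut {Z : Subgroup Γ} (s : Str Γ Z) {Ω : S.V} (hΩ : S.Per Ω) (n : ℕ) (y : s.Q → List s.X)
    (hy : ∀ a, s.Est S (s.st a) → s.av S a = Ω → (y (s.st a)).length = n) :
    Language.IsRegular ({w | w ∈ s.M.accepts ∧ ∃ a b, w = a ++ b ∧ s.Est S (s.st a) ∧ s.av S a = Ω ∧
      (∀ a', a' <+: a → s.Est S (s.st a') → s.av S a' = Ω → a' = a) ∧ ¬y (s.st a) <+: b} : Language s.X) := by
  have hav : ∀ a, s.av S a = Ω ↔ s.vel S (s.st a) = (S.R ^ (-S.e (ev s.lab a))) Ω := fun a => by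
    rw [zpow_neg]
    exact (LinearIsometryEquiv.eq_symm_apply _).symm
  have key := remr_gen (fun w => (s.st w, (S.R ^ (-S.e (ev s.lab w))) Ω))
    (((Set.toFinite (Set.univ : Set s.Q)).prod (remr_orbit S hΩ)).subset (by
      rintro _ ⟨w, rfl⟩
      exact ⟨trivial, _, rfl⟩))
    (fun a b x h => by
      simp only [Prod.mk.injEq] at h ⊢
      refine ⟨by rw [s.st_append, s.st_append, h.1], ?_⟩
      rw [ev_append, ev_append, S.e_mul, S.e_mul, neg_add_rev, neg_add_rev, zpow_add, zpow_add]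
      exact congrArg (S.R ^ (-S.e (ev s.lab [x]))) h.2)
    (fun w => w ∈ s.M.accepts) (fun a => s.Est S (s.st a) ∧ s.av S a = Ω) (fun a => y (s.st a))
    (fun a b h ha => by
      rw [s.mem_acc] at ha ⊢
      rwa [← (Prod.mk.inj h).1])
    (fun a b h ha => by
      rw [hav] at ha ⊢
      rwa [← (Prod.mk.inj h).1, ← (Prod.mk.inj h).2])
    (fun a b h => congrArg y (Prod.mk.inj h).1) n fun a ha => hy a ha.1 ha.2
  simpa only [and_assoc, and_imp] using key

end Pool.Agent.MP_6674cc_al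

/-! Removing the cycles with periodic velocity by passing to a coset space. -/

namespace Pool.Agent.MP_6674cc_al

variable {Γ : Type} [Group Γ] (S : Setup Γ)

/-- powers of the pumped loop -/
def remb_pw {X Q : Type} (y : Q → List X) (q : Q) (k : ℕ) : List X := (List.replicate k (y q)).flatten

theorem remb_pw_zero {X Q : Type} (y : Q → List X) (q : Q) : remb_pw y q 0 = [] := rfl

theorem remb_pw_succ {X Q : Type} (y : Q → List X) (q : Q) (k : ℕ) :
    remb_pw y q (k + 1) = y q ++ remb_pw y q k := by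
  simp [remb_pw, List.replicate_succ]

theorem remb_pw_length {X Q : Type} (y : Q → List X) (q : Q) (k : ℕ) :
    (remb_pw y q k).length = k * (y q).length := by
  induction k with
  | zero => simp [remb_pw_zero]
  | succ k ih => rw [remb_pw_succ, List.length_append, ih]; ring

theorem remb_zpow_apply (i j : ℤ) (v : S.V) : (S.R ^ (i + j)) v = (S.R ^ i) ((S.R ^ j) v) := by
  rw [zpow_add]; rfl

theorem remb_per {v : S.V} (h : S.Per v) (i : ℤ) : S.Per ((S.R ^ i) v) := by
  obtain ⟨m, hm, hv⟩ := h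
  refine ⟨m, hm, ?_⟩
  have h1 : (S.R ^ (m : ℤ)) v = v := by rw [zpow_natCast]; exact hv
  rw [← zpow_natCast, ← remb_zpow_apply, add_comm, remb_zpow_apply, h1]

theorem remb_mem_sup {Z : Subgroup Γ} (hZ : Z ≤ S.L.normalCore) {η : Γ} (hη : η ∈ S.L.normalCore) {x : Γ}
    (hx : x ∈ Z ⊔ Subgroup.zpowers η) : ∃ z ∈ Z, ∃ k : ℤ, x = z * η ^ k := by
  have hc : ∀ z ∈ Z, ∀ k : ℤ, η ^ k * z = z * η ^ k := fun z hz k =>
    S.L_comm (S.L.zpow_mem (S.core_le hη) k) (S.core_le (hZ hz))
  let H : Subgroup Γ :=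
    { carrier := {x | ∃ z ∈ Z, ∃ k : ℤ, x = z * η ^ k}
      one_mem' := ⟨1, Z.one_mem, 0, by simp⟩
      mul_mem' := by
        rintro _ _ ⟨z, hz, k, rfl⟩ ⟨z', hz', k', rfl⟩
        refine ⟨z * z', Z.mul_mem hz hz', k + k', ?_⟩
        rw [zpow_add, mul_assoc, ← mul_assoc (η ^ k), hc z' hz' k]
        simp only [mul_assoc]
      inv_mem' := by
        rintro _ ⟨z, hz, k, rfl⟩
        refine ⟨z⁻¹, Z.inv_mem hz, -k, ?_⟩
        rw [mul_inv_rev, ← zpow_neg, hc _ (Z.inv_mem hz)] }
  have hle : Z ⊔ Subgroup.zpowers η ≤ H := by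
    refine sup_le (fun z hz => ⟨z, hz, 0, by simp⟩) ?_
    rintro _ ⟨k, rfl⟩
    exact ⟨1, Z.one_mem, k, by simp⟩
  exact hle hx

/-- the data of a common pumping element -/
structure remb_Pump {Z : Subgroup Γ} (s : Str Γ Z) (Ω : S.V) (η : Γ) (n : ℕ) (y : s.Q → List s.X) : Prop where
  core : η ∈ S.L.normalCore
  pos : 0 < n
  hy : ∀ a, s.Est S (s.st a) → s.av S a = Ω →
    (y (s.st a)).length = n ∧ s.δ (s.st a) (y (s.st a)) = s.st a ∧ ev s.lab (a ++ y (s.st a)) = η * ev s.lab a

/-- plus words -/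
def remb_Plus {Z : Subgroup Γ} (s : Str Γ Z) (Ω : S.V) (a : List s.X) : Prop :=
  s.Est S (s.st a) ∧ s.av S a = Ω

/-- the first cut of a word of the new language -/
structure remb_Cut {Z : Subgroup Γ} (s : Str Γ Z) (Ω : S.V) (y : s.Q → List s.X) (a b : List s.X) : Prop where
  acc : a ++ b ∈ s.M.accepts
  plus : remb_Plus S s Ω a
  first : ∀ a', a' <+: a → s.Est S (s.st a') → s.av S a' = Ω → a' = a
  nf : ¬y (s.st a) <+: b

section
variable {S} {Z : Subgroup Γ} {s : Str Γ Z} {Ω : S.V} {η : Γ} {n : ℕ} {y : s.Q → List s.X}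

theorem remb_pump (h : remb_Pump S s Ω η n y) (k : ℕ) : ∀ {a : List s.X}, remb_Plus S s Ω a →
    s.δ (s.st a) (remb_pw y (s.st a) k) = s.st a ∧
      ev s.lab (a ++ remb_pw y (s.st a) k) = η ^ k * ev s.lab a := by
  induction k with
  | zero => intro a _; simp [remb_pw_zero]
  | succ k ih =>
    intro a ha
    obtain ⟨-, h2, h3⟩ := h.hy a ha.1 ha.2
    have hst : s.st (a ++ y (s.st a)) = s.st a := by rw [s.st_append, h2]
    have hp : remb_Plus S s Ω (a ++ y (s.st a)) := by
      refine ⟨by rw [hst]; exact ha.1, ?_⟩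
      have := ha.2
      unfold Str.av at this ⊢
      rw [hst, h3, S.e_mul, S.e_L (S.core_le h.core), zero_add, this]
    obtain ⟨i1, i2⟩ := ih hp
    rw [hst] at i1 i2
    refine ⟨by rw [remb_pw_succ, s.δ_append, h2, i1], ?_⟩
    rw [remb_pw_succ, ← List.append_assoc, i2, h3, pow_succ, mul_assoc]

theorem remb_len (h : remb_Pump S s Ω η n y) {a : List s.X} (ha : remb_Plus S s Ω a) (k : ℕ) :
    (remb_pw y (s.st a) k).length = k * n := by
  rw [remb_pw_length, (h.hy a ha.1 ha.2).1]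

theorem remb_acc (h : remb_Pump S s Ω η n y) {a : List s.X} (ha : remb_Plus S s Ω a) (k : ℕ) (b : List s.X) :
    a ++ (remb_pw y (s.st a) k ++ b) ∈ s.M.accepts ↔ a ++ b ∈ s.M.accepts := by
  rw [s.append_mem_acc, s.append_mem_acc, s.δ_append, (remb_pump h k ha).1]

theorem remb_ev (h : remb_Pump S s Ω η n y) {a : List s.X} (ha : remb_Plus S s Ω a) (k : ℕ) (b : List s.X) :
    ev s.lab (a ++ (remb_pw y (s.st a) k ++ b)) = η ^ k * ev s.lab (a ++ b) := by
  rw [← List.append_assoc, ev_append, (remb_pump h k ha).2, ev_append, mul_assoc]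

theorem remb_take {X : Type} (a p b : List X) {m : ℕ} (h1 : a.length ≤ m) (h2 : m ≤ a.length + p.length) :
    (a ++ (p ++ b)).take m = a ++ p.take (m - a.length) := by
  rw [List.take_append, List.take_of_length_le h1, List.take_append_of_le_length (by omega)]

/-- a pumped word has a long window with velocity `Ω` -/
theorem remb_win (h : remb_Pump S s Ω η n y) (hg : S.Good s.lab) (l : ℕ) : ∃ K : ℕ, ∀ a b k,
    remb_Plus S s Ω a → a ++ b ∈ s.M.accepts → K ≤ k →
      ∃ a', s.Win S (a ++ (remb_pw y (s.st a) k ++ b)) a' (a' + l) Ω := by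
  obtain ⟨C, hC⟩ := s.est_tl S hg
  obtain ⟨l', hl'⟩ := s.win_of_bounded S hg (C + C) l
  refine ⟨l', fun a b k ha hab hk => ?_⟩
  have hlen := remb_len h ha k
  have hrank : ∀ r, s.rank (s.δ (s.st a) ((remb_pw y (s.st a) k).take r)) = s.rank (s.st a) := fun r =>
    s.rank_of_back (b := (remb_pw y (s.st a) k).drop r)
      (by rw [← s.δ_append, List.take_append_drop, (remb_pump h k ha).1])
  have hkn : k ≤ k * n := Nat.le_mul_of_pos_right k h.pos
  obtain ⟨a', Ω', h1, h2, hw⟩ := hl' _ ((remb_acc h ha k b).2 hab) a.length (a.length + k * n) (by omega)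
    (by simp only [List.length_append, hlen]; omega) (by
      intro m m' hm hmm hm'
      rw [remb_take _ _ _ hm (by omega), remb_take _ _ _ (by omega) (by omega), ev_append, ev_append,
        mul_inv_rev, mul_assoc, inv_mul_cancel_left]
      exact (hC _ _ ha.1 (hrank _)).inv.mul (hC _ _ ha.1 (hrank _)))
  refine ⟨a', ?_⟩
  obtain ⟨e1, -, e3⟩ := hw.2.2 a' le_rfl (by omega)
  rw [remb_take _ _ _ h1 (by omega)] at e1 e3
  rw [s.st_append] at e1
  have hv := Str.Est.vel_step ha.1 e1 (hrank _)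
  have : Ω' = Ω := by
    rw [← e3, ← ha.2]
    unfold Str.av
    rw [ev_append, S.e_mul, remb_zpow_apply, s.st_append, hv]
  rw [← this]
  exact hw

/-- and so has every fellow traveller -/
theorem remb_transfer (h : remb_Pump S s Ω η n y) (hg : S.Good s.lab) (hZ : Z ≤ S.L.normalCore) (γ : Γ) (l : ℕ) :
    ∃ K : ℕ, ∀ a b k, remb_Plus S s Ω a → a ++ b ∈ s.M.accepts → K ≤ k → ∀ v ∈ s.M.accepts, ∀ z ∈ Z,
      η ^ k * ev s.lab (a ++ b) * γ = z * ev s.lab v → ∃ a', s.Win S v a' (a' + l) Ω := by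
  obtain ⟨l', hl'⟩ := s.win_transfer S hg hZ γ l
  obtain ⟨K, hK⟩ := remb_win h hg l'
  refine ⟨K, fun a b k ha hab hk v hv z hz he => ?_⟩
  obtain ⟨a', hw⟩ := hK a b k ha hab hk
  obtain ⟨a'', -, -, hw'⟩ := hl' _ ((remb_acc h ha k b).2 hab) v hv z hz (by rw [remb_ev h ha, he]) a' (a' + l') Ω
    le_rfl hw
  exact ⟨a'', hw'⟩

/-- deleting the copies of the loop after a first cut -/
theorem remb_strip (h : remb_Pump S s Ω η n y) {a : List s.X} (ha : remb_Plus S s Ω a)
    (hf : ∀ a', a' <+: a → s.Est S (s.st a') → s.av S a' = Ω → a' = a) (N : ℕ) :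
    ∀ b : List s.X, b.length ≤ N → a ++ b ∈ s.M.accepts →
      ∃ b', remb_Cut S s Ω y a b' ∧ ∃ j : ℕ, ev s.lab (a ++ b) = η ^ j * ev s.lab (a ++ b') := by
  have hlen := (h.hy a ha.1 ha.2).1
  have hpos := h.pos
  induction N with
  | zero =>
    intro b hb hab
    refine ⟨b, ⟨hab, ha, hf, fun hp => ?_⟩, 0, by simp⟩
    have := hp.length_le
    omega
  | succ N ih =>
    intro b hb hab
    by_cases hp : y (s.st a) <+: b
    · obtain ⟨c, rfl⟩ := hp
      have e1 : y (s.st a) = remb_pw y (s.st a) 1 := by simp [remb_pw]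
      rw [List.length_append] at hb
      rw [e1] at hab
      obtain ⟨b', hc, j, hj⟩ := ih c (by omega) ((remb_acc h ha 1 c).1 hab)
      refine ⟨b', hc, j + 1, ?_⟩
      rw [e1, remb_ev h ha, hj, ← mul_assoc, ← pow_add, add_comm]
    · exact ⟨b, ⟨hab, ha, hf, hp⟩, 0, by simp⟩

theorem remb_first (h : remb_Pump S s Ω η n y) {w : List s.X} (hw : w ∈ s.M.accepts) {m : ℕ}
    (hm : remb_Plus S s Ω (w.take m)) :
    ∃ a b, remb_Cut S s Ω y a b ∧ ∃ j : ℕ, ev s.lab w = η ^ j * ev s.lab (a ++ b) := by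
  classical
  have hex : ∃ m, remb_Plus S s Ω (w.take m) := ⟨m, hm⟩
  have hf : ∀ a', a' <+: w.take (Nat.find hex) → s.Est S (s.st a') → s.av S a' = Ω →
      a' = w.take (Nat.find hex) := by
    intro a' hp h1 h2
    have hp' : a' <+: w := hp.trans (List.take_prefix _ _)
    have h3 : Nat.find hex ≤ a'.length := Nat.find_min' hex (by
      rw [← List.prefix_iff_eq_take.1 hp']; exact ⟨h1, h2⟩)
    refine hp.eq_of_length_le ?_
    rw [List.length_take]
    omega
  obtain ⟨b', hc, j, hj⟩ := remb_strip h (Nat.find_spec hex) hf _ (w.drop (Nat.find hex)) le_rfl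
    (by rw [List.take_append_drop]; exact hw)
  rw [List.take_append_drop] at hj
  exact ⟨_, b', hc, j, hj⟩

theorem remb_uniq (h : remb_Pump S s Ω η n y) {a₁ b₁ a₂ b₂ : List s.X} (c₁ : remb_Cut S s Ω y a₁ b₁)
    (c₂ : remb_Cut S s Ω y a₂ b₂) {z : Γ} (hz : z ∈ Z) {k : ℕ}
    (he : ev s.lab (a₂ ++ b₂) = z * (η ^ k * ev s.lab (a₁ ++ b₁))) : a₁ ++ b₁ = a₂ ++ b₂ := by
  have hw := s.uniq _ ((remb_acc h c₁.plus k b₁).2 c₁.acc) _ c₂.acc z hz (by rw [remb_ev h c₁.plus, he])
  have ha : a₁ = a₂ := by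
    rcases List.prefix_or_prefix_of_prefix (l₃ := a₂ ++ b₂) (hw ▸ List.prefix_append _ _)
      (List.prefix_append _ _) with hp | hp
    · exact c₂.first _ hp c₁.plus.1 c₁.plus.2
    · exact (c₁.first _ hp c₂.plus.1 c₂.plus.2).symm
  subst ha
  have hb := List.append_cancel_left hw
  cases k with
  | zero => rw [← hw, remb_pw_zero, List.nil_append]
  | succ k =>
    exfalso
    refine c₂.nf ?_
    rw [← hb, remb_pw_succ, List.append_assoc]
    exact List.prefix_append _ _

/-- key claim: after the first cut there is no plus initial segment further than `n` letters -/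
theorem remb_key (h : remb_Pump S s Ω η n y) {a b' b'' : List s.X} (c : remb_Cut S s Ω y a (b' ++ b''))
    (hp : remb_Plus S s Ω (a ++ b')) : b'.length < n := by
  have e1 : ∀ q, remb_pw y q 1 = y q := fun q => by simp [remb_pw]
  have hacc : a ++ b' ++ b'' ∈ s.M.accepts := by rw [List.append_assoc]; exact c.acc
  have hw := s.uniq _ ((remb_acc h c.plus 1 _).2 c.acc) _ ((remb_acc h hp 1 b'').2 hacc) 1 Z.one_mem (by
    rw [remb_ev h c.plus, remb_ev h hp, one_mul, List.append_assoc])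
  rw [e1, e1, List.append_assoc] at hw
  have hb := List.append_cancel_left hw
  by_contra hn
  refine c.nf ((List.prefix_of_prefix_length_le (l₃ := y (s.st a) ++ (b' ++ b'')) (List.prefix_append _ _)
    (hb ▸ List.prefix_append _ _) ?_).trans (List.prefix_append _ _))
  rw [(h.hy a c.plus.1 c.plus.2).1]
  omega

theorem remb_nowin (h : remb_Pump S s Ω η n y) {a b : List s.X} (c : remb_Cut S s Ω y a b) (m : ℕ) :
    ¬s.Win S (a ++ b) m (m + n) Ω := by
  rintro ⟨-, h2, h3⟩
  rw [List.length_append] at h2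
  obtain ⟨e1, -, e3⟩ := h3 m le_rfl (by omega)
  obtain ⟨f1, -, f3⟩ := h3 (m + n) (by omega) le_rfl
  have hm : a.length ≤ m := by
    by_contra hlt
    have hp : (a ++ b).take m <+: a := by
      rw [List.take_append_of_le_length (by omega)]
      exact List.take_prefix _ _
    have := congrArg List.length (c.first _ hp e1 e3)
    rw [List.length_take, List.length_append] at this
    omega
  have ht : (a ++ b).take (m + n) = a ++ b.take (m + n - a.length) := by
    rw [List.take_append, List.take_of_length_le (by omega)]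
  rw [ht] at f1 f3
  have c' : remb_Cut S s Ω y a (b.take (m + n - a.length) ++ b.drop (m + n - a.length)) := by
    rw [List.take_append_drop]; exact c
  have := remb_key h c' ⟨f1, f3⟩
  rw [List.length_take] at this
  omega

/-- a word and its pumped version fellow travel -/
theorem remb_diff (h : remb_Pump S s Ω η n y) (K : ℕ) : ∃ F : Set Γ, F.Finite ∧ ∀ k, k < K → ∀ a b,
    remb_Plus S s Ω a → ∀ t : ℕ, (ev s.lab ((a ++ (remb_pw y (s.st a) k ++ b)).take t))⁻¹ * η ^ k *
      ev s.lab ((a ++ b).take t) ∈ F := by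
  refine ⟨(⋃ k ∈ Set.Iio K, {γ | ∃ g, γ = g⁻¹ * η ^ k * g}) ∪
    {g | ∃ w : List s.X, w.length ≤ K * n ∧ ev s.lab w = g},
    ((Set.finite_Iio K).biUnion fun k _ => S.finite_conj (Subgroup.pow_mem _ h.core k)).union
      (finite_ev_le _ _), fun k hk a b ha t => ?_⟩
  by_cases ht : t ≤ a.length
  · left
    rw [List.take_append_of_le_length ht, List.take_append_of_le_length ht]
    exact Set.mem_biUnion hk ⟨_, rfl⟩
  · right
    have hlen := remb_len h ha k
    have e1 : ∀ c : List s.X, (a ++ c).take t = a ++ c.take (t - a.length) := fun c => by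
      rw [List.take_append, List.take_of_length_le (by omega)]
    have hp : (remb_pw y (s.st a) k ++ b).take (t - a.length) <+:
        remb_pw y (s.st a) k ++ b.take (t - a.length) := by
      have : remb_pw y (s.st a) k ++ b.take (t - a.length) =
          (remb_pw y (s.st a) k ++ b).take ((remb_pw y (s.st a) k).length + (t - a.length)) := by
        rw [List.take_append, Nat.add_sub_cancel_left,
          List.take_of_length_le (l := remb_pw y (s.st a) k) (by omega)]
      rw [this]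
      exact List.take_prefix_take_left (by omega)
    obtain ⟨c, hc⟩ := hp
    refine ⟨c, ?_, ?_⟩
    · have := congrArg List.length hc
      simp only [List.length_append, List.length_take, hlen] at this
      have : k * n ≤ K * n := Nat.mul_le_mul_right n hk.le
      omega
    · rw [e1, e1, mul_assoc, ← remb_ev h ha, ← hc, ← List.append_assoc, ev_append s.lab _ c, inv_mul_cancel_left]

theorem remb_ft (h : remb_Pump S s Ω η n y) (hg : S.Good s.lab) (hZ : Z ≤ S.L.normalCore) (γ : Γ) :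
    ∃ D : Set Γ, D.Finite ∧ ∀ a₁ b₁ a₂ b₂, remb_Cut S s Ω y a₁ b₁ → remb_Cut S s Ω y a₂ b₂ → ∀ z ∈ Z, ∀ k : ℤ,
      ev s.lab (a₁ ++ b₁) * γ = z * η ^ k * ev s.lab (a₂ ++ b₂) →
        ∀ t, (ev s.lab ((a₁ ++ b₁).take t))⁻¹ * (z * η ^ k) * ev s.lab ((a₂ ++ b₂).take t) ∈ D := by
  obtain ⟨K₁, hK₁⟩ := remb_transfer h hg hZ γ n
  obtain ⟨K₂, hK₂⟩ := remb_transfer h hg hZ γ⁻¹ n
  obtain ⟨F₁, hF₁, h₁⟩ := remb_diff h K₁
  obtain ⟨F₂, hF₂, h₂⟩ := remb_diff h K₂
  obtain ⟨D, hD, hft⟩ := s.ft γ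
  refine ⟨Set.image2 (fun f d => f⁻¹ * d) F₁ D ∪ Set.image2 (fun d f => d * f) D F₂,
    (hF₁.image2 _ hD).union (hD.image2 _ hF₂), fun a₁ b₁ a₂ b₂ c₁ c₂ z hz k he t => ?_⟩
  obtain ⟨κ, rfl | rfl⟩ := Int.eq_nat_or_neg k
  · right
    rw [zpow_natCast] at he ⊢
    have hκ : κ < K₂ := by
      by_contra hn
      obtain ⟨m, hm⟩ := hK₂ a₂ b₂ κ c₂.plus c₂.acc (by omega) _ c₁.acc z⁻¹ (Z.inv_mem hz) (by
        rw [eq_inv_mul_iff_mul_eq, ← mul_assoc, ← mul_assoc, ← he, mul_inv_cancel_right])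
      exact remb_nowin h c₁ m hm
    refine ⟨_, hft _ c₁.acc _ ((remb_acc h c₂.plus κ b₂).2 c₂.acc) z hz
      (by rw [remb_ev h c₂.plus, he, mul_assoc]) t, _, h₂ κ hκ a₂ b₂ c₂.plus t, ?_⟩
    simp only [mul_assoc, mul_inv_cancel_left]
  · left
    have hc : z * (η ^ κ)⁻¹ = (η ^ κ)⁻¹ * z :=
      S.L_comm (S.core_le (hZ hz)) (S.L.inv_mem (S.L.pow_mem (S.core_le h.core) κ))
    rw [zpow_neg, zpow_natCast, hc] at he ⊢
    have he' : η ^ κ * ev s.lab (a₁ ++ b₁) * γ = z * ev s.lab (a₂ ++ b₂) := by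
      rw [mul_assoc, he, mul_assoc, mul_inv_cancel_left]
    have hκ : κ < K₁ := by
      by_contra hn
      obtain ⟨m, hm⟩ := hK₁ a₁ b₁ κ c₁.plus c₁.acc (by omega) _ c₂.acc z hz he'
      exact remb_nowin h c₂ m hm
    refine ⟨_, h₁ κ hκ a₁ b₁ c₁.plus t, _, hft _ ((remb_acc h c₁.plus κ b₁).2 c₁.acc) _ c₂.acc z hz
      (by rw [remb_ev h c₁.plus, he']) t, ?_⟩
    simp only [mul_inv_rev, inv_inv, mul_assoc, mul_inv_cancel_left]

end

/-- One step.  Take `η n y` from `exists_pump` and the language `L'` of `regular_cut` (same letters and labels, a DFA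
from regularity).  Write `y^i` for the `i`-th power; `a ++ y^i ++ b` is accepted iff `a ++ b` is, and its value is
`η ^ i * ev (a ++ b)`.  Elements of `Z ⊔ zpowers η` are `z * η ^ k` (everything commutes inside `L`).
* `η ^ m ∈ Z`, `m ≠ 0`, contradicts `uniq` for `p₀ ++ y^|m| ++ v`.
* onto: `p₀ ++ y^k ++ v₀` has the window `[|p₀|, |p₀| + k n]` with velocity `Ω` (states on a loop through an `Est`
  state: get a long sub-window from `win_of_bounded`, `est_tl`, and its velocity from `Est.vel_step`); by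
  `win_transfer` for `γ = (ev (p₀ ++ v₀))⁻¹ * g` the normal form of `η ^ k * g` has a plus initial segment; cut at
  the first one and delete copies of `y` (induction on the length of `b`).
* uniq: if `ev w₂ = z * η ^ k * ev w₁` with `k ≥ 0` then `w₂ = a₁ ++ y^k ++ b₁`, the first plus initial segments
  agree, so `k = 0`.
* key claim: if `a ++ b ∈ L'` (first cut) and `b = b' ++ b''` with `a ++ b'` plus, then `|b'| < n`: the accepted words
  `a ++ y ++ b' ++ b''` and `a ++ b' ++ y' ++ b''` have the same value, so `y ++ b' = b' ++ y'`.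
* ft: if `ev w₁ * γ = z * η ^ k * ev w₂` then `|k|` is bounded in terms of `γ` (for `k = -κ` very negative
  `a₁ ++ y^κ ++ b₁` has a long window, `win_transfer` gives a window of length `n` in `w₂`, against the key claim;
  use `γ⁻¹` for the other sign).  For `k ≥ 0` compare `w₁` with `a₂ ++ y^k ++ b₂`; the points at time `s` of
  `a₂ ++ y^k ++ b₂` and `η ^ k * (a₂ ++ b₂)` differ by a conjugate of `η ^ k` (`finite_conj`) if `s ≤ |a₂|` and by a
  word of length at most `k n` otherwise (`finite_ev_le`). -/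
theorem remove_step {Z : Subgroup Γ} (hZ : Z ≤ S.L.normalCore) (s : Str Γ Z) (hg : S.Good s.lab) {q : s.Q}
    (hq : s.Est S q) (hp : S.Per (s.vel S q)) :
    ∃ η ∈ S.L.normalCore, (∀ m : ℕ, 0 < m → η ^ m ∉ Z) ∧
      ∃ s' : Str Γ (Z ⊔ Subgroup.zpowers η), S.Good s'.lab := by
  obtain ⟨p₀, rfl⟩ := hq.1
  obtain ⟨η, n, y, hη, hn, hy⟩ := exists_pump S s hq hp
  have h : remb_Pump S s (s.av S p₀) η n y := ⟨hη, hn, hy⟩
  have h₀ : remb_Plus S s (s.av S p₀) p₀ := ⟨hq, rfl⟩
  obtain ⟨v₀, hv₀⟩ := hq.2.1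
  have hu₀ : p₀ ++ v₀ ∈ s.M.accepts := s.append_mem_acc.2 hv₀
  obtain ⟨σ, hσ, M, hM⟩ := regular_cut S s (Ω := s.av S p₀) (remb_per S hp _) n y fun a h1 h2 => (hy a h1 h2).1
  have hcut : ∀ w, w ∈ M.accepts ↔ ∃ a b, w = a ++ b ∧ remb_Cut S s (s.av S p₀) y a b := by
    intro w
    rw [hM]
    constructor
    · rintro ⟨h1, a, b, rfl, h2, h3, h4, h5⟩
      exact ⟨a, b, rfl, h1, ⟨h2, h3⟩, h4, h5⟩
    · rintro ⟨a, b, rfl, c⟩
      exact ⟨c.acc, a, b, rfl, c.plus.1, c.plus.2, c.first, c.nf⟩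
  have hZ' : ∀ z ∈ Z, z ∈ Z ⊔ Subgroup.zpowers η := fun z hz => Subgroup.mem_sup_left hz
  have hη' : η ∈ Z ⊔ Subgroup.zpowers η := Subgroup.mem_sup_right (Subgroup.mem_zpowers η)
  refine ⟨η, hη, fun m hm hmZ => ?_, ⟨{ X := s.X, Q := σ, M := M, lab := s.lab, uniq := ?_, onto := ?_, ft := ?_ }, hg⟩⟩
  · have := congrArg List.length (s.uniq _ hu₀ _ ((remb_acc h h₀ m v₀).2 hu₀) _ hmZ (remb_ev h h₀ m v₀))
    simp only [List.length_append, remb_len h h₀] at this
    have : 0 < m * n := Nat.mul_pos hm hn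
    omega
  · intro u hu v hv x hx he
    obtain ⟨a₁, b₁, rfl, c₁⟩ := (hcut u).1 hu
    obtain ⟨a₂, b₂, rfl, c₂⟩ := (hcut v).1 hv
    obtain ⟨z, hz, k, rfl⟩ := remb_mem_sup S hZ hη hx
    obtain ⟨κ, rfl | rfl⟩ := Int.eq_nat_or_neg k
    · exact remb_uniq h c₁ c₂ hz (k := κ) (by rw [he, zpow_natCast, mul_assoc])
    · have hc : η ^ κ * z = z * η ^ κ := S.L_comm (S.L.pow_mem (S.core_le hη) κ) (S.core_le (hZ hz))
      refine (remb_uniq h c₂ c₁ (Z.inv_mem hz) (k := κ) ?_).symm
      rw [he, zpow_neg, zpow_natCast, ← mul_assoc (η ^ κ), ← mul_assoc (η ^ κ), hc]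
      simp only [mul_assoc, mul_inv_cancel_left, inv_mul_cancel_left]
  · intro g
    obtain ⟨K, hK⟩ := remb_transfer h hg hZ ((ev s.lab (p₀ ++ v₀))⁻¹ * g) 0
    obtain ⟨v, hv, z, hz, he⟩ := s.onto (η ^ K * g)
    obtain ⟨m, hm⟩ := hK p₀ v₀ K h₀ hu₀ le_rfl v hv z⁻¹ (Z.inv_mem hz) (by
      rw [he, mul_assoc, mul_inv_cancel_left, inv_mul_cancel_left])
    obtain ⟨e1, -, e3⟩ := hm.2.2 m le_rfl (by omega)
    obtain ⟨a, b, c, j, hj⟩ := remb_first h hv ⟨e1, e3⟩
    refine ⟨a ++ b, (hcut _).2 ⟨a, b, rfl, c⟩, (η ^ j)⁻¹ * z * η ^ K, Subgroup.mul_mem _ (Subgroup.mul_mem _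
      (Subgroup.inv_mem _ (Subgroup.pow_mem _ hη' j)) (hZ' z hz)) (Subgroup.pow_mem _ hη' K), ?_⟩
    rw [mul_assoc, mul_assoc, ← he, hj, inv_mul_cancel_left]
  · intro γ
    obtain ⟨D, hD, hft⟩ := remb_ft h hg hZ γ
    refine ⟨D, hD, fun u hu v hv x hx he t => ?_⟩
    obtain ⟨a₁, b₁, rfl, c₁⟩ := (hcut u).1 hu
    obtain ⟨a₂, b₂, rfl, c₂⟩ := (hcut v).1 hv
    obtain ⟨z, hz, k, rfl⟩ := remb_mem_sup S hZ hη hx
    exact hft a₁ b₁ a₂ b₂ c₁ c₂ z hz k he t

end Pool.Agent.MP_6674cc_al

/-! Removing the cycles with periodic velocity by passing to a coset space. -/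

namespace Pool.Agent.MP_6674cc_al

variable {Γ : Type} [Group Γ] (S : Setup Γ)

/-- the coordinates of the elements of a subgroup -/
def rem_sub (Z : Subgroup Γ) : Submodule ℤ (S.I → ℤ) :=
  (Subgroup.toAddSubgroup' (Z.comap S.ι)).toIntSubmodule

theorem rem_mem {Z : Subgroup Γ} {x : S.I → ℤ} : x ∈ rem_sub S Z ↔ S.io x ∈ Z := Iff.rfl

/-- Noetherian induction on the saturation `{x | ∃ m > 0, io x ^ m ∈ Z}`, a submodule of `I → ℤ` that grows strictly
at each step. -/
theorem remove_all (s : Str Γ ⊥) (hg : S.Good s.lab) :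
    ∃ Z ≤ S.L.normalCore, ∃ s' : Str Γ Z, S.Good s'.lab ∧ ∀ q, s'.Est S q → ¬S.Per (s'.vel S q) := by
  obtain ⟨N, ⟨Z, hZ, ⟨s', hs'⟩, rfl⟩, hmax⟩ := (set_has_maximal_iff_noetherian (R := ℤ) (M := S.I → ℤ)).2
    inferInstance {N | ∃ Z ≤ S.L.normalCore, (∃ s' : Str Γ Z, S.Good s'.lab) ∧ rem_sub S Z = N}
    ⟨_, ⊥, bot_le, ⟨s, hg⟩, rfl⟩
  refine ⟨Z, hZ, s', hs', fun q hq hp => ?_⟩
  obtain ⟨η, h1, h2, h3⟩ := remove_step S hZ s' hs' hq hp
  obtain ⟨x, rfl⟩ := S.mem_L.1 (S.core_le h1)
  refine hmax _ ⟨_, sup_le hZ ((Subgroup.zpowers_le).2 h1), h3, rfl⟩ (lt_of_le_of_ne (fun y hy => ?_) fun h => ?_)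
  · exact (rem_mem S).2 (Subgroup.mem_sup_left ((rem_mem S).1 hy))
  · refine h2 1 one_pos ?_
    rw [pow_one, ← rem_mem, h, rem_mem]
    exact Subgroup.mem_sup_right (Subgroup.mem_zpowers _)

end Pool.Agent.MP_6674cc_al

end
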